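import Pool.Agent.Lib.MP_cff830_lc.ZR.StmtsZ59

/-!
# Sparse graphs of large odd girth map to an odd cycle (row Z1 of ZR, helper9)

Induction on a set `S` of vertices.  A vertex with at most one neighbour in `S` is removed.
Otherwise some walk without backtracking `x 0, ..., x (2 * l)` in `S` has all its inner vertices of
degree two; a shortest piece of it that is closed, or the whole walk, is removed (its inner
vertices), and the map is extended along a walk of the same length in the cycle.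
-/

set_option autoImplicit false

namespace Pool.Agent.Lib.MP_cff830_lc.ZR

namespace Z1

open Finset
open scoped Classical

variable {V : Type} (G : SimpleGraph V)

/-- the neighbours in `S` -/
noncomputable def nb (S : Finset V) (v : V) : Finset V := S.filter fun u => G.Adj v u

/-- the condition on the edges in `S` -/
def Hm (l : ℕ) (S : Finset V) (h : V → ZMod (2 * l + 1)) : Prop :=
  ∀ u ∈ S, ∀ v ∈ S, G.Adj u v → h u = h v + 1 ∨ h v = h u + 1

theorem mem_nb {S : Finset V} {v u : V} : u ∈ nb G S v ↔ u ∈ S ∧ G.Adj v u := by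
  simp [nb]

theorem leaf {l : ℕ} {S : Finset V} {v : V} (hd : (nb G S v).card ≤ 1)
    {h : V → ZMod (2 * l + 1)} (hh : Hm G l (S.erase v) h) : ∃ h', Hm G l S h' := by
  obtain ⟨c, hc⟩ : ∃ c : ZMod (2 * l + 1), ∀ u ∈ nb G S v, c = h u + 1 := by
    rcases (nb G S v).eq_empty_or_nonempty with he | ⟨w, hw⟩
    · exact ⟨0, by simp [he]⟩
    · refine ⟨h w + 1, fun u hu => ?_⟩
      rw [Finset.card_le_one.1 hd u hu w hw]
  refine ⟨Function.update h v c, ?_⟩
  intro a ha b hb hab
  have hne : a ≠ b := hab.ne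
  by_cases h1 : a = v
  · subst h1
    rw [Function.update_self, Function.update_of_ne hne.symm]
    exact Or.inl (hc b ((mem_nb G).2 ⟨hb, hab⟩))
  · by_cases h2 : b = v
    · subst h2
      rw [Function.update_self, Function.update_of_ne h1]
      exact Or.inr (hc a ((mem_nb G).2 ⟨ha, hab.symm⟩))
    · rw [Function.update_of_ne h1, Function.update_of_ne h2]
      exact hh a (mem_erase.2 ⟨h1, ha⟩) b (mem_erase.2 ⟨h2, hb⟩) hab

theorem ext {l : ℕ} {S : Finset V} (y : ℕ → V) (d : ℕ)
    (hadj : ∀ k, G.Adj (y k) (y (k + 1))) (hS : ∀ k, y k ∈ S)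
    (hnb : ∀ k, k + 1 < d → (nb G S (y (k + 1))).card = 2) (hne : ∀ k, y (k + 2) ≠ y k)
    (hinj : ∀ a b, a < b → b ≤ d → b < a + d → y a ≠ y b)
    {h : V → ZMod (2 * l + 1)} (hh : Hm G l (S \ (Ioo 0 d).image y) h)
    (c : ℕ → ZMod (2 * l + 1)) (c0 : c 0 = h (y 0)) (cd : c d = h (y d))
    (hc : ∀ k < d, c (k + 1) = c k + 1 ∨ c k = c (k + 1) + 1) : ∃ h', Hm G l S h' := by
  -- the new map
  obtain ⟨h', h1, h2⟩ : ∃ h' : V → ZMod (2 * l + 1),
      (∀ k, 0 < k → k < d → h' (y k) = c k) ∧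
      (∀ v, v ∉ (Ioo 0 d).image y → h' v = h v) := by
    refine ⟨fun v => if hv : ∃ k, k ∈ Ioo 0 d ∧ y k = v then c hv.choose else h v, ?_, ?_⟩
    · intro k hk1 hk2
      have hv : ∃ j, j ∈ Ioo 0 d ∧ y j = y k := ⟨k, mem_Ioo.2 ⟨hk1, hk2⟩, rfl⟩
      have hs := hv.choose_spec
      simp only [hv, dif_pos]
      congr 1
      obtain ⟨hs1, hs2⟩ := hs
      rw [mem_Ioo] at hs1
      rcases lt_trichotomy hv.choose k with h3 | h3 | h3
      · exact absurd hs2 (hinj _ _ h3 hk2.le (by omega))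
      · exact h3
      · exact absurd hs2.symm (hinj _ _ h3 hs1.2.le (by omega))
    · intro v hv
      have : ¬ ∃ k, k ∈ Ioo 0 d ∧ y k = v := by
        rintro ⟨k, hk, rfl⟩
        exact hv (mem_image_of_mem y hk)
      simp only [this, dif_neg, not_false_iff]
  have hout : ∀ k, k = 0 ∨ k = d → y k ∉ (Ioo 0 d).image y := by
    intro k hk hm
    obtain ⟨j, hj, hjk⟩ := mem_image.1 hm
    rw [mem_Ioo] at hj
    rcases hk with rfl | rfl
    · exact hinj 0 j hj.1 hj.2.le (by omega) hjk.symm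
    · exact hinj j _ hj.2 le_rfl (by omega) hjk
  have h3 : ∀ k, k ≤ d → h' (y k) = c k := by
    intro k hk
    rcases Nat.eq_zero_or_pos k with rfl | hk0
    · rw [h2 _ (hout 0 (Or.inl rfl)), c0]
    · rcases eq_or_lt_of_le hk with rfl | hk1
      · rw [h2 _ (hout _ (Or.inr rfl)), cd]
      · exact h1 k hk0 hk1
  -- edges at an inner vertex
  have h4 : ∀ k, k + 1 < d → ∀ b ∈ S, G.Adj (y (k + 1)) b →
      h' (y (k + 1)) = h' b + 1 ∨ h' b = h' (y (k + 1)) + 1 := by
    intro k hk b hb hab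
    have hsub : ({y k, y (k + 2)} : Finset V) ⊆ nb G S (y (k + 1)) := by
      intro z hz
      rw [mem_insert, mem_singleton] at hz
      rcases hz with rfl | rfl
      · exact (mem_nb G).2 ⟨hS k, (hadj k).symm⟩
      · exact (mem_nb G).2 ⟨hS (k + 2), hadj (k + 1)⟩
    have hcard : (nb G S (y (k + 1))).card ≤ ({y k, y (k + 2)} : Finset V).card := by
      rw [hnb k hk, card_pair (hne k).symm]
    have hb' : b ∈ ({y k, y (k + 2)} : Finset V) := by
      rw [eq_of_subset_of_card_le hsub hcard]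
      exact (mem_nb G).2 ⟨hb, hab⟩
    rw [mem_insert, mem_singleton] at hb'
    rcases hb' with rfl | rfl
    · rw [h3 _ hk.le, h3 k (by omega)]
      rcases hc k (by omega) with h5 | h5
      · exact Or.inl h5
      · exact Or.inr h5
    · rw [h3 _ hk.le, h3 (k + 2) (by omega)]
      rcases hc (k + 1) hk with h5 | h5
      · exact Or.inr h5
      · exact Or.inl h5
  refine ⟨h', ?_⟩
  intro a ha b hb hab
  by_cases ha1 : a ∈ (Ioo 0 d).image y
  · obtain ⟨j, hj, rfl⟩ := mem_image.1 ha1
    rw [mem_Ioo] at hj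
    obtain ⟨k, rfl⟩ : ∃ k, j = k + 1 := ⟨j - 1, by omega⟩
    exact h4 k hj.2 b hb hab
  · by_cases hb1 : b ∈ (Ioo 0 d).image y
    · obtain ⟨j, hj, rfl⟩ := mem_image.1 hb1
      rw [mem_Ioo] at hj
      obtain ⟨k, rfl⟩ : ∃ k, j = k + 1 := ⟨j - 1, by omega⟩
      exact (h4 k hj.2 a ha hab.symm).symm
    · rw [h2 a ha1, h2 b hb1]
      exact hh a (mem_sdiff.2 ⟨ha, ha1⟩) b (mem_sdiff.2 ⟨hb, hb1⟩) hab

/-- walks of length `2 * l` in the cycle of length `2 * l + 1` -/
theorem cyc (l : ℕ) (a b : ZMod (2 * l + 1)) : ∃ c : ℕ → ZMod (2 * l + 1),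
    c 0 = a ∧ c (2 * l) = b ∧ ∀ k, c (k + 1) = c k + 1 ∨ c k = c (k + 1) + 1 := by
  have : NeZero (2 * l + 1) := ⟨by omega⟩
  set p : ℕ := ((b - a - 1) * (l + 1 : ZMod (2 * l + 1))).val with hp
  have hpl : p ≤ 2 * l := by
    have := ZMod.val_lt ((b - a - 1) * (l + 1 : ZMod (2 * l + 1)))
    omega
  have hpc : (p : ZMod (2 * l + 1)) = (b - a - 1) * (l + 1) := by
    rw [hp, ZMod.natCast_val, ZMod.cast_id', id]
  have h0 : (2 * (l : ZMod (2 * l + 1)) + 1) = 0 := by
    have := ZMod.natCast_self (2 * l + 1)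
    push_cast at this
    exact this
  refine ⟨fun k => a + ((min k p : ℕ) : ZMod (2 * l + 1)) - ((k - p : ℕ) : ZMod (2 * l + 1)),
    ?_, ?_, ?_⟩
  · simp
  · simp only
    rw [min_eq_right hpl, Nat.cast_sub hpl, hpc]
    push_cast
    linear_combination (b - a - 1 - 1) * h0
  · intro k
    rcases Nat.lt_or_ge k p with hk | hk
    · left
      simp only
      rw [min_eq_left hk.le, min_eq_left (by omega : k + 1 ≤ p), Nat.sub_eq_zero_of_le hk.le,
        Nat.sub_eq_zero_of_le (by omega : k + 1 ≤ p)]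
      push_cast
      ring
    · right
      simp only
      rw [min_eq_right hk, min_eq_right (by omega : p ≤ k + 1),
        show k + 1 - p = (k - p) + 1 by omega]
      push_cast
      ring

/-- closed walks of even length -/
theorem cycEven (l : ℕ) (a : ZMod (2 * l + 1)) : ∃ c : ℕ → ZMod (2 * l + 1),
    c 0 = a ∧ (∀ d, Even d → c d = a) ∧ ∀ k, c (k + 1) = c k + 1 ∨ c k = c (k + 1) + 1 := by
  refine ⟨fun k => if Even k then a else a + 1, by simp, fun d hd => by simp [hd], ?_⟩
  intro k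
  by_cases hk : Even k
  · left
    have : ¬ Even (k + 1) := by rw [Nat.even_add_one]; exact fun h => h hk
    simp [hk, this]
  · right
    have : Even (k + 1) := by rw [Nat.even_add_one]; exact hk
    simp [hk, this]

theorem wk (y : ℕ → V) (hadj : ∀ k, G.Adj (y k) (y (k + 1))) (i d : ℕ) :
    ∃ p : G.Walk (y i) (y (i + d)), p.length = d := by
  induction d with
  | zero => exact ⟨SimpleGraph.Walk.nil, rfl⟩
  | succ d ih =>
    obtain ⟨p, hp⟩ := ih
    exact ⟨p.concat (hadj (i + d)), by rw [SimpleGraph.Walk.length_concat, hp]⟩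

/-- the darts in `S` -/
noncomputable def dt [Fintype V] (S : Finset V) : Finset (V × V) :=
  univ.filter fun p : V × V => p.1 ∈ S ∧ p.2 ∈ S ∧ G.Adj p.1 p.2

theorem mem_dt [Fintype V] {S : Finset V} {p : V × V} :
    p ∈ dt G S ↔ p.1 ∈ S ∧ p.2 ∈ S ∧ G.Adj p.1 p.2 := by
  simp [dt]

theorem card_dt [Fintype V] (S : Finset V) (P : V → Prop) :
    ((dt G S).filter fun p => P p.2).card = ∑ u ∈ S.filter P, (nb G S u).card := by
  rw [card_eq_sum_card_fiberwise (f := Prod.snd) (t := S.filter P)]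
  · refine sum_congr rfl fun u hu => ?_
    rw [mem_filter] at hu
    refine card_bij' (fun p _ => p.1) (fun w _ => (w, u)) ?_ ?_ ?_ ?_
    · intro p hp
      rw [mem_filter, mem_filter, mem_dt] at hp
      obtain ⟨⟨⟨h1, _, h3⟩, _⟩, h5⟩ := hp
      rw [mem_nb]
      rw [h5] at h3
      exact ⟨h1, h3.symm⟩
    · intro w hw
      rw [mem_nb] at hw
      rw [mem_filter, mem_filter, mem_dt]
      exact ⟨⟨⟨hw.1, hu.1, hw.2.symm⟩, hu.2⟩, rfl⟩
    · intro p hp
      rw [mem_filter] at hp
      exact Prod.ext rfl hp.2.symm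
    · intro w hw
      rfl
  · intro p hp
    rw [mem_coe, mem_filter, mem_dt] at hp
    rw [mem_coe, mem_filter]
    exact ⟨hp.1.2.1, hp.2⟩

/-- the other neighbour -/
noncomputable def oth (S : Finset V) (w u : V) : V :=
  if h : ((nb G S u).erase w).Nonempty then h.choose else u

theorem oth_mem {S : Finset V} {w u : V} (hu : 2 ≤ (nb G S u).card) :
    oth G S w u ∈ (nb G S u).erase w := by
  have h : ((nb G S u).erase w).Nonempty := by
    rw [← card_pos]
    have := pred_card_le_card_erase (s := nb G S u) (a := w)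
    omega
  rw [oth, dif_pos h]
  exact h.choose_spec

/-- the next dart -/
noncomputable def nx (S : Finset V) (p : V × V) : V × V := (p.2, oth G S p.1 p.2)

theorem nx_mem [Fintype V] {S : Finset V} (h2 : ∀ u ∈ S, 2 ≤ (nb G S u).card) {p : V × V}
    (hp : p ∈ dt G S) : nx G S p ∈ dt G S := by
  rw [mem_dt] at hp
  have h := mem_of_mem_erase (oth_mem G (w := p.1) (h2 p.2 hp.2.1))
  rw [mem_nb] at h
  rw [mem_dt]
  exact ⟨hp.2.1, h.1, h.2⟩

theorem it_mem [Fintype V] {S : Finset V} (h2 : ∀ u ∈ S, 2 ≤ (nb G S u).card) {p : V × V}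
    (hp : p ∈ dt G S) (k : ℕ) : (nx G S)^[k] p ∈ dt G S := by
  induction k with
  | zero => exact hp
  | succ k ih =>
    rw [Function.iterate_succ_apply']
    exact nx_mem G h2 ih

/-- the darts that meet a vertex of large degree for the first time after `j` steps -/
noncomputable def bd [Fintype V] (S : Finset V) (j : ℕ) : Finset (V × V) :=
  (dt G S).filter fun p => (∀ i < j, (nb G S ((nx G S)^[i] p).2).card = 2) ∧
    3 ≤ (nb G S ((nx G S)^[j] p).2).card

theorem bd_succ [Fintype V] {S : Finset V} (h2 : ∀ u ∈ S, 2 ≤ (nb G S u).card) (j : ℕ) :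
    (bd G S (j + 1)).card ≤ (bd G S j).card := by
  refine card_le_card_of_injOn (nx G S) ?_ ?_
  · intro p hp
    rw [mem_coe, bd, mem_filter] at hp
    rw [mem_coe, bd, mem_filter]
    refine ⟨nx_mem G h2 hp.1, fun i hi => ?_, ?_⟩
    · have := hp.2.1 (i + 1) (by omega)
      rwa [Function.iterate_succ_apply] at this
    · have := hp.2.2
      rwa [Function.iterate_succ_apply] at this
  · intro p hp q hq hpq
    rw [mem_coe, bd, mem_filter] at hp hq
    have h3 : p.2 = q.2 := congrArg Prod.fst hpq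
    have h4 : oth G S p.1 p.2 = oth G S q.1 q.2 := congrArg Prod.snd hpq
    have hp0 := hp.2.1 0 (by omega)
    have hq0 := hq.2.1 0 (by omega)
    simp only [Function.iterate_zero, id] at hp0 hq0
    have hp1 := (mem_dt G).1 hp.1
    have hq1 := (mem_dt G).1 hq.1
    have hop := oth_mem G (w := p.1) (h2 p.2 hp1.2.1)
    have hoq := oth_mem G (w := q.1) (h2 q.2 hq1.2.1)
    rw [mem_erase] at hop hoq
    have hc : ((nb G S p.2).erase (oth G S p.1 p.2)).card ≤ 1 := by
      rw [card_erase_of_mem hop.2]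
      omega
    have hpm : p.1 ∈ (nb G S p.2).erase (oth G S p.1 p.2) := by
      rw [mem_erase, mem_nb]
      exact ⟨hop.1.symm, hp1.1, hp1.2.2.symm⟩
    have hqm : q.1 ∈ (nb G S p.2).erase (oth G S p.1 p.2) := by
      rw [mem_erase, mem_nb, h4, h3]
      exact ⟨hoq.1.symm, hq1.1, hq1.2.2.symm⟩
    exact Prod.ext (card_le_one.1 hc _ hpm _ hqm) h3

theorem bd_le [Fintype V] {S : Finset V} (h2 : ∀ u ∈ S, 2 ≤ (nb G S u).card) (j : ℕ) :
    (bd G S j).card ≤ (bd G S 0).card := by
  induction j with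
  | zero => exact le_rfl
  | succ j ih => exact (bd_succ G h2 j).trans ih

/-- a walk with inner vertices of degree two -/
theorem seq [Fintype V] {l : ℕ} (hl : 1 ≤ l) {S : Finset V} (hne : S.Nonempty)
    (h2 : ∀ u ∈ S, 2 ≤ (nb G S u).card)
    (hsp : 5 * l * (dt G S).card ≤ (10 * l + 1) * S.card) :
    ∃ x : ℕ → V, (∀ k, x k ∈ S) ∧ (∀ k, G.Adj (x k) (x (k + 1))) ∧
      (∀ k, x (k + 2) ≠ x k) ∧ ∀ k, k + 1 < 2 * l → (nb G S (x (k + 1))).card = 2 := by
  have hN : 0 < S.card := card_pos.2 hne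
  have hD : (dt G S).card = ∑ u ∈ S, (nb G S u).card := by
    have := card_dt G S (fun _ => True)
    simpa using this
  have hB : (bd G S 0).card = ∑ u ∈ S.filter (fun u => 3 ≤ (nb G S u).card),
      (nb G S u).card := by
    have h := card_dt G S (fun u => 3 ≤ (nb G S u).card)
    have h' : bd G S 0 = (dt G S).filter fun p => 3 ≤ (nb G S p.2).card := by
      ext p
      simp [bd]
    rw [h']
    convert h
  have h3 : (bd G S 0).card + 6 * S.card ≤ 3 * (dt G S).card := by
    rw [hB, hD, sum_filter, mul_sum, mul_comm 6, ← smul_eq_mul (S.card) 6, ← sum_const,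
      ← sum_add_distrib]
    refine sum_le_sum fun u hu => ?_
    have := h2 u hu
    split_ifs <;> omega
  have h4 : 2 * S.card ≤ (dt G S).card := by
    rw [hD, mul_comm, ← smul_eq_mul, ← sum_const]
    exact sum_le_sum fun u hu => h2 u hu
  have h5 : (2 * l - 1) * (bd G S 0).card < (dt G S).card := by
    have h6 : 5 * l * (bd G S 0).card ≤ 3 * S.card := by nlinarith
    have h7 : 5 * l * ((2 * l - 1) * (bd G S 0).card) < 5 * l * (dt G S).card := by
      calc 5 * l * ((2 * l - 1) * (bd G S 0).card)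
          = (2 * l - 1) * (5 * l * (bd G S 0).card) := by ring
        _ ≤ (2 * l - 1) * (3 * S.card) := Nat.mul_le_mul_left _ h6
        _ < 2 * l * (3 * S.card) := by
            apply Nat.mul_lt_mul_of_pos_right (by omega) (by omega)
        _ ≤ 5 * l * (dt G S).card := by nlinarith
    exact lt_of_mul_lt_mul_left h7 (Nat.zero_le _)
  obtain ⟨p, hp, hpn⟩ : ∃ p ∈ dt G S, p ∉ (range (2 * l - 1)).biUnion (bd G S) := by
    by_contra hcon
    push Not at hcon
    have h6 : (dt G S).card ≤ ((range (2 * l - 1)).biUnion (bd G S)).card := card_le_card hcon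
    have h7 : ((range (2 * l - 1)).biUnion (bd G S)).card ≤ (2 * l - 1) * (bd G S 0).card := by
      refine (card_biUnion_le).trans ?_
      calc ∑ j ∈ range (2 * l - 1), (bd G S j).card
          ≤ ∑ _j ∈ range (2 * l - 1), (bd G S 0).card := sum_le_sum fun j _ => bd_le G h2 j
        _ = (2 * l - 1) * (bd G S 0).card := by rw [sum_const, card_range, smul_eq_mul]
    omega
  have hgood : ∀ j, j < 2 * l - 1 → (nb G S ((nx G S)^[j] p).2).card = 2 := by
    intro j
    induction j using Nat.strong_induction_on with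
    | _ j ih =>
      intro hj
      by_contra hne2
      have hm := (mem_dt G).1 (it_mem G h2 hp j)
      have hge := h2 _ hm.2.1
      apply hpn
      rw [mem_biUnion]
      refine ⟨j, mem_range.2 hj, ?_⟩
      rw [bd, mem_filter]
      exact ⟨hp, fun i hi => ih i hi (by omega), by omega⟩
  have hx : ∀ k, ((nx G S)^[k + 1] p).1 = ((nx G S)^[k] p).2 := by
    intro k
    rw [Function.iterate_succ_apply']
    rfl
  refine ⟨fun k => ((nx G S)^[k] p).1, fun k => ((mem_dt G).1 (it_mem G h2 hp k)).1,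
    fun k => ?_, fun k => ?_, fun k hk => ?_⟩
  · simp only
    rw [hx]
    exact ((mem_dt G).1 (it_mem G h2 hp k)).2.2
  · simp only
    rw [show k + 2 = (k + 1) + 1 by ring, hx (k + 1), Function.iterate_succ_apply']
    have hm := (mem_dt G).1 (it_mem G h2 hp k)
    have := oth_mem G (w := ((nx G S)^[k] p).1) (h2 _ hm.2.1)
    exact (mem_erase.1 this).1
  · simp only
    rw [hx]
    exact hgood k (by omega)

theorem main [Fintype V] {l : ℕ} (hl : 1 ≤ l)
    (hsp : ∀ U : Finset V, 5 * l * (dt G U).card ≤ (10 * l + 1) * U.card)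
    (hodd : ∀ (v : V) (p : G.Walk v v), p.length < 2 * l + 1 → Even p.length) :
    ∀ (n : ℕ) (S : Finset V), S.card = n → ∃ h : V → ZMod (2 * l + 1), Hm G l S h := by
  intro n
  induction n using Nat.strong_induction_on with
  | _ n ih =>
    intro S hSn
    rcases S.eq_empty_or_nonempty with rfl | hne
    · exact ⟨fun _ => 0, fun u hu => by simp at hu⟩
    by_cases h1 : ∃ v ∈ S, (nb G S v).card ≤ 1
    · obtain ⟨v, hv, hd⟩ := h1
      obtain ⟨h, hh⟩ := ih (S.erase v).card (by rw [← hSn]; exact card_erase_lt_of_mem hv) _ rfl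
      exact leaf G hd hh
    push Not at h1
    have h2 : ∀ u ∈ S, 2 ≤ (nb G S u).card := fun u hu => h1 u hu
    obtain ⟨x, hxS, hxa, hxn, hx2⟩ := seq G hl hne h2 (hsp S)
    -- the shortest closed piece
    have hex : ∃ d, 1 ≤ d ∧ ∃ i, i + d ≤ 2 * l ∧ (d = 2 * l ∨ x i = x (i + d)) :=
      ⟨2 * l, by omega, 0, by omega, Or.inl rfl⟩
    classical
    obtain ⟨hd1, i, hi, hdi⟩ := Nat.find_spec hex
    have hmin := fun e (he : e < Nat.find hex) => Nat.find_min hex he
    set d := Nat.find hex with hd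
    have hd2 : 2 ≤ d := by
      by_contra hcon
      have hd0 : d = 1 := by omega
      rw [hd0] at hdi
      rcases hdi with h3 | h3
      · omega
      · exact (hxa i).ne h3
    have hinj : ∀ a b, a < b → b ≤ d → b < a + d → x (i + a) ≠ x (i + b) := by
      intro a b hab hb1 hb2 heq
      refine hmin (b - a) (by omega) ⟨by omega, i + a, by omega, Or.inr ?_⟩
      rw [show i + a + (b - a) = i + b by omega]
      exact heq
    have hlt : (S \ (Ioo 0 d).image fun k => x (i + k)).card < n := by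
      rw [← hSn]
      refine card_lt_card ⟨sdiff_subset, fun hsub => ?_⟩
      have h3 := hsub (hxS (i + 1))
      rw [mem_sdiff] at h3
      exact h3.2 (mem_image.2 ⟨1, mem_Ioo.2 ⟨by omega, by omega⟩, rfl⟩)
    obtain ⟨h, hh⟩ := ih _ hlt _ rfl
    obtain ⟨c, c0, cd, hc⟩ : ∃ c : ℕ → ZMod (2 * l + 1), c 0 = h (x (i + 0)) ∧
        c d = h (x (i + d)) ∧ ∀ k, c (k + 1) = c k + 1 ∨ c k = c (k + 1) + 1 := by
      rcases hdi with h3 | h3
      · obtain ⟨c, h4, h5, h6⟩ := cyc l (h (x (i + 0))) (h (x (i + d)))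
        exact ⟨c, h4, by rw [← h5, h3], h6⟩
      · obtain ⟨p, hp⟩ := wk G x hxa i d
        have he : Even d := by
          have := hodd (x i) (p.copy rfl h3.symm) (by rw [SimpleGraph.Walk.length_copy, hp]; omega)
          rwa [SimpleGraph.Walk.length_copy, hp] at this
        obtain ⟨c, h4, h5, h6⟩ := cycEven l (h (x (i + 0)))
        exact ⟨c, h4, by rw [h5 d he, ← h3]; rfl, h6⟩
    exact ext G (fun k => x (i + k)) d (fun k => hxa (i + k)) (fun k => hxS (i + k))
      (fun k hk => hx2 (i + k) (by omega)) (fun k => hxn (i + k)) hinj hh c c0 cd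
      (fun k _ => hc k)

end Z1

theorem stHomC_9 : StHomC := by
  intro V _ G l hl hsp hodd
  have hsp' : ∀ U : Finset V, 5 * l * (Z1.dt G U).card ≤ (10 * l + 1) * U.card := by
    intro U
    have := hsp U
    convert this using 3
    unfold Z1.dt
    congr 1
  obtain ⟨h, hh⟩ := Z1.main G hl hsp' hodd _ Finset.univ rfl
  exact ⟨h, fun u v huv => hh u (Finset.mem_univ u) v (Finset.mem_univ v) huv⟩

end Pool.Agent.Lib.MP_cff830_lc.ZR
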