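import Pool.Agent.Lib.MP_cff830_lc.ZR.StmtsZ59

/-!
# The constant vector (row Z2 of ZR, helper9)
-/

set_option autoImplicit false

namespace Pool.Agent.Lib.MP_cff830_lc.ZR

namespace Z2

open Finset

theorem sum_even (l : ℕ) :
    ∑ i ∈ range (2 * l + 1), (if Even i then (1 : ℝ) else 0) = (l : ℝ) + 1 := by
  induction l with
  | zero => rw [show 2 * 0 + 1 = 0 + 1 by ring, sum_range_succ, range_zero, sum_empty]; norm_num
  | succ l ih =>
    rw [show 2 * (l + 1) + 1 = (2 * l + 1) + 1 + 1 by ring, sum_range_succ, sum_range_succ, ih]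
    have h1 : ¬ Even (2 * l + 1) := by
      rw [Nat.not_even_iff_odd]
      exact ⟨l, rfl⟩
    have h2 : Even (2 * l + 1 + 1) := ⟨l + 1, by ring⟩
    rw [if_neg h1, if_pos h2]
    push_cast
    ring

theorem sum_zmod (l : ℕ) (f : ℕ → ℝ) :
    ∑ a : ZMod (2 * l + 1), f a.val = ∑ i ∈ range (2 * l + 1), f i :=
  Fin.sum_univ_eq_sum_range f (2 * l + 1)

theorem val_succ (l : ℕ) (a : ZMod (2 * l + 1)) (ha : ¬ Even a.val) : Even (a + 1).val := by
  have : NeZero (2 * l + 1) := ⟨by omega⟩
  have h1 : a.val < 2 * l + 1 := ZMod.val_lt a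
  rw [Nat.not_even_iff_odd] at ha
  obtain ⟨k, hk⟩ := ha
  have h2 : (1 : ZMod (2 * l + 1)).val = 1 := by
    have : Fact (1 < 2 * l + 1) := ⟨by omega⟩
    exact ZMod.val_one _
  have h3 : (a + 1).val = a.val + 1 := by
    rw [ZMod.val_add_of_lt, h2]
    rw [h2]
    omega
  rw [h3, hk]
  exact ⟨k + 1, by ring⟩

end Z2

open MR in
theorem stCon_9 : StCon := by
  intro V G l p h hG hp hp1
  have : NeZero (2 * l + 1) := ⟨by omega⟩
  set y : ZMod (2 * l + 1) → V → ℝ := fun c v => if Even (h v + c).val then 1 else 0 with hy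
  have hyc : ∀ c, y c ∈ coverVectors G := by
    intro c
    have key : ∀ u v, h u = h v + 1 → y c u = 1 ∨ y c v = 1 := by
      intro u v huv
      by_cases he : Even (h v + c).val
      · exact Or.inr (by simp only [hy]; rw [if_pos he])
      · left
        have h1 := Z2.val_succ l (h v + c) he
        simp only [hy]
        rw [huv, show h v + 1 + c = h v + c + 1 by ring, if_pos h1]
    refine ⟨fun v => ?_, fun u v huv => ?_⟩
    · simp only [hy]
      split_ifs
      · exact Or.inr rfl
      · exact Or.inl rfl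
    · rcases hG u v huv with h1 | h1
      · exact key u v h1
      · exact (key v u h1).symm
  have hq : (fun _ : V => ((l : ℝ) + 1) / (2 * l + 1)) ∈ convexHull ℝ (coverVectors G) := by
    have h1 : ∑ c : ZMod (2 * l + 1), ((2 * l + 1 : ℝ))⁻¹ • y c ∈
        convexHull ℝ (coverVectors G) := by
      refine (convex_convexHull ℝ _).sum_mem (fun c _ => by positivity) ?_
        (fun c _ => subset_convexHull ℝ _ (hyc c))
      rw [Finset.sum_const, Finset.card_univ, ZMod.card, nsmul_eq_mul]
      push_cast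
      exact mul_inv_cancel₀ (by positivity)
    convert h1 using 1
    funext v
    rw [Finset.sum_apply]
    simp only [Pi.smul_apply, smul_eq_mul]
    rw [← Finset.mul_sum]
    have h2 : ∑ c : ZMod (2 * l + 1), y c v = (l : ℝ) + 1 := by
      rw [← Z2.sum_even l, ← Z2.sum_zmod l (fun i => if Even i then (1 : ℝ) else 0)]
      simp only [hy]
      exact Equiv.sum_comp (Equiv.addLeft (h v))
        (fun a : ZMod (2 * l + 1) => if Even a.val then (1 : ℝ) else 0)
    rw [h2, div_eq_inv_mul]
  have h1 : (fun _ : V => (1 : ℝ)) ∈ convexHull ℝ (coverVectors G) :=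
    subset_convexHull ℝ _ ⟨fun _ => Or.inr rfl, fun _ _ _ => Or.inl rfl⟩
  have hconv : Convex ℝ {t : ℝ | (fun _ : V => t) ∈ convexHull ℝ (coverVectors G)} := by
    intro a ha b hb s t hs ht hst
    exact (convex_convexHull ℝ (coverVectors G)) ha hb hs ht hst
  exact hconv.ordConnected.out hq h1 ⟨hp, hp1⟩

end Pool.Agent.Lib.MP_cff830_lc.ZR
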