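import Pool.Agent.Lib.MP_cff830_lc.ZR.StmtsZ59
import Pool.Agent.Lib.MP_cff830_lc.MR.Pos

/-!
# The random graph has few edges on all small sets of vertices (Z3)
-/

set_option autoImplicit false

namespace Pool.Agent.Lib.MP_cff830_lc.ZR

open Finset MR

namespace Z3

theorem pow_le_fac (u : ℕ) : (u : ℝ) ^ u ≤ 3 ^ u * (u.factorial : ℝ) := by
  have h := Real.pow_div_factorial_le_exp (u : ℝ) (Nat.cast_nonneg u) u
  have hf : (0 : ℝ) < (u.factorial : ℝ) := by exact_mod_cast Nat.factorial_pos u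
  rw [div_le_iff₀ hf] at h
  refine h.trans (mul_le_mul_of_nonneg_right ?_ hf.le)
  rw [← mul_one (u : ℝ), Real.exp_nat_mul]
  exact pow_le_pow_left₀ (Real.exp_pos _).le (Real.exp_one_lt_d9.le.trans (by norm_num)) u

theorem choose_le3 (N k : ℕ) (hk : 1 ≤ k) : (N.choose k : ℝ) ≤ (3 * (N : ℝ) / k) ^ k := by
  have h := Nat.choose_le_pow_div (α := ℝ) k N
  refine h.trans ?_
  have hf : (0 : ℝ) < (k.factorial : ℝ) := by exact_mod_cast Nat.factorial_pos k
  have hk0 : (0 : ℝ) < (k : ℝ) := by exact_mod_cast hk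
  rw [div_pow, mul_pow, div_le_div_iff₀ hf (by positivity)]
  have h2 := mul_le_mul_of_nonneg_left (pow_le_fac k)
    (pow_nonneg (Nat.cast_nonneg N : (0 : ℝ) ≤ N) k)
  linarith

theorem num72 (A l : ℕ) (hl : 1 ≤ l) (hA : 1 ≤ A) :
    3 * A * (72 * A) ^ (10 * l) ≤ 2 * (8 * A) ^ (21 * l) := by
  obtain ⟨j, rfl⟩ : ∃ j, l = j + 1 := ⟨l - 1, by omega⟩
  have h1 : 3 * A * (72 * A) ^ 10 ≤ 2 * (8 * A) ^ 21 := by
    have e1 : 3 * A * (72 * A) ^ 10 = (3 * 72 ^ 10) * A ^ 11 := by ring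
    have e2 : 2 * (8 * A) ^ 21 = (2 * 8 ^ 21) * A ^ 21 := by ring
    rw [e1, e2]
    exact Nat.mul_le_mul (by norm_num) (Nat.pow_le_pow_right hA (by norm_num))
  have h2 : (72 * A) ^ 10 ≤ (8 * A) ^ 21 := by
    have e1 : (72 * A) ^ 10 = (72 ^ 10) * A ^ 10 := by ring
    have e2 : (8 * A) ^ 21 = (8 ^ 21) * A ^ 21 := by ring
    rw [e1, e2]
    exact Nat.mul_le_mul (by norm_num) (Nat.pow_le_pow_right hA (by norm_num))
  have e3 : (72 * A) ^ (10 * (j + 1)) = (72 * A) ^ 10 * ((72 * A) ^ 10) ^ j := by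
    rw [pow_mul, pow_succ, mul_comm]
  have e4 : (8 * A) ^ (21 * (j + 1)) = (8 * A) ^ 21 * ((8 * A) ^ 21) ^ j := by
    rw [pow_mul, pow_succ, mul_comm]
  rw [e3, e4, ← mul_assoc, ← mul_assoc]
  exact Nat.mul_le_mul h1 (Nat.pow_le_pow_left h2 j)

theorem choose_two_le (u : ℕ) : 2 * (u.choose 2 : ℝ) ≤ (u : ℝ) * u := by
  rw [Nat.cast_choose_two]
  have : (0 : ℝ) ≤ u := Nat.cast_nonneg u
  nlinarith

theorem term_le (n r A l u m : ℕ) (hl : 1 ≤ l) (hA : 1 ≤ A) (hu : 1 ≤ u) (hn : n ≤ A * (r + 1))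
    (hlev : (8 * A) ^ (21 * l) * u ≤ n) (hm : (10 * l + 1) * u < 10 * l * m) :
    (n.choose u : ℝ) * ((u.choose 2).choose m : ℝ) * (1 / ((r : ℝ) + 1)) ^ m ≤ (1 / 16) ^ u := by
  have hum : u < m := by
    by_contra hcon
    push Not at hcon
    have : 10 * l * m ≤ 10 * l * u := Nat.mul_le_mul_left _ hcon
    nlinarith
  obtain ⟨m', rfl⟩ : ∃ m', m = u + m' := ⟨m - u, by omega⟩
  have hm' : u ≤ 10 * l * m' := by nlinarith
  have hn0 : 0 < n := lt_of_lt_of_le (by positivity) hlev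
  have hnR : (0 : ℝ) < n := by exact_mod_cast hn0
  have huR : (0 : ℝ) < u := by exact_mod_cast hu
  have hAR : (1 : ℝ) ≤ A := by exact_mod_cast hA
  have h1 : (n.choose u : ℝ) ≤ (3 * (n : ℝ) / u) ^ u := choose_le3 n u hu
  have h2 : ((u.choose 2).choose (u + m') : ℝ) ≤ (3 * (u : ℝ) / 2) ^ (u + m') := by
    refine (choose_le3 _ _ (by omega)).trans (pow_le_pow_left₀ (by positivity) ?_ _)
    rw [div_le_div_iff₀ (by positivity) (by norm_num)]
    have a1 := choose_two_le u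
    push_cast
    have a2 : (0 : ℝ) ≤ (u : ℝ) * m' := by positivity
    nlinarith
  have h3 : (1 / ((r : ℝ) + 1)) ^ (u + m') ≤ ((A : ℝ) / n) ^ (u + m') := by
    refine pow_le_pow_left₀ (by positivity) ?_ _
    rw [div_le_div_iff₀ (by positivity) hnR]
    have : (n : ℝ) ≤ A * (r + 1) := by exact_mod_cast hn
    linarith
  have h4 : 3 * (u : ℝ) / 2 * (A / n) ≤ (1 / (72 * (A : ℝ))) ^ (10 * l) := by
    have a1 : (3 : ℝ) * A * (72 * A) ^ (10 * l) ≤ 2 * (8 * A) ^ (21 * l) := by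
      exact_mod_cast num72 A l hl hA
    have a2 : ((8 : ℝ) * A) ^ (21 * l) * u ≤ n := by exact_mod_cast hlev
    rw [div_pow, one_pow, div_mul_div_comm, div_le_div_iff₀ (by positivity) (by positivity)]
    have a3 := mul_le_mul_of_nonneg_right a1 huR.le
    nlinarith
  have h5 : (3 * (u : ℝ) / 2 * (A / n)) ^ m' ≤ (1 / (72 * (A : ℝ))) ^ u := by
    refine (pow_le_pow_left₀ (by positivity) h4 m').trans ?_
    rw [← pow_mul]
    refine pow_le_pow_of_le_one (by positivity) ?_ hm'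
    rw [div_le_one (by positivity)]
    linarith
  calc (n.choose u : ℝ) * ((u.choose 2).choose (u + m') : ℝ) * (1 / ((r : ℝ) + 1)) ^ (u + m')
      ≤ (3 * (n : ℝ) / u) ^ u * (3 * (u : ℝ) / 2) ^ (u + m') * ((A : ℝ) / n) ^ (u + m') := by
        gcongr
    _ = (9 * (A : ℝ) / 2) ^ u * (3 * (u : ℝ) / 2 * (A / n)) ^ m' := by
        rw [mul_assoc, ← mul_pow, pow_add, ← mul_assoc, ← mul_pow]
        congr 2
        field_simp
        ring
    _ ≤ (9 * (A : ℝ) / 2) ^ u * (1 / (72 * (A : ℝ))) ^ u := by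
        gcongr
    _ = (1 / 16) ^ u := by
        rw [← mul_pow]
        congr 1
        field_simp
        ring

theorem geo (lev : ℕ) : ∑ u ∈ Icc 1 lev, ((1 : ℝ) / 16) ^ u ≤ 1 / 15 := by
  have h : ∀ k : ℕ, ∑ u ∈ Icc 1 k, ((1 : ℝ) / 16) ^ u = 1 / 15 * (1 - (1 / 16) ^ k) := by
    intro k
    induction k with
    | zero => simp
    | succ k ih =>
      rw [Finset.sum_Icc_succ_top (by omega), ih, pow_succ]
      ring
  rw [h]
  have : (0 : ℝ) ≤ (1 / 16) ^ lev := by positivity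
  linarith

end Z3

open Z3 in
/-- (Z3). -/
theorem stCntZ_94 : StCntZ := by
  classical
  intro n r A l lev hl hA hn hlev
  set mm : ℕ → ℕ := fun u => (10 * l + 1) * u / (10 * l) + 1 with hmm
  have hmm1 : ∀ u, (10 * l + 1) * u < 10 * l * mm u := by
    intro u
    have h := Nat.lt_mul_div_succ ((10 * l + 1) * u) (show 0 < 10 * l by omega)
    exact h
  have key : prP (fun ω : Sym2 (Fin n) → Fin (r + 1) => Bad2 l lev ω) ≤
      prP (fun ω : Sym2 (Fin n) → Fin (r + 1) => ∃ u ∈ Icc 1 lev,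
        ∃ U ∈ powersetCard u (univ : Finset (Fin n)),
          ∃ F ∈ powersetCard (mm u) (U.offDiag.image Sym2.mk.uncurry), ∀ e ∈ F, ω e = 0) := by
    refine prP_mono fun ω hω => ?_
    obtain ⟨U, F, h1, h2, h3⟩ := hω
    have hU : 1 ≤ U.card := by
      by_contra hcon
      have hU0 : U = ∅ := by
        rw [← Finset.card_eq_zero]
        omega
      have hF0 : F = ∅ := by
        rw [Finset.eq_empty_iff_forall_notMem]
        intro e he
        have h4 := (h2 e he).2.2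
        induction e using Sym2.ind with
        | _ a b =>
          have h5 := h4 a (Sym2.mem_mk_left a b)
          rw [hU0] at h5
          exact absurd h5 (Finset.notMem_empty _)
      rw [hU0, hF0] at h3
      simp at h3
    have hFc : mm U.card ≤ F.card := by
      have h4 : (10 * l + 1) * U.card / (10 * l) < F.card := by
        rw [Nat.div_lt_iff_lt_mul (by omega)]
        rw [mul_comm F.card]
        exact h3
      exact h4
    obtain ⟨F', hF', hF'c⟩ := exists_subset_card_eq hFc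
    refine ⟨U.card, mem_Icc.2 ⟨hU, h1⟩, U, mem_powersetCard.2 ⟨subset_univ _, rfl⟩, F',
      mem_powersetCard.2 ⟨fun e he => ?_, hF'c⟩, fun e he => (h2 e (hF' he)).2.1⟩
    have h4 := h2 e (hF' he)
    induction e using Sym2.ind with
    | _ a b =>
      refine mem_image.2 ⟨(a, b), ?_, rfl⟩
      rw [mem_offDiag]
      refine ⟨h4.2.2 a (Sym2.mem_mk_left a b), h4.2.2 b (Sym2.mem_mk_right a b), fun hab => ?_⟩
      exact h4.1 (Sym2.mk_isDiag_iff.2 hab)
  refine key.trans ?_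
  refine (prP_exists _ _).trans ?_
  refine le_trans (Finset.sum_le_sum fun u hu => ?_) ((geo lev).trans (by norm_num))
  rw [mem_Icc] at hu
  refine (prP_exists _ _).trans ?_
  have h1 : ∀ U ∈ powersetCard u (univ : Finset (Fin n)),
      prP (fun ω : Sym2 (Fin n) → Fin (r + 1) =>
        ∃ F ∈ powersetCard (mm u) (U.offDiag.image Sym2.mk.uncurry), ∀ e ∈ F, ω e = 0) ≤
      ((u.choose 2).choose (mm u) : ℝ) * (1 / ((r : ℝ) + 1)) ^ (mm u) := by
    intro U hU
    refine (prP_exists _ _).trans ?_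
    have h2 : ∀ F ∈ powersetCard (mm u) (U.offDiag.image Sym2.mk.uncurry),
        prP (fun ω : Sym2 (Fin n) → Fin (r + 1) => ∀ e ∈ F, ω e = 0) =
          (1 / ((r : ℝ) + 1)) ^ (mm u) := by
      intro F hF
      rw [PosAux.prP_col, (mem_powersetCard.1 hF).2]
    rw [Finset.sum_congr rfl h2, sum_const, nsmul_eq_mul, card_powersetCard,
      Sym2.card_image_offDiag, (mem_powersetCard.1 hU).2]
  refine (Finset.sum_le_sum h1).trans ?_
  rw [sum_const, nsmul_eq_mul, card_powersetCard, card_univ, Fintype.card_fin, ← mul_assoc]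
  exact term_le n r A l u (mm u) hl hA hu.1 hn
    (le_trans (Nat.mul_le_mul_left _ hu.2) hlev) (hmm1 u)

end Pool.Agent.Lib.MP_cff830_lc.ZR
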