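import Pool.Agent.Lib.MP_cff830_lc.ZR.StmtsZ59
import Pool.Agent.Lib.MP_cff830_lc.MR.Rel

/-!
# An upper bound for the value of the linear programme of level `l` (module Z4)
-/

set_option autoImplicit false
set_option linter.unusedSectionVars false

namespace Pool.Agent.Lib.MP_cff830_lc.ZR

open Finset MR

namespace Z4

open Classical in
/-- The vector `y`, changed to `1` on `C'` and to `0` on the rest of `S`. -/
noncomputable def chg {V : Type} (C' S : Finset V) (y : V → ℝ) (v : V) : ℝ :=
  if v ∈ C' then 1 else if v ∈ S then 0 else y v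

open Classical in
/-- Changing a locally feasible vector. -/
theorem feasible_chg {V : Type} {G : SimpleGraph V} {l : ℕ} {x : V → ℝ} {C' S : Finset V}
    (hx : LocallyFeasible G l x)
    (h : ∀ u v, G.Adj u v → u ∉ C' → v ∉ C' → u ∉ S ∧ v ∉ S) :
    LocallyFeasible G l (chg C' S x) := by
  refine ⟨fun v => ?_, fun T hT => ?_⟩
  · unfold chg
    have := hx.1 v
    split_ifs
    · exact zero_le_one
    · exact le_rfl
    · exact this
  · set K := convexHull ℝ (coverVectors (G.induce T)) with hK
    set φ : (T → ℝ) → (T → ℝ) := fun y v =>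
      if (v : V) ∈ C' then 1 else if (v : V) ∈ S then 0 else y v with hφ
    have key : ∀ y ∈ coverVectors (G.induce T), φ y ∈ coverVectors (G.induce T) := by
      intro y hy
      refine ⟨fun v => ?_, fun u v huv => ?_⟩
      · rw [hφ]
        dsimp only
        split_ifs
        · exact Or.inr rfl
        · exact Or.inl rfl
        · exact hy.1 v
      · have huv' : G.Adj (u : V) (v : V) := huv
        rw [hφ]
        dsimp only
        by_cases hu : (u : V) ∈ C'
        · left
          rw [if_pos hu]
        · by_cases hv : (v : V) ∈ C'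
          · right
            rw [if_pos hv]
          · have h1 := h u v huv' hu hv
            rw [if_neg hu, if_neg hv, if_neg h1.1, if_neg h1.2]
            exact hy.2 u v huv
    have hsub : K ⊆ {y | φ y ∈ K} := by
      refine convexHull_min (fun y hy => subset_convexHull ℝ _ (key y hy)) ?_
      intro y₁ h₁ y₂ h₂ a b ha hb hab
      have e : φ (a • y₁ + b • y₂) = a • φ y₁ + b • φ y₂ := by
        ext v
        simp only [hφ, Pi.add_apply, Pi.smul_apply, smul_eq_mul]
        split_ifs
        · rw [mul_one, mul_one, hab]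
        · rw [mul_zero, mul_zero, add_zero]
        · rfl
      show φ (a • y₁ + b • y₂) ∈ K
      rw [e]
      exact (convex_convexHull ℝ _) h₁ h₂ ha hb hab
    exact hsub (hx.2 T hT)

end Z4

/-- (Z4) An upper bound for the value of the linear programme. -/
theorem stUpL_61 : StUpL := by
  intro n l G p hp hx w hw S C₀ hC₀ hcov
  set N := nbr G S with hN
  set C' := C₀ ∪ N with hC'
  have hmem : ∀ v, v ∈ N ↔ v ∉ S ∧ ∃ u ∈ S, G.Adj u v := by
    intro v
    simp [hN, nbr]
  have hfe : LocallyFeasible G l (Z4.chg C' S fun _ => p) := by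
    refine Z4.feasible_chg hx fun u v huv hu hv => ?_
    have hu' : u ∉ C₀ ∧ u ∉ N := by
      rw [hC', Finset.mem_union, not_or] at hu
      exact hu
    have hv' : v ∉ C₀ ∧ v ∉ N := by
      rw [hC', Finset.mem_union, not_or] at hv
      exact hv
    by_cases h1 : u ∈ S
    · by_cases h2 : v ∈ S
      · rcases hcov u h1 v h2 huv with h3 | h3
        · exact absurd h3 hu'.1
        · exact absurd h3 hv'.1
      · exact absurd ((hmem v).2 ⟨h2, u, h1, huv⟩) hv'.2
    · by_cases h2 : v ∈ S
      · exact absurd ((hmem u).2 ⟨h1, v, h2, huv.symm⟩) hu'.2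
      · exact ⟨h1, h2⟩
  have h1 : localLP G l w ≤ ∑ v, w v * Z4.chg C' S (fun _ => p) v :=
    csInf_le (RelAux.bdd_of w (fun x hx => hx.1) hw) ⟨_, hfe, rfl⟩
  refine h1.trans ?_
  have h2 : ∀ v, w v * Z4.chg C' S (fun _ => p) v ≤
      (if v ∈ C₀ then w v else 0) + (if v ∈ N then w v else 0) +
        (if v ∈ Sᶜ then p * w v else 0) := by
    intro v
    have hwv := hw v
    have hpw : 0 ≤ p * w v := mul_nonneg hp hwv
    have h5 : (0 : ℝ) ≤ if v ∈ C₀ then w v else 0 := by split_ifs <;> simp [hwv]
    have h6 : (0 : ℝ) ≤ if v ∈ N then w v else 0 := by split_ifs <;> simp [hwv]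
    have h7 : (0 : ℝ) ≤ if v ∈ Sᶜ then p * w v else 0 := by split_ifs <;> simp [hpw]
    unfold Z4.chg
    by_cases hv : v ∈ C'
    · rw [if_pos hv, mul_one]
      rcases Finset.mem_union.1 hv with h8 | h8
      · rw [if_pos h8]
        linarith
      · rw [if_pos h8]
        linarith
    · rw [if_neg hv]
      by_cases hvS : v ∈ S
      · rw [if_pos hvS, mul_zero]
        linarith
      · rw [if_neg hvS, if_pos (Finset.mem_compl.2 hvS), mul_comm]
        linarith
  refine (Finset.sum_le_sum fun v _ => h2 v).trans (le_of_eq ?_)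
  rw [Finset.sum_add_distrib, Finset.sum_add_distrib]
  simp only [← Finset.sum_filter, wt, Finset.mul_sum]
  have f : ∀ A : Finset (Fin n), Finset.univ.filter (fun v => v ∈ A) = A := by
    intro A
    ext v
    simp
  rw [f, f, f]

end Pool.Agent.Lib.MP_cff830_lc.ZR
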