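import Pool.Agent.Lib.MP_cff830_lc.ZR.StmtsZ59
import Pool.Agent.Lib.MP_cff830_lc.MR.PosX
import Pool.Agent.Lib.MP_cff830_lc.MR.TopM

/-!
# The positive tests, with local feasibility of a constant (row Z5 of ZR, helper9)

As `MR/PosX.lean`, with a third bad event.
-/

set_option autoImplicit false

namespace Pool.Agent.Lib.MP_cff830_lc.ZR

open Finset MR

namespace Z5

open PosAux PosXAux

/-- The positive tests. -/
def HZ {n r : ℕ} {V₀ : Type} (F₀ : SimpleGraph V₀) (b : Fin n → V₀) (t l lev : ℕ)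
    (ω : Sym2 (Fin n) → Fin (r + 1)) : SimpleGraph (Fin n) where
  Adj u v := (HX F₀ b t ω).Adj u v ∧ ¬ Bad2 l lev ω
  symm := ⟨fun _ _ h => ⟨h.1.symm, h.2⟩⟩
  loopless := ⟨fun _ h => (HX F₀ b t ω).loopless.irrefl _ h.1⟩

theorem HZ_adj {n r : ℕ} {V₀ : Type} {F₀ : SimpleGraph V₀} {b : Fin n → V₀} {t l lev : ℕ}
    {ω : Sym2 (Fin n) → Fin (r + 1)} {u v : Fin n} : (HZ F₀ b t l lev ω).Adj u v ↔
      (HX F₀ b t ω).Adj u v ∧ ¬ Bad2 l lev ω := Iff.rfl

theorem in_HZ {n r : ℕ} {V₀ : Type} {F₀ : SimpleGraph V₀} {b : Fin n → V₀} {t l lev : ℕ}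
    {ω : Sym2 (Fin n) → Fin (r + 1)} {E : Finset (Sym2 (Fin n))}
    (h : In E (HZ F₀ b t l lev ω)) : In E (HX F₀ b t ω) := by
  intro e he
  have h1 := h e he
  induction e using Sym2.ind with
  | _ x y =>
    rw [SimpleGraph.mem_edgeSet] at h1 ⊢
    exact (HZ_adj.1 h1).1

open Classical in
theorem sparse {n r : ℕ} {V₀ : Type} {F₀ : SimpleGraph V₀} {b : Fin n → V₀} {t l lev : ℕ}
    {ω : Sym2 (Fin n) → Fin (r + 1)} (U : Finset (Fin n)) (hU : U.card ≤ lev) :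
    5 * l * (univ.filter fun p : Fin n × Fin n => p.1 ∈ U ∧ p.2 ∈ U ∧
      (HZ F₀ b t l lev ω).Adj p.1 p.2).card ≤ (10 * l + 1) * U.card := by
  by_cases hb : Bad2 l lev ω
  · have h1 : (univ.filter fun p : Fin n × Fin n => p.1 ∈ U ∧ p.2 ∈ U ∧
        (HZ F₀ b t l lev ω).Adj p.1 p.2) = ∅ := by
      refine filter_eq_empty_iff.2 fun p _ h => ?_
      exact (HZ_adj.1 h.2.2).2 hb
    rw [h1, card_empty, mul_zero]
    exact Nat.zero_le _
  set T := univ.filter fun p : Fin n × Fin n => p.1 ∈ U ∧ p.2 ∈ U ∧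
    (HZ F₀ b t l lev ω).Adj p.1 p.2 with hT
  set F : Finset (Sym2 (Fin n)) := T.image fun p => s(p.1, p.2) with hF
  have h1 : T.card ≤ 2 * F.card := by
    refine card_le_mul_card_image T 2 fun e _ => ?_
    induction e using Sym2.ind with
    | _ x y =>
      refine (card_le_card (t := {(x, y), (y, x)}) fun p hp => ?_).trans card_le_two
      rw [mem_filter, Sym2.eq_iff] at hp
      rw [mem_insert, mem_singleton]
      rcases hp.2 with h | h
      · exact Or.inl (Prod.ext h.1 h.2)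
      · exact Or.inr (Prod.ext h.1 h.2)
  have h2 : ∀ e ∈ F, ¬ e.IsDiag ∧ ω e = 0 ∧ ∀ v ∈ e, v ∈ U := by
    intro e he
    obtain ⟨p, hp, rfl⟩ := mem_image.1 he
    rw [hT, mem_filter] at hp
    obtain ⟨-, hp1, hp2, hp3⟩ := hp
    have h3 := (HX_adj.1 (HZ_adj.1 hp3).1).1
    rw [GSI.Gr, SimpleGraph.fromEdgeSet_adj] at h3
    refine ⟨?_, h3.1, fun v hv => ?_⟩
    · rw [Sym2.mk_isDiag_iff]
      exact h3.2
    · rw [Sym2.mem_iff] at hv
      rcases hv with rfl | rfl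
      · exact hp1
      · exact hp2
  have h3 : 10 * l * F.card ≤ (10 * l + 1) * U.card := by
    by_contra hcon
    push Not at hcon
    exact hb ⟨U, F, hU, h2, hcon⟩
  calc 5 * l * T.card ≤ 5 * l * (2 * F.card) := Nat.mul_le_mul_left _ h1
    _ = 10 * l * F.card := by ring
    _ ≤ _ := h3

open Classical in
theorem sparse2 {n r : ℕ} {V₀ : Type} {F₀ : SimpleGraph V₀} {b : Fin n → V₀} {t l lev : ℕ}
    {ω : Sym2 (Fin n) → Fin (r + 1)} {W : Type} [Fintype W] (f : W ↪ Fin n) (U : Finset W)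
    (hU : U.card ≤ lev) :
    5 * l * (univ.filter fun p : W × W => p.1 ∈ U ∧ p.2 ∈ U ∧
      (HZ F₀ b t l lev ω).Adj (f p.1) (f p.2)).card ≤ (10 * l + 1) * U.card := by
  have h3 := sparse (F₀ := F₀) (b := b) (t := t) (l := l) (lev := lev) (ω := ω) (U.map f) (by
    rw [card_map]
    exact hU)
  rw [card_map] at h3
  refine le_trans (Nat.mul_le_mul_left _ ?_) h3
  refine card_le_card_of_injOn (fun p : W × W => (f p.1, f p.2)) ?_ ?_
  · intro p hp
    rw [mem_coe, mem_filter] at hp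
    rw [mem_coe, mem_filter]
    exact ⟨mem_univ _, mem_map_of_mem _ hp.2.1, mem_map_of_mem _ hp.2.2.1, hp.2.2.2⟩
  · intro p _ p' _ hpp
    exact Prod.ext (f.injective (congrArg Prod.fst hpp)) (f.injective (congrArg Prod.snd hpp))

theorem len_map {V W : Type} {G : SimpleGraph V} {G' : SimpleGraph W} (f : G →g G') {v : V}
    (p : G.Walk v v) : ∃ q : G'.Walk (f v) (f v), q.length = p.length :=
  ⟨p.map f, p.length_map f⟩

theorem feas (h1C : StHomC) (h2C : StCon) {n r : ℕ} {V₀ : Type} {F₀ : SimpleGraph V₀}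
    {b : Fin n → V₀} {t l lev : ℕ} {ω : Sym2 (Fin n) → Fin (r + 1)} {q : ℝ} (hl : 1 ≤ l)
    (hq : ((l : ℝ) + 1) / (2 * l + 1) ≤ q) (hq1 : q ≤ 1)
    (hodd : ∀ (v : Fin n) (p : (HZ F₀ b t l lev ω).Walk v v), p.length < 2 * l + 1 →
      Even p.length) : LocallyFeasible (HZ F₀ b t l lev ω) lev fun _ => q := by
  refine ⟨fun _ => le_trans (by positivity) hq, fun S hS => ?_⟩
  have hf : Fintype S := Fintype.ofFinite S
  obtain ⟨h, hh⟩ := h1C S ((HZ F₀ b t l lev ω).induce S) l hl (fun U => by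
      have h3 := sparse2 (F₀ := F₀) (b := b) (t := t) (l := l) (lev := lev) (ω := ω)
        (Function.Embedding.subtype (fun x => x ∈ S)) U (by
          refine le_trans ?_ hS
          refine (card_le_univ U).trans (le_of_eq ?_)
          rw [← Nat.card_eq_fintype_card]
          rfl)
      exact h3) (fun v p hp => by
      obtain ⟨q, hq⟩ := len_map (SimpleGraph.Embedding.induce S).toHom p
      rw [← hq]
      exact hodd _ q (by rw [hq]; exact hp))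
  exact h2C S ((HZ F₀ b t l lev ω).induce S) l q h hh hq hq1

/-- The positive tests, for given parameters. -/
theorem main (hCol : StCol) (h1C : StHomC) (h2C : StCon) (h3C : StCntZ) (h5C : StOdd) (e : ℝ)
    (he : 0 < e) (he1 : e ≤ 1) (k n t D K l lev : ℕ) (q : ℝ) (hl : 1 ≤ l) (hlk : 2 * l ≤ k)
    (hle : (l : ℝ) * e ≤ 1) (hq : ((l : ℝ) + 1) / (2 * l + 1) ≤ q) (hq1 : q ≤ 1)
    (hlev : (8 * K) ^ (21 * l) * lev ≤ n) (hk : 2 * D ≤ K)
    (ht : 1 ≤ t) (hn : (K * t) ^ 24 ≤ n) {V₀ : Type} [Fintype V₀] [DecidableEq V₀]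
    (F₀ : SimpleGraph V₀) (hN : 0 < Fintype.card V₀)
    (hD : 1100 * (Fintype.card V₀ : ℝ) ^ 2 ≤ e ^ 2 * D)
    (hF : ∀ U : Finset V₀, (∀ x y, F₀.Adj x y → x ∈ U ∨ y ∈ U) →
      (1 - e / 8) * (Fintype.card V₀ : ℝ) ≤ (U.card : ℝ))
    (μ : Finset V₀ → Finset V₀ → ℝ) (hμ : SDP.IsSol F₀ k μ)
    (hμ1 : ∀ x, μ {x} {x} ≤ 1 / 2 + e / 8) :
    ∃ (Ω : Type) (_ : Fintype Ω) (_ : Nonempty Ω) (H : Ω → SimpleGraph (Fin n)),
      (∀ E : Finset (Sym2 (Fin n)),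
        prP (fun ω => In E (H ω)) ≤ ((K : ℝ) / n) ^ E.card) ∧
      (∀ (ω : Ω) (E : Finset (Sym2 (Fin n))), In E (H ω) → E.card ≤ t → (gr E).Colorable 3) ∧
      (∀ ω : Ω, ∃ μ : Finset (Fin n) → Finset (Fin n) → ℝ, SDP.IsSol (H ω) k μ ∧
        ∀ x, μ {x} {x} ≤ 1 / 2 + e / 8) ∧
      (∀ ω : Ω, LocallyFeasible (H ω) lev fun _ => q) ∧
      1 / 2 ≤ prP fun ω => ∀ U : Finset (Fin n), IsVertexCover (H ω) U →
        (1 - e) * (n : ℝ) ≤ (U.card : ℝ) := by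
  classical
  set N : ℕ := Fintype.card V₀ with hNdef
  have hN1 : (1 : ℝ) ≤ N := by exact_mod_cast hN
  have he2 : e ^ 2 ≤ 1 := by nlinarith
  have hDr : 1100 * (N : ℝ) ^ 2 ≤ D := by nlinarith [Nat.cast_nonneg (α := ℝ) D]
  have hD1100 : (1100 : ℝ) ≤ D := by nlinarith
  have hD1 : 1100 ≤ D := by exact_mod_cast hD1100
  have hK1 : 1 ≤ K := by omega
  have hKn : K ≤ n := by
    refine le_trans ?_ hn
    exact (Nat.le_mul_of_pos_right K (by omega)).trans (Nat.le_self_pow (by omega) _)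
  have hDn : D ≤ n := by omega
  have hnr : (D : ℝ) ≤ n := by exact_mod_cast hDn
  have hn0 : (0 : ℝ) < n := by linarith
  have hND : (N : ℝ) ≤ D := by nlinarith
  have hNn : (N : ℝ) ≤ n := hND.trans hnr
  -- `r`
  obtain ⟨r, hr⟩ : ∃ r, r + 1 = n / D := by
    have : 1 ≤ n / D := (Nat.one_le_div_iff (by omega)).2 hDn
    exact ⟨n / D - 1, by omega⟩
  have hr1 : D * (r + 1) ≤ n := by
    rw [hr]
    exact Nat.mul_div_le n D
  have hr2 : n ≤ 2 * D * (r + 1) := by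
    have h1 : n < D * (n / D + 1) := by
      have h2 := Nat.div_add_mod n D
      have h3 := Nat.mod_lt n (show 0 < D by omega)
      rw [Nat.mul_add]
      omega
    rw [← hr] at h1
    have h2 : D * (r + 1 + 1) ≤ 2 * D * (r + 1) := by nlinarith
    omega
  obtain ⟨b, hb⟩ := exists_fib n (V₀ := V₀) hN
  -- `s`
  set x : ℝ := e * n / (8 * N) with hx
  have hN0 : (0 : ℝ) < N := by linarith
  have hxN : x * (8 * N) = e * n := by
    rw [hx]
    field_simp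
  have hen : 1100 * (N : ℝ) ≤ e * n := by
    have h1 : 1100 * (N : ℝ) ^ 2 ≤ e ^ 2 * n := hD.trans (by nlinarith)
    have h2 : e ^ 2 * n ≤ e * n := by nlinarith
    nlinarith
  have hx2 : 2 ≤ x := by
    rw [hx, le_div_iff₀ (by positivity)]
    nlinarith
  set s : ℕ := ⌊x⌋₊ with hs
  have hsx : (s : ℝ) ≤ x := Nat.floor_le (by linarith)
  have hsx2 : x / 2 ≤ s := by
    have h1 : x < s + 1 := Nat.lt_floor_add_one x
    linarith
  have hss : (2 * n + 2) * (r + 1) ≤ s * s := by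
    have h1 : (x / 2) * (x / 2) ≤ (s : ℝ) * s :=
      mul_le_mul hsx2 hsx2 (by linarith) (by linarith)
    have h2 : (D : ℝ) * ((r : ℝ) + 1) ≤ n := by exact_mod_cast hr1
    have h3 : 16 * (n : ℝ) * ((r : ℝ) + 1) ≤ x * x := by
      have h4 : x * x * (64 * (N : ℝ) ^ 2) = e ^ 2 * (n : ℝ) ^ 2 := by
        have : x * x * (64 * (N : ℝ) ^ 2) = (x * (8 * N)) ^ 2 := by ring
        rw [this, hxN]
        ring
      have h5 : 16 * (n : ℝ) * ((r : ℝ) + 1) * D * (64 * (N : ℝ) ^ 2) ≤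
          x * x * (64 * (N : ℝ) ^ 2) * D := by
        rw [h4]
        calc 16 * (n : ℝ) * ((r : ℝ) + 1) * D * (64 * (N : ℝ) ^ 2)
            = 1024 * (n : ℝ) * (N : ℝ) ^ 2 * (D * ((r : ℝ) + 1)) := by ring
          _ ≤ 1024 * (n : ℝ) * (N : ℝ) ^ 2 * n := mul_le_mul_of_nonneg_left h2 (by positivity)
          _ ≤ (n : ℝ) ^ 2 * (1100 * (N : ℝ) ^ 2) := by
              have : 0 ≤ (n : ℝ) ^ 2 * (N : ℝ) ^ 2 := by positivity
              linarith
          _ ≤ (n : ℝ) ^ 2 * (e ^ 2 * D) := mul_le_mul_of_nonneg_left hD (by positivity)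
          _ = e ^ 2 * (n : ℝ) ^ 2 * D := by ring
      have h6 : (0 : ℝ) < 64 * (N : ℝ) ^ 2 * D := by
        have : (0 : ℝ) < D := by linarith
        positivity
      refine le_of_mul_le_mul_right ?_ h6
      calc 16 * (n : ℝ) * ((r : ℝ) + 1) * (64 * (N : ℝ) ^ 2 * D)
          = 16 * (n : ℝ) * ((r : ℝ) + 1) * D * (64 * (N : ℝ) ^ 2) := by ring
        _ ≤ x * x * (64 * (N : ℝ) ^ 2) * D := h5
        _ = x * x * (64 * (N : ℝ) ^ 2 * D) := by ring
    have h7 : (1 : ℝ) ≤ n := by linarith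
    have h8 : (2 * (n : ℝ) + 2) * ((r : ℝ) + 1) ≤ s * s := by
      have h9 : (2 * (n : ℝ) + 2) * ((r : ℝ) + 1) ≤ 4 * n * ((r : ℝ) + 1) :=
        mul_le_mul_of_nonneg_right (by linarith) (by positivity)
      linarith
    exact_mod_cast h8
  have hnK : n ≤ K * (r + 1) := hr2.trans (Nat.mul_le_mul_right _ hk)
  have hsol : ∀ ω : Sym2 (Fin n) → Fin (r + 1), SDP.IsSol (HZ F₀ b t l lev ω) k
      (Pull.pull b μ) := fun ω => isSol_pull hμ b fun u v h => (HZ_adj.1 h).1.2.2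
  have hmar : ∀ y : Fin n, Pull.pull b μ {y} {y} ≤ 1 / 2 + e / 8 := by
    intro y
    rw [Pull.pull_self, Finset.image_singleton]
    exact hμ1 _
  refine ⟨Sym2 (Fin n) → Fin (r + 1), inferInstance, inferInstance, HZ F₀ b t l lev,
    ?_, ?_, ?_, ?_, ?_⟩
  · intro E
    refine (prP_mono fun ω hω => in_HX (in_HZ hω)).trans ?_
    rw [prP_col]
    refine pow_le_pow_left₀ (by positivity) ?_ _
    rw [div_le_div_iff₀ (by positivity) hn0, one_mul]
    have h1 : n ≤ K * (r + 1) := hr2.trans (Nat.mul_le_mul_right _ hk)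
    exact_mod_cast h1
  · intro ω E hE ht
    exact col_HX hCol (in_HZ hE) ht
  · intro ω
    exact ⟨Pull.pull b μ, hsol ω, hmar⟩
  · intro ω
    refine feas h1C h2C hl hq hq1 fun v p hp => ?_
    refine h5C n k (2 * l) _ _ _ (hsol ω) hmar hlk ?_ v p (by omega)
    push_cast
    nlinarith
  · -- the bad events
    have hb1 := prP_hole n r s hss
    have hb2 : prP (fun ω : Sym2 (Fin n) → Fin (r + 1) => Bad t ω) ≤ 1 / 8 :=
      cntX n r t K ht (by omega) hnK hn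
    have hb3 : prP (fun ω : Sym2 (Fin n) → Fin (r + 1) => Bad2 l lev ω) ≤ 1 / 8 :=
      h3C n r K l lev hl hK1 hnK hlev
    have hgood : prP (fun _ : Sym2 (Fin n) → Fin (r + 1) => True) ≤
        prP (fun ω : Sym2 (Fin n) → Fin (r + 1) => ∀ U : Finset (Fin n),
          IsVertexCover (HZ F₀ b t l lev ω) U → (1 - e) * (n : ℝ) ≤ (U.card : ℝ)) +
        (prP (fun ω : Sym2 (Fin n) → Fin (r + 1) => Sparse.HasHole s ω) +
          (prP (fun ω : Sym2 (Fin n) → Fin (r + 1) => Bad t ω) +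
            prP (fun ω : Sym2 (Fin n) → Fin (r + 1) => Bad2 l lev ω))) := by
      refine le_trans (prP_mono (B := fun ω => (∀ U : Finset (Fin n),
          IsVertexCover (HZ F₀ b t l lev ω) U → (1 - e) * (n : ℝ) ≤ (U.card : ℝ)) ∨
          (Sparse.HasHole s ω ∨ (Bad t ω ∨ Bad2 l lev ω))) ?_)
        ((prP_or _ _).trans (by
          have h8 := prP_or (fun ω : Sym2 (Fin n) → Fin (r + 1) => Sparse.HasHole s ω)
            (fun ω => Bad t ω ∨ Bad2 l lev ω)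
          have h9 := prP_or (fun ω : Sym2 (Fin n) → Fin (r + 1) => Bad t ω)
            (fun ω => Bad2 l lev ω)
          linarith))
      intro ω _
      by_cases h1 : Sparse.HasHole s ω
      · exact Or.inr (Or.inl h1)
      by_cases h2 : Bad t ω
      · exact Or.inr (Or.inr (Or.inl h2))
      by_cases h2' : Bad2 l lev ω
      · exact Or.inr (Or.inr (Or.inr h2'))
      left
      intro U hU
      have hU' : IsVertexCover (HX F₀ b t ω) U := fun u v huv => hU u v (HZ_adj.2 ⟨huv, h2'⟩)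
      have h3 := cover_large F₀ b t s (n / N + 1) ω (e / 8 * N) hb (fun U hU => by
        have := hF U hU
        rw [← hNdef]
        linarith) h1 h2 U hU'
      rw [← hNdef] at h3
      have h4 : ((n / N + 1 : ℕ) : ℝ) * N ≤ n + N := by
        have h5 : (n / N + 1) * N ≤ n + N := by
          rw [Nat.add_mul, one_mul]
          exact Nat.add_le_add_right (Nat.div_mul_le_self n N) _
        exact_mod_cast h5
      have h5 : e / 8 * N * ((n / N + 1 : ℕ) : ℝ) ≤ e / 8 * (n + n) := by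
        calc e / 8 * N * ((n / N + 1 : ℕ) : ℝ) = e / 8 * (((n / N + 1 : ℕ) : ℝ) * N) := by ring
          _ ≤ e / 8 * (n + n) := mul_le_mul_of_nonneg_left (h4.trans (by linarith)) (by positivity)
      have h6 : (N : ℝ) * s ≤ e * n / 8 := by
        have h7 : (N : ℝ) * s ≤ N * x := mul_le_mul_of_nonneg_left hsx hN0.le
        have h8 : (N : ℝ) * x = e * n / 8 := by linarith
        linarith
      have h7 : 0 ≤ e * n := by positivity
      linarith
    rw [prP_true] at hgood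
    linarith

end Z5

theorem stPosZ_9 (hB : StBase) (hC : StCol) (h1C : StHomC) (h2C : StCon) (h3C : StCntZ)
    (h5C : StOdd) : StPosZ := by
  intro ε hε
  obtain ⟨l, hl, hlε⟩ : ∃ l : ℕ, 1 ≤ l ∧ 1 ≤ 4 * ε * l := by
    obtain ⟨m, hm⟩ := exists_nat_gt (1 / (4 * ε))
    refine ⟨m + 1, by omega, ?_⟩
    rw [div_lt_iff₀ (by positivity)] at hm
    push_cast
    nlinarith
  have hl0 : (1 : ℝ) ≤ l := by exact_mod_cast hl
  set e : ℝ := min (min ε 1) (1 / l) with he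
  have he0 : 0 < e := lt_min (lt_min hε one_pos) (by positivity)
  have he1 : e ≤ 1 := (min_le_left _ _).trans (min_le_right _ _)
  have heε : e ≤ ε := (min_le_left _ _).trans (min_le_left _ _)
  have hle : (l : ℝ) * e ≤ 1 := by
    have h : e ≤ 1 / l := min_le_right _ _
    rw [le_div_iff₀ (by positivity)] at h
    linarith
  have hq : ((l : ℝ) + 1) / (2 * l + 1) ≤ min (1 / 2 + ε) 1 := by
    refine le_min ?_ ?_
    · rw [div_le_iff₀ (by positivity)]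
      nlinarith
    · rw [div_le_one (by positivity)]
      linarith
  obtain ⟨C₁, hC₁⟩ := hB (e / 8) (by positivity)
  obtain ⟨C₂, hC₂⟩ : ∃ C₂ : ℕ, 1100 / e ^ 2 ≤ (2 : ℝ) ^ C₂ := by
    obtain ⟨m, hm⟩ := pow_unbounded_of_one_lt (1100 / e ^ 2) (one_lt_two (α := ℝ))
    exact ⟨m, hm.le⟩
  set C₃ : ℕ := C₁ * (2 * l) ^ 2 with hC₃
  refine ⟨21 * l * (3 + (2 * C₃ + C₂ + 1)), fun k lev n t hk ht hn hlev => ?_⟩
  have hkk : 1 ≤ k * (2 * l) := Nat.mul_pos hk (by omega)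
  obtain ⟨V₀, i1, i2, F₀, hN, hN2, hF, μ, hμ, hμ1⟩ := hC₁ (k * (2 * l)) hkk
  have hN2' : Fintype.card V₀ ≤ 2 ^ (C₃ * k ^ 2) := by
    refine hN2.trans (le_of_eq ?_)
    congr 1
    rw [hC₃]
    ring
  have hk2 : 1 ≤ k ^ 2 := Nat.one_le_pow _ _ hk
  have h1 : 2 * 2 ^ ((2 * C₃ + C₂) * k ^ 2) ≤ 2 ^ ((2 * C₃ + C₂ + 1) * k ^ 2) := by
    rw [← pow_succ']
    refine Nat.pow_le_pow_right (by omega) ?_
    have h3 : (2 * C₃ + C₂ + 1) * k ^ 2 = (2 * C₃ + C₂) * k ^ 2 + k ^ 2 := by ring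
    rw [h3]
    exact Nat.add_le_add_left hk2 _
  have h2 : 1100 * (Fintype.card V₀ : ℝ) ^ 2 ≤
      e ^ 2 * ((2 ^ ((2 * C₃ + C₂) * k ^ 2) : ℕ) : ℝ) := by
    have h3 : (Fintype.card V₀ : ℝ) ≤ (2 : ℝ) ^ (C₃ * k ^ 2) := by exact_mod_cast hN2'
    have h4 : (Fintype.card V₀ : ℝ) ^ 2 ≤ (2 : ℝ) ^ (2 * C₃ * k ^ 2) := by
      calc (Fintype.card V₀ : ℝ) ^ 2 ≤ ((2 : ℝ) ^ (C₃ * k ^ 2)) ^ 2 :=
            pow_le_pow_left₀ (Nat.cast_nonneg _) h3 _
        _ = (2 : ℝ) ^ (2 * C₃ * k ^ 2) := by rw [← pow_mul]; congr 1; ring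
    have h5 : 1100 ≤ e ^ 2 * (2 : ℝ) ^ (C₂ * k ^ 2) := by
      have h6 : (2 : ℝ) ^ C₂ ≤ (2 : ℝ) ^ (C₂ * k ^ 2) :=
        pow_le_pow_right₀ one_le_two (Nat.le_mul_of_pos_right _ (by omega))
      have h7 : 1100 ≤ e ^ 2 * (2 : ℝ) ^ C₂ := by
        rw [div_le_iff₀ (by positivity)] at hC₂
        linarith
      exact h7.trans (mul_le_mul_of_nonneg_left h6 (by positivity))
    push_cast
    calc 1100 * (Fintype.card V₀ : ℝ) ^ 2
        ≤ (e ^ 2 * (2 : ℝ) ^ (C₂ * k ^ 2)) * (2 : ℝ) ^ (2 * C₃ * k ^ 2) :=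
          mul_le_mul h5 h4 (by positivity) (by positivity)
      _ = e ^ 2 * (2 : ℝ) ^ ((2 * C₃ + C₂) * k ^ 2) := by
          rw [Nat.add_mul, pow_add]
          ring
  have hKC : (2 * C₃ + C₂ + 1) * k ^ 2 ≤ 21 * l * (3 + (2 * C₃ + C₂ + 1)) * k ^ 2 := by
    refine Nat.mul_le_mul_right _ ?_
    calc 2 * C₃ + C₂ + 1 ≤ 1 * (3 + (2 * C₃ + C₂ + 1)) := by omega
      _ ≤ 21 * l * (3 + (2 * C₃ + C₂ + 1)) := Nat.mul_le_mul_right _ (by omega)
  have hn' : (2 ^ ((2 * C₃ + C₂ + 1) * k ^ 2) * t) ^ 24 ≤ n := by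
    refine le_trans (Nat.pow_le_pow_left (Nat.mul_le_mul_right _ ?_) 24) hn
    exact Nat.pow_le_pow_right (by omega) hKC
  have hlev' : (8 * 2 ^ ((2 * C₃ + C₂ + 1) * k ^ 2)) ^ (21 * l) * lev ≤ n := by
    refine le_trans ?_ hlev
    rw [mul_comm]
    refine Nat.mul_le_mul_left _ ?_
    rw [show 8 = 2 ^ 3 by norm_num, ← pow_add, ← pow_mul]
    refine Nat.pow_le_pow_right (by omega) ?_
    have h3 : 3 + (2 * C₃ + C₂ + 1) * k ^ 2 ≤ (3 + (2 * C₃ + C₂ + 1)) * k ^ 2 := by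
      calc 3 + (2 * C₃ + C₂ + 1) * k ^ 2 ≤ 3 * k ^ 2 + (2 * C₃ + C₂ + 1) * k ^ 2 :=
            Nat.add_le_add_right (by omega) _
        _ = (3 + (2 * C₃ + C₂ + 1)) * k ^ 2 := by ring
    calc (3 + (2 * C₃ + C₂ + 1) * k ^ 2) * (21 * l)
        ≤ ((3 + (2 * C₃ + C₂ + 1)) * k ^ 2) * (21 * l) := Nat.mul_le_mul_right _ h3
      _ = 21 * l * (3 + (2 * C₃ + C₂ + 1)) * k ^ 2 := by ring
  obtain ⟨Ω, i3, i4, H, a1, a2, a3, a5, a4⟩ := Z5.main hC h1C h2C h3C h5C e he0 he1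
    (k * (2 * l)) n t (2 ^ ((2 * C₃ + C₂) * k ^ 2)) (2 ^ ((2 * C₃ + C₂ + 1) * k ^ 2)) l lev
    (min (1 / 2 + ε) 1) hl (Nat.le_mul_of_pos_left _ hk) hle hq (min_le_right _ _) hlev' h1 ht hn'
    F₀ hN h2 hF μ hμ hμ1
  refine ⟨Ω, i3, i4, H, ?_, a2, ?_, a5, ?_⟩
  · intro E
    refine (a1 E).trans (pow_le_pow_left₀ (by positivity) ?_ _)
    push_cast
    refine div_le_div_of_nonneg_right ?_ (Nat.cast_nonneg _)
    exact pow_le_pow_right₀ one_le_two hKC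
  · intro ω
    obtain ⟨ν, b1, b2⟩ := a3 ω
    exact ⟨ν, TopM.isSol_mono b1 (Nat.le_mul_of_pos_right _ (by omega)),
      fun x => (b2 x).trans (by linarith)⟩
  · refine a4.trans (prP_mono fun ω h U hU => ?_)
    refine le_trans ?_ (h U hU)
    exact mul_le_mul_of_nonneg_right (by linarith) (Nat.cast_nonneg _)

end Pool.Agent.Lib.MP_cff830_lc.ZR
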