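import Pool.Agent.Lib.MP_cff830_lc.ZR.StmtsZ59
import Pool.Agent.Lib.MP_cff830_lc.MR.Rel
import Pool.Agent.Lib.MP_cff830_lc.MR.Up

/-!
# No short odd closed walks (module Z5a)
-/

set_option autoImplicit false

namespace Pool.Agent.Lib.MP_cff830_lc.ZR

open Finset MR

namespace Z5a

theorem sum_le {V : Type} (x : V → ℝ) (p : ℝ) (hx : ∀ v, x v ≤ p) (L : List V) :
    (L.map x).sum ≤ L.length * p := by
  induction L with
  | nil => simp
  | cons a L ih =>
    rw [List.map_cons, List.sum_cons, List.length_cons]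
    push_cast
    have := hx a
    linarith

end Z5a

/-- (Z5a) No short odd closed walks. -/
theorem stOdd_61 : StOdd := by
  intro n k L G μ p hμ hp hLk hL v q hq
  by_contra hcon
  rw [Nat.not_even_iff_odd] at hcon
  have hsol := UpAux.solution_of_sol hμ
  have h1 := RelAux.walk_ineq G k (RelAux.feasible_solution G k hsol) q hcon (hq.trans hLk)
  have h2 := Z5a.sum_le (fun v => μ {v} {v}) p hp q.support.tail
  have h3 : q.support.tail.length = q.length := by simp
  rw [h3] at h2
  have h4 : ((q.length : ℝ) + 1) / 2 ≤ q.length * p := h1.trans h2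
  have h5 : (1 : ℝ) ≤ q.length * (2 * p - 1) := by linarith
  have h6 : (0 : ℝ) ≤ q.length := Nat.cast_nonneg _
  have h7 : (q.length : ℝ) ≤ L := by exact_mod_cast hq
  rcases le_total (2 * p - 1) 0 with h8 | h8
  · have := mul_nonpos_of_nonneg_of_nonpos h6 h8
    linarith
  · have := mul_le_mul_of_nonneg_right h7 h8
    linarith

end Pool.Agent.Lib.MP_cff830_lc.ZR
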