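import Pool.Agent.Lib.MP_cff830_lc.ZR.Main
import Pool.Agent.Lib.MP_cff830_lc.ZR.Z1_9
import Pool.Agent.Lib.MP_cff830_lc.ZR.Z2_9
import Pool.Agent.Lib.MP_cff830_lc.ZR.Z3_94
import Pool.Agent.Lib.MP_cff830_lc.ZR.Z4_61
import Pool.Agent.Lib.MP_cff830_lc.ZR.Z5a_61
import Pool.Agent.Lib.MP_cff830_lc.ZR.Z5_9
import Pool.Agent.Lib.MP_cff830_lc.MR.TopM
import Pool.Agent.Lib.MP_cff830_lc.MR.Up
import Pool.Agent.Lib.MP_cff830_lc.MR.Rel
import Pool.Agent.Lib.MP_cff830_lc.MR.Bern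
import Pool.Agent.Lib.MP_cff830_lc.MR.Hoef
import Pool.Agent.Lib.MP_cff830_lc.MR.Small
import Pool.Agent.Lib.MP_cff830_lc.MR.Dich
import Pool.Agent.Lib.MP_cff830_lc.MR.Clos
import Pool.Agent.Lib.MP_cff830_lc.MR.Col
import Pool.Agent.Lib.MP_cff830_lc.MR.LowX
import Pool.Agent.Lib.MP_cff830_lc.MR.SpreadX
import Pool.Agent.Lib.MP_cff830_lc.MR.JumpX

/-!
# The modules put together
-/

set_option autoImplicit false

namespace Pool.Agent.Lib.MP_cff830_lc.ZR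

open MR

theorem avg : StAvg :=
  stAvg (stPosZ_9 stBase stCol stHomC_9 stCon_9 stCntZ_94 stOdd_61) stUp stUpL_61 stRel stLowX
    stBern stHoef stSmall stDich stClos stSpread

end Pool.Agent.Lib.MP_cff830_lc.ZR
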