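import Pool.Agent.Lib.MP_cff830_lc.MR.StmtsX59

/-!
# Circuits over relaxations of vertex cover: linear programmes of linear level, statements

`localLP G l w` (Arora, Bollobas, Lovasz, Tourlakis) for `l` up to `n / 2 ^ (C * k ^ 2)`.
-/

set_option autoImplicit false

namespace Pool.Agent.Lib.MP_cff830_lc.ZR

open Finset MR

open Classical in
/-- (Z1) Sparse graphs without short odd closed walks have a homomorphism to the cycle of length
`2 * l + 1`. Induction on the number of vertices (induced subgraphs). A vertex of degree at most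
one can be removed. Otherwise, with `η = 1 / (10 * l)` and `N` vertices, the sum of `deg - 2` is at
most `2 * η * N`, so the set `D₀` of the darts that leave a vertex of degree at least three has at
most `6 * η * N` elements, and at least `2 * (1 - 2 * η) * N > 2 * l * card D₀` darts leave vertices
of degree two. A dart from `u` (degree two) to `v` has a unique predecessor, the dart to `u` from
the other neighbour of `u`; a dart has at most one successor in this sense, so some dart has `2 * l`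
predecessors, all leaving vertices of degree two: a walk `x 0, ..., x (2 * l)` in vertices of degree
two with `x (i + 2) ≠ x i`. If these are distinct, remove `x 1, ..., x (2 * l - 1)`, and extend the
homomorphism (any two vertices of the cycle are joined by a walk of length exactly `2 * l`).
Otherwise, let `j` be minimal with `x j = x i` for some `i < j`; then `i = 0` (a vertex of degree
two), `x 0, ..., x (j - 1)` is a component, a cycle of length `j < 2 * l + 1`, so `j` is even:
values `0` and `1` in turn, and remove it. -/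
def StHomC : Prop := ∀ (V : Type) [Fintype V] (G : SimpleGraph V) (l : ℕ), 1 ≤ l →
  (∀ U : Finset V, 5 * l * (univ.filter fun p : V × V => p.1 ∈ U ∧ p.2 ∈ U ∧
    G.Adj p.1 p.2).card ≤ (10 * l + 1) * U.card) →
  (∀ (v : V) (p : G.Walk v v), p.length < 2 * l + 1 → Even p.length) →
    ∃ h : V → ZMod (2 * l + 1), ∀ u v, G.Adj u v → h u = h v + 1 ∨ h v = h u + 1

/-- (Z2) The constant vector. For `c : ZMod (2 * l + 1)` the set of all `v` with `(h v + c).val`
even is a cover (the values of adjacent vertices are consecutive numbers, or `0` and `2 * l`);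
average over `c`: `(l + 1) / (2 * l + 1)`; and the set of all vertices is a cover. -/
def StCon : Prop := ∀ (V : Type) (G : SimpleGraph V) (l : ℕ) (p : ℝ)
  (h : V → ZMod (2 * l + 1)), (∀ u v, G.Adj u v → h u = h v + 1 ∨ h v = h u + 1) →
    ((l : ℝ) + 1) / (2 * l + 1) ≤ p → p ≤ 1 → (fun _ : V => p) ∈ convexHull ℝ (coverVectors G)

/-- Some set of at most `lev` vertices of the random graph has more than
`(1 + 1 / (10 * l)) * card` edges. -/
def Bad2 {n r : ℕ} (l lev : ℕ) (ω : Sym2 (Fin n) → Fin (r + 1)) : Prop :=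
  ∃ (U : Finset (Fin n)) (F : Finset (Sym2 (Fin n))), U.card ≤ lev ∧
    (∀ e ∈ F, ¬ e.IsDiag ∧ ω e = 0 ∧ ∀ v ∈ e, v ∈ U) ∧ (10 * l + 1) * U.card < 10 * l * F.card

/-- (Z3) The random graph has few edges on all sets of at most `lev` vertices. For a set `U` of `u`
vertices and `m = ⌊(10 * l + 1) * u / (10 * l)⌋ + 1` the probability that `m` given pairs have
colour `0` is at most `(A / n) ^ m` (`PosAux.prP_col`). With `u! ≥ (u / 3) ^ u`
(`Real.pow_div_factorial_le_exp`), `x = u / n` and `m = u + m'`, the number of `U` times the number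
of sets of `m` pairs in `U` times `(A / n) ^ m` is at most
`(3 / x) ^ u * (3 * A * x / 2) ^ m = (9 * A / 2) ^ u * (3 * A * x / 2) ^ m'`, and
`(3 * A * x / 2) ^ m' ≤ ((1 / (72 * A)) ^ (10 * l)) ^ m' ≤ (1 / (72 * A)) ^ u`; so it is at most
`(1 / 16) ^ u`; the sum over `u ≥ 1` is at most `1 / 15`. -/
def StCntZ : Prop := ∀ n r A l lev : ℕ, 1 ≤ l → 1 ≤ A → n ≤ A * (r + 1) →
  (8 * A) ^ (21 * l) * lev ≤ n →
    prP (fun ω : Sym2 (Fin n) → Fin (r + 1) => Bad2 l lev ω) ≤ 1 / 8

/-- (Z4) An upper bound for the value of the linear programme, as `StUp`: with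
`C' = C₀ ∪ nbr G S` the vector that is `1` on `C'`, `0` on `S \ C₀` and `p` elsewhere is locally
feasible: on a set `T` of at most `l` vertices write the constant `p` as a convex combination of
covers of `G.induce T` and change every cover to `1` on `C'` and `0` on `S \ C₀` (an affine map). -/
def StUpL : Prop := ∀ (n l : ℕ) (G : SimpleGraph (Fin n)) (p : ℝ), 0 ≤ p →
  LocallyFeasible G l (fun _ => p) → ∀ w : Fin n → ℝ, (∀ v, 0 ≤ w v) →
    ∀ S C₀ : Finset (Fin n), C₀ ⊆ S → (∀ x ∈ S, ∀ y ∈ S, G.Adj x y → x ∈ C₀ ∨ y ∈ C₀) →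
      localLP G l w ≤ wt w C₀ + wt w (nbr G S) + p * wt w Sᶜ

/-- (Z5a) No short odd closed walks: a solution of level `k` with marginals at most `p`
(`MR.RelAux`, file `MR/Rel.lean`: marginals are locally feasible, `walk_ineq`). -/
def StOdd : Prop := ∀ (n k L : ℕ) (G : SimpleGraph (Fin n))
  (μ : Finset (Fin n) → Finset (Fin n) → ℝ) (p : ℝ), SDP.IsSol G k μ → (∀ x, μ {x} {x} ≤ p) →
    L ≤ k → (L : ℝ) * (2 * p - 1) < 1 →
      ∀ (v : Fin n) (q : G.Walk v v), q.length ≤ L → Even q.length

/-- (Z5) The positive tests, as `StPosX`, with local feasibility of a constant; `k' = max k (2 l + 1)`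
for `(l + 1) / (2 * l + 1) ≤ 1 / 2 + ε` in place of `k`; the graph is empty also if `Bad2`. -/
def StPosZ : Prop := ∀ ε : ℝ, 0 < ε → ∃ C : ℕ, ∀ k lev n t : ℕ, 1 ≤ k → 1 ≤ t →
  (2 ^ (C * k ^ 2) * t) ^ 24 ≤ n → lev * 2 ^ (C * k ^ 2) ≤ n →
  ∃ (Ω : Type) (_ : Fintype Ω) (_ : Nonempty Ω) (H : Ω → SimpleGraph (Fin n)),
    (∀ E : Finset (Sym2 (Fin n)),
      prP (fun ω => In E (H ω)) ≤ ((2 : ℝ) ^ (C * k ^ 2) / n) ^ E.card) ∧
    (∀ (ω : Ω) (E : Finset (Sym2 (Fin n))), In E (H ω) → E.card ≤ t → (gr E).Colorable 3) ∧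
    (∀ ω : Ω, ∃ μ : Finset (Fin n) → Finset (Fin n) → ℝ, SDP.IsSol (H ω) k μ ∧
      ∀ x, μ {x} {x} ≤ 1 / 2 + ε) ∧
    (∀ ω : Ω, LocallyFeasible (H ω) lev fun _ => min (1 / 2 + ε) 1) ∧
    1 / 2 ≤ prP fun ω => ∀ U : Finset (Fin n), IsVertexCover (H ω) U →
      (1 - ε) * (n : ℝ) ≤ (U.card : ℝ)

end Pool.Agent.Lib.MP_cff830_lc.ZR
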