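import Pool.Agent.Lib.MP_cff830_lc.ZR.Defs
import Pool.Agent.Lib.MP_cff830_lc.ZR.StmtsZ59
import Pool.Agent.Lib.MP_cff830_lc.MR.Leaf
import Pool.Agent.Lib.MP_cff830_lc.MR.Gates

/-!
# The leaves, with linear programmes of linear level

As `MR/LeafX.lean` and `MR/LeafY.lean`, for relaxations up to the larger one of two values.
-/

set_option autoImplicit false

namespace Pool.Agent.Lib.MP_cff830_lc.ZR

open Finset MR

open LeafAux GatesAux

/-- The relaxations. -/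
theorem leafZ (hUp : StUp) (hUpL : StUpL) (hRel : StRel) (hLow : StLowX) (hBe : StBern)
    (hHo : StHoef) (hSm : StSmall) (hDi : StDich)
    (n k l t M L r : ℕ) (ε η κ δ₁ : ℝ) (Ω : Type) [Fintype Ω] [Nonempty Ω]
    (H : Ω → SimpleGraph (Fin n)) (hk : 2 ≤ k) (hε : 0 < ε) (hε1 : ε ≤ 1 / 4) (hη : 0 < η)
    (hη1 : η ≤ ε / 16) (hr : r * η ≤ ε / 16) (hκ : 0 ≤ κ) (hM : 2 * t + 1 ≤ M) (hML : M < L)
    (hL : L ≤ n) (hexp : Real.exp (-(η * ((L : ℝ) - M))) ≤ η)
    (hδ1 : Real.exp (-((ε / 8) ^ 2 / (4 * η))) ≤ δ₁) (hδ2 : (1 / 2 : ℝ) ^ (M + 1 - 2 * t) ≤ δ₁)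
    (hsp : ∀ E : Finset (Sym2 (Fin n)), prP (fun ω => In E (H ω)) ≤ κ ^ E.card)
    (h3c : ∀ (ω : Ω) (E : Finset (Sym2 (Fin n))), In E (H ω) → E.card ≤ t → (gr E).Colorable 3)
    (hsol : ∀ ω : Ω, ∃ μ : Finset (Fin n) → Finset (Fin n) → ℝ, SDP.IsSol (H ω) k μ ∧
      ∀ x, μ {x} {x} ≤ 1 / 2 + ε / 8)
    (hloc : ∀ ω : Ω, LocallyFeasible (H ω) l fun _ => 1 / 2 + ε / 8)
    (w : Fin n → ℝ) (R : SimpleGraph (Fin n) → ℝ) (hw : ∀ v, 0 ≤ w v) (hR : IsBound k l w R) :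
    prP (fun ω => ∀ E ∈ terms n t, In E (H ω) →
      δ₁ < prN (1 / 2 - ε / 2) fun I => In E (negG I) ∧ R (negG I) < R (H ω)) ≤
      ((L : ℝ) ^ 2 * κ) ^ (t + 1) + (16 * L * κ / ε) ^ r := by
  classical
  obtain ⟨hlA, hlB, hlC, hlV, hlD, hlE⟩ := hLow n w hw
  set ρ : ℝ := 1 / 2 - ε / 2 with hρ
  have hρ0 : 0 ≤ ρ := by rw [hρ]; linarith
  have hρ1 : ρ ≤ 1 / 2 := by rw [hρ]; linarith
  have hρ2 : ρ ≤ 1 := by linarith
  rcases hDi n M L w η hw hη (by linarith) hML hL hexp with ⟨S, hS, hSw⟩ | ⟨S, B, hS, hBS, hBc, hBw⟩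
  · obtain ⟨hs1, hs2⟩ := hSm n κ Ω H hκ hsp S L hS
    have h1 := hs1 t
    have h2 := hs2 r (ε / 8) η w (by positivity) hw hSw (by linarith)
    have h3 : (2 * (L : ℝ) * κ / (ε / 8)) ^ r = (16 * L * κ / ε) ^ r := by
      congr 1
      field_simp
      ring
    rw [h3] at h2
    refine le_trans (prP_mono ?_) ((prP_or _ _).trans (add_le_add h1 h2))
    intro ω hω
    by_contra hcon
    rw [not_or, not_lt, not_lt] at hcon
    obtain ⟨hc1, hc2⟩ := hcon
    have hEt := edgesIn_term hc1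
    have hEI := edgesIn_in (H ω) S
    have hES := edgesIn_inside (H ω) S
    have hcol := h3c ω (edgesIn (H ω) S) hEI hc1
    have hbad := hω _ hEt hEI
    set E := edgesIn (H ω) S with hE
    set W := wt w Sᶜ with hW
    have hW0 : 0 ≤ W := wt_nonneg hw _
    -- the value on the positive test
    obtain ⟨C₀, hC1, hC2, hC3⟩ := hlE (H ω) S
    obtain ⟨μ, hμ1, hμ2⟩ := hsol ω
    have hup := hUp n k (H ω) μ _ hμ1 hμ2 w hw S C₀ hC1 hC2
    have hup2 : sdpValue (H ω) k w ≤ minCover (gr E) w + (1 / 2 + ε / 4) * W := by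
      rw [← hW] at hup
      have h4 : (1 / 2 + ε / 8) * W + ε / 8 * W = (1 / 2 + ε / 4) * W := by ring
      linarith
    have hupL := hUpL n l (H ω) _ (by linarith) (hloc ω) w hw S C₀ hC1 hC2
    have hup3 : localLP (H ω) l w ≤ minCover (gr E) w + (1 / 2 + ε / 4) * W := by
      rw [← hW] at hupL
      have h4 : (1 / 2 + ε / 8) * W + ε / 8 * W = (1 / 2 + ε / 4) * W := by ring
      linarith
    obtain ⟨-, hr2, -, hr4, hr5, hr6, -, -, hr9, hr10, -⟩ := hRel n (H ω) w hw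
    refine absurd hbad (not_lt.2 (le_trans (prN_mono hρ0 hρ2 ?_)
      ((hHo n ρ (ε / 8) η w Sᶜ hρ0 hρ2 (by positivity) (by linarith) hη hw (fun v hv =>
        hSw v (Finset.mem_compl.1 hv))).1.trans hδ1)))
    rintro I ⟨hEN, hRI⟩
    by_contra hI
    rw [not_lt, ← hW] at hI
    have hsplit := wt_split w Sᶜ I
    rw [← hW] at hsplit
    have hWI : (1 / 2 + 3 * ε / 8) * W ≤ wt w (Sᶜ \ I) := by
      have h4 : (ρ + ε / 8) * W + (1 / 2 + 3 * ε / 8) * W = W := by rw [hρ]; ring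
      linarith
    refine absurd hRI (not_lt.2 ?_)
    rcases hR with hR | hR
    · rw [hR, hR]
      refine hlC I _ ?_ hr5 hr6
      have h4 := hlD S I E hES hEN
      have h5 := wt_compl w S I
      have h6 : (1 / 2 + ε / 4) * W ≤ (1 / 2 + 3 * ε / 8) * W :=
        mul_le_mul_of_nonneg_right (by linarith) hW0
      have h7 := hr10 k hk
      linarith
    · refine (hR (H ω)).2.trans ((max_le hup2 hup3).trans (le_trans ?_ (hR (negG I)).1))
      refine le_trans ?_ (hlA S I E η hη.le hES hcol hEN hSw)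
      rw [← hW]
      have h4 : (1 / 2 + ε / 4) * W + 2 * η * W ≤ min (2 / 3 * W) (wt w (Sᶜ \ I)) := by
        have h5 : 2 * η * W ≤ ε / 8 * W := mul_le_mul_of_nonneg_right (by linarith) hW0
        refine le_min ?_ ?_
        · have h6 : (1 / 2 + ε / 4) * W + ε / 8 * W ≤ 2 / 3 * W := by
            have h7 : (1 / 2 + ε / 4) * W + ε / 8 * W = (1 / 2 + 3 * ε / 8) * W := by ring
            rw [h7]
            exact mul_le_mul_of_nonneg_right (by linarith) hW0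
          linarith
        · have h7 : (1 / 2 + ε / 4) * W + ε / 8 * W = (1 / 2 + 3 * ε / 8) * W := by ring
          linarith
      linarith
  · obtain ⟨hs1, -⟩ := hSm n κ Ω H hκ hsp S L hS
    have h1 := hs1 t
    have h2 : 0 ≤ (16 * L * κ / ε) ^ r := by positivity
    refine le_trans (prP_mono ?_) (h1.trans (by linarith))
    intro ω hω
    by_contra hc1
    rw [not_lt] at hc1
    have hEt := edgesIn_term hc1
    have hEI := edgesIn_in (H ω) S
    have hES := edgesIn_inside (H ω) S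
    have hcol := h3c ω (edgesIn (H ω) S) hEI hc1
    have hbad := hω _ hEt hEI
    set E := edgesIn (H ω) S with hE
    set W := wt w Sᶜ with hW
    -- the value on the positive test
    obtain ⟨C₀, hC1, hC2, hC3⟩ := hlE (H ω) S
    obtain ⟨-, hr2, -, hr4, hr5, hr6, hr7, -, hr9, -, -, hr12, -⟩ := hRel n (H ω) w hw
    have hcov : IsVertexCover (H ω) (C₀ ∪ Sᶜ) := by
      intro u v huv
      rw [Finset.mem_union, Finset.mem_union, Finset.mem_compl, Finset.mem_compl]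
      by_cases hu : u ∈ S
      · by_cases hv : v ∈ S
        · rcases hC2 u hu v hv huv with h | h
          · exact Or.inl (Or.inl h)
          · exact Or.inr (Or.inl h)
        · exact Or.inr (Or.inr hv)
      · exact Or.inl (Or.inr hu)
    have hmc : minCover (H ω) w ≤ minCover (gr E) w + W := by
      refine (hr7 _ hcov).trans ((wt_union hw _ _).trans ?_)
      rw [← hW]
      linarith
    -- the vertices of large weight outside `E`
    have hvs : (vs E).card ≤ 2 * t := (card_vs E).trans (Nat.mul_le_mul_left 2 hc1)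
    have hB' : M + 1 - 2 * t ≤ (B \ vs E).card := by
      have h3 := Finset.le_card_sdiff (vs E) B
      omega
    obtain ⟨hb1, -, -⟩ := hBe n ρ hρ0 hρ2
    have hpr : prN ρ (fun I => B \ vs E ⊆ I) ≤ δ₁ := by
      rw [hb1]
      calc ρ ^ (B \ vs E).card ≤ (1 / 2 : ℝ) ^ (B \ vs E).card := pow_le_pow_left₀ hρ0 hρ1 _
        _ ≤ (1 / 2 : ℝ) ^ (M + 1 - 2 * t) :=
            pow_le_pow_of_le_one (by norm_num) (by norm_num) hB'
        _ ≤ δ₁ := hδ2
    refine absurd hbad (not_lt.2 (le_trans (prN_mono hρ0 hρ2 ?_) hpr))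
    rintro I ⟨hEN, hRI⟩
    by_contra hI
    obtain ⟨v, hv, hvI⟩ := Finset.not_subset.1 hI
    have h3 : 1 < (B \ vs E).card := by omega
    obtain ⟨v', hv', hne⟩ := Finset.exists_mem_ne h3 v
    obtain ⟨hvB, hvE⟩ := Finset.mem_sdiff.1 hv
    obtain ⟨hvB', hvE'⟩ := Finset.mem_sdiff.1 hv'
    have h4 := hlB I E v v' hcol hEN hvE hvE' hne.symm hvI
    have h5 : W ≤ min (w v) (w v') := le_min (hBw v hvB) (hBw v' hvB')
    have h6 : minCover (H ω) w ≤ triangleLP (negG I) w := by linarith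
    refine absurd hRI (not_lt.2 ?_)
    rcases hR with hR | hR
    · rw [hR, hR]
      refine hlC I _ ?_ hr5 hr6
      have h7 := hlV I E v hEN hvE hvI
      have h8 := hBw v hvB
      linarith
    · exact (hR (H ω)).2.trans ((max_le (hr9 k) ((hr12 l).trans (hr9 l))).trans
        (h6.trans (hR (negG I)).1))


/-- All inputs. -/
theorem leafAll (hUp : StUp) (hUpL : StUpL) (hRel : StRel) (hLow : StLowX) (hBe : StBern)
    (hHo : StHoef) (hSm : StSmall) (hDi : StDich)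
    (n k l t M L r : ℕ) (ε η κ δ₁ : ℝ) (Ω : Type) [Fintype Ω] [Nonempty Ω]
    (H : Ω → SimpleGraph (Fin n)) (hk : 2 ≤ k) (hε : 0 < ε) (hε1 : ε ≤ 1 / 4) (hη : 0 < η)
    (hη1 : η ≤ ε / 16) (hr : r * η ≤ ε / 16) (hκ : 0 ≤ κ) (hM : 2 * t + 1 ≤ M) (hML : M < L)
    (hL : L ≤ n) (hexp : Real.exp (-(η * ((L : ℝ) - M))) ≤ η)
    (hδ1 : Real.exp (-((ε / 8) ^ 2 / (4 * η))) ≤ δ₁) (hδ2 : (1 / 2 : ℝ) ^ (M + 1 - 2 * t) ≤ δ₁)
    (hsp : ∀ E : Finset (Sym2 (Fin n)), prP (fun ω => In E (H ω)) ≤ κ ^ E.card)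
    (h3c : ∀ (ω : Ω) (E : Finset (Sym2 (Fin n))), In E (H ω) → E.card ≤ t → (gr E).Colorable 3)
    (hsol : ∀ ω : Ω, ∃ μ : Finset (Fin n) → Finset (Fin n) → ℝ, SDP.IsSol (H ω) k μ ∧
      ∀ x, μ {x} {x} ≤ 1 / 2 + ε / 8)
    (hloc : ∀ ω : Ω, LocallyFeasible (H ω) l fun _ => 1 / 2 + ε / 8)
    (R : SimpleGraph (Fin n) → ℝ) (hR : IsInput k l R) :
    prP (fun ω => ∀ E ∈ terms n t, In E (H ω) →
      δ₁ < prN (1 / 2 - ε / 2) fun I => In E (negG I) ∧ R (negG I) < R (H ω)) ≤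
      ((L : ℝ) ^ 2 * κ) ^ (t + 1) + (16 * L * κ / ε) ^ r +
        ((n : ℝ) ^ (2 / 3 : ℝ) * κ) ^ (t + 1) := by
  classical
  rcases hR with ⟨w, hw, hrel⟩ | ⟨S, hS, hmono⟩
  · refine (leafZ hUp hUpL hRel hLow hBe hHo hSm hDi n k l t M L r ε η κ δ₁ Ω H hk hε hε1 hη hη1 hr
      hκ hM hML hL hexp hδ1 hδ2 hsp h3c hsol hloc w R hw hrel).trans ?_
    have h0 : 0 ≤ ((n : ℝ) ^ (2 / 3 : ℝ) * κ) ^ (t + 1) := by positivity
    linarith
  · have hδ0 : 0 < δ₁ := lt_of_lt_of_le (Real.exp_pos _) hδ1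
    have h1 := (hSm n κ Ω H hκ hsp S S.card le_rfl).1 t
    have h2 : (S.card : ℝ) ^ 2 ≤ (n : ℝ) ^ (2 / 3 : ℝ) := by
      have h3 : (S.card : ℝ) ^ 3 ≤ n := by exact_mod_cast hS
      calc (S.card : ℝ) ^ 2 = ((S.card : ℝ) ^ 3) ^ (2 / 3 : ℝ) := by
            rw [← Real.rpow_natCast, ← Real.rpow_natCast, ← Real.rpow_mul (Nat.cast_nonneg _)]
            norm_num
        _ ≤ (n : ℝ) ^ (2 / 3 : ℝ) := Real.rpow_le_rpow (by positivity) h3 (by norm_num)
    have h5 : prP (fun ω => t < (edgesIn (H ω) S).card) ≤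
        ((n : ℝ) ^ (2 / 3 : ℝ) * κ) ^ (t + 1) :=
      h1.trans (pow_le_pow_left₀ (by positivity) (mul_le_mul_of_nonneg_right h2 hκ) _)
    refine le_trans (prP_mono ?_) (h5.trans ?_)
    · intro ω hω
      by_contra hcon
      have hcon := not_lt.1 hcon
      refine absurd (hω _ (edgesIn_term hcon) (edgesIn_in (H ω) S)) (not_lt.2 ?_)
      refine (prN_mono (B := fun _ => False) (by linarith) (by linarith) ?_).trans
        ((prN_false _).le.trans hδ0.le)
      rintro I ⟨hEN, hRI⟩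
      refine absurd hRI (not_lt.2 (hmono _ _ fun u hu v hv huv => ?_))
      have h6 : s(u, v) ∈ edgesIn (H ω) S := by
        unfold edgesIn
        rw [Finset.mem_filter]
        refine ⟨Finset.mem_univ _, huv, fun x hx => ?_⟩
        rcases Sym2.mem_iff.1 hx with rfl | rfl
        · exact hu
        · exact hv
      exact hEN _ h6
    · have h0 : 0 ≤ ((L : ℝ) ^ 2 * κ) ^ (t + 1) := by positivity
      have h7 : 0 ≤ (16 * L * κ / ε) ^ r := by positivity
      linarith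

end Pool.Agent.Lib.MP_cff830_lc.ZR
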