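import Pool.Agent.Lib.MP_cff830_lc.MR.NumY

/-!
# The choice of the parameters, with small errors

As `MR/NumY.lean`.
-/

set_option autoImplicit false

namespace Pool.Agent.Lib.MP_cff830_lc.ZR

open Finset MR NumYAux

/-- `s` times a power of a small number -/
lemma small_pow {s z e c : ℝ} {t : ℕ} (hs : s ≤ 2 ^ (t + 1)) (hz : 0 ≤ z) (hc : 0 ≤ c)
    (hz1 : z ≤ 1 / 2) (hcz : c * z ≤ e / 1000) : s * (c * z ^ (t + 1)) ≤ e / 500 := by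
  have h1 : s * z ^ (t + 1) ≤ 2 * z := by
    calc s * z ^ (t + 1) ≤ 2 ^ (t + 1) * z ^ (t + 1) :=
          mul_le_mul_of_nonneg_right hs (by positivity)
      _ = (2 * z) ^ (t + 1) := (mul_pow _ _ _).symm
      _ ≤ (2 * z) ^ 1 := pow_le_pow_of_le_one (by positivity) (by linarith) (by omega)
      _ = 2 * z := pow_one _
  have h2 : s * (c * z ^ (t + 1)) = c * (s * z ^ (t + 1)) := by ring
  rw [h2]
  have h3 := mul_le_mul_of_nonneg_left h1 hc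
  linarith

/-- a product of a power of `y` with `κ` is small -/
lemma small_kap {κ y z e : ℝ} {a : ℕ} (hκ : 0 ≤ κ) (he : 0 < e) (he4 : e ≤ 1 / 4)
    (hy : 400 ≤ y) (hye : 64 / e ^ 2 ≤ y) (hκy : κ * y ^ 28 ≤ 1)
    (hz : z ≤ y ^ a) (ha : a ≤ 26) : z * κ ≤ e / 1000 := by
  have hy1 : 1 ≤ y := by linarith
  have hy0 : 0 < y := by linarith
  obtain ⟨m, hm⟩ : ∃ m : ℕ, m = 26 := ⟨_, rfl⟩
  rw [← hm] at ha
  have h1 : z ≤ y ^ m := hz.trans (pow_le_pow_right₀ hy1 ha)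
  have h2 : z * κ ≤ y ^ m * κ := mul_le_mul_of_nonneg_right h1 hκ
  have h5 : 1000 / e ≤ y * y := by
    have h5a : 1000 / e ≤ 400 * (64 / e ^ 2) := by
      have h5b : 400 * (64 / e ^ 2) = 25600 / e ^ 2 := by ring
      rw [h5b, div_le_div_iff₀ he (by positivity)]
      nlinarith only [he, he4]
    exact h5a.trans (mul_le_mul hy hye (by positivity) hy0.le)
  have h3 : 1000 / e ≤ y ^ 2 := by
    rw [pow_two]
    exact h5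
  have h4 : 0 ≤ y ^ m * κ := by positivity
  have h6 : y ^ m * κ * (1000 / e) ≤ y ^ m * κ * y ^ 2 := mul_le_mul_of_nonneg_left h3 h4
  have h7 : y ^ m * κ * y ^ 2 = κ * y ^ 28 := by
    rw [hm]
    ring
  have h8 : y ^ m * κ * (1000 / e) ≤ 1 := by linarith
  have h9 : y ^ m * κ * (1000 / e) = (y ^ m * κ) * 1000 / e := by ring
  rw [h9, div_le_one he] at h8
  linarith

/-- The choice of the parameters. -/
theorem numZ : ∀ (ε : ℝ) (C : ℕ), 0 < ε → ε ≤ 1 / 4 → ∃ C' : ℕ, ∀ k n d : ℕ, 2 ≤ k →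
    2 ^ (C' * k ^ 2) ≤ n → 1 ≤ d → d ^ 6 ≤ n →
    ∃ (t M L r N K : ℕ) (η κ δ : ℝ), κ = (2 : ℝ) ^ (C * k ^ 2) / n ∧
      δ = ((n : ℝ) ^ (6 * t))⁻¹ ∧ 1 ≤ t ∧ (2 ^ (C * k ^ 2) * t) ^ 24 ≤ n ∧ κ ≤ 1 ∧
      0 < η ∧ η ≤ ε / 16 ∧ r * η ≤ ε / 16 ∧ 2 * t + 1 ≤ M ∧ M < L ∧ L ≤ n ∧
      Real.exp (-(η * ((L : ℝ) - M))) ≤ η ∧ Real.exp (-((ε / 8) ^ 2 / (4 * η))) ≤ δ ∧
      (1 / 2 : ℝ) ^ (M + 1 - 2 * t) ≤ δ ∧ 1 ≤ N ∧ (1 / 2 : ℝ) ^ N ≤ δ ∧ 16 * N * t ^ 2 ≤ K ∧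
      1 ≤ K ∧ ((K ^ 2 : ℕ) : ℝ) * κ ≤ ε / 128 ∧ Real.exp (-((ε / 2) ^ 2 * n / 4)) ≤ 1 / 4 ∧
      ∀ s : ℕ, (s : ℝ) < (2 : ℝ) ^ ((n : ℝ) ^ (1 / 30 : ℝ)) →
        s * (d * (((L : ℝ) ^ 2 * κ) ^ (t + 1) + (16 * L * κ / ε) ^ r +
          ((n : ℝ) ^ (2 / 3 : ℝ) * κ) ^ (t + 1)) +
            6 * d * (4 * d * ((K ^ 2 : ℕ) : ℝ) * κ) ^ (t + 1)) ≤ ε / 64 ∧
        s * ((d + 1) * (((n : ℝ) ^ (2 * t)) ^ 2 * (δ + δ))) ≤ ε / 64 := by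
  intro ε C hε hε4
  obtain ⟨A, hA⟩ : ∃ A : ℝ, A = 400 + 2 * (2000 / ε ^ 2) ^ 2 + 64 / ε ^ 2 := ⟨_, rfl⟩
  obtain ⟨Λ, hΛ2, hΛ⟩ := growth A
  have hC0 : (0 : ℝ) ≤ C := Nat.cast_nonneg C
  refine ⟨200 * (C + 1) + ⌈Λ⌉₊, fun k n d hk hn hd1 hd6 => ?_⟩
  have hkr : (2 : ℝ) ≤ k := by exact_mod_cast hk
  have hk4 : (4 : ℝ) ≤ (k : ℝ) ^ 2 := by
    calc (4 : ℝ) = 2 ^ 2 := by norm_num
      _ ≤ (k : ℝ) ^ 2 := pow_le_pow_left₀ (by norm_num) hkr 2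
  have hn0 : (0 : ℝ) < n := by
    have h1 : 0 < n := lt_of_lt_of_le (by positivity) hn
    exact_mod_cast h1
  obtain ⟨X, hX⟩ : ∃ X : ℝ, X = Real.logb 2 n := ⟨_, rfl⟩
  have hnX : (n : ℝ) = 2 ^ X := by
    rw [hX, Real.rpow_logb (by norm_num) (by norm_num) hn0]
  have hkX : (200 * ((C : ℝ) + 1) + ⌈Λ⌉₊) * (k : ℝ) ^ 2 ≤ X := by
    have h1 : (2 : ℝ) ^ ((200 * (C + 1) + ⌈Λ⌉₊) * k ^ 2) ≤ n := by exact_mod_cast hn
    rw [hnX, ← Real.rpow_natCast, Real.rpow_le_rpow_left_iff (by norm_num)] at h1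
    push_cast at h1
    exact h1
  have hΛc : Λ ≤ ⌈Λ⌉₊ := Nat.le_ceil Λ
  have hXΛ : Λ ≤ X := by
    have h1 : (⌈Λ⌉₊ : ℝ) * 1 ≤ ⌈Λ⌉₊ * (k : ℝ) ^ 2 :=
      mul_le_mul_of_nonneg_left (by linarith only [hk4]) (Nat.cast_nonneg _)
    have h2 : 0 ≤ 200 * ((C : ℝ) + 1) * (k : ℝ) ^ 2 := by positivity
    linarith only [h1, h2, hkX, hΛc]
  have hX2 : 2 ≤ X := hΛ2.trans hXΛ
  have hX0 : 0 < X := by linarith only [hX2]
  have hX1 : 1 ≤ X := by linarith only [hX2]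
  have hCk200 : (C : ℝ) * (k : ℝ) ^ 2 ≤ X / 200 := by
    have h1 : 0 ≤ (⌈Λ⌉₊ : ℝ) * (k : ℝ) ^ 2 := by positivity
    linarith only [h1, hkX, hk4]
  obtain ⟨y, hy⟩ : ∃ y : ℝ, y = (2 : ℝ) ^ (X / 29) := ⟨_, rfl⟩
  have hy0 : 0 < y := by rw [hy]; exact Real.rpow_pos_of_pos (by norm_num) _
  have hyn : (n : ℝ) = y ^ 29 := by
    rw [hy, ← Real.rpow_natCast, ← Real.rpow_mul (by norm_num), hnX]
    congr 1
    push_cast
    ring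
  have hAy : A * X ^ 4 ≤ y := hy ▸ hΛ X hXΛ
  rw [hA] at hAy
  have hX4 : (1 : ℝ) ≤ X ^ 4 := one_le_pow₀ hX1
  have hAy1 : 400 + 2 * (2000 / ε ^ 2) ^ 2 + 64 / ε ^ 2 ≤ y := by
    refine le_trans ?_ hAy
    exact le_mul_of_one_le_right (by positivity) hX4
  have hB0 : (0 : ℝ) ≤ 2 * (2000 / ε ^ 2) ^ 2 := by positivity
  have hE0 : (0 : ℝ) ≤ 64 / ε ^ 2 := by positivity
  have hy400 : 400 ≤ y := by linarith only [hAy1, hB0, hE0]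
  have hyE : 64 / ε ^ 2 ≤ y := by linarith only [hAy1, hB0]
  have hy1 : 1 ≤ y := by linarith only [hy400]
  have hy2 : 2 ≤ y := by linarith only [hy400]
  have hye : 16 / ε ≤ y := by
    refine le_trans ?_ hyE
    rw [div_le_div_iff₀ hε (by positivity)]
    have h1 : ε * ε ≤ ε * (1 / 4) := mul_le_mul_of_nonneg_left hε4 hε.le
    rw [sq]
    linarith only [h1, hε]
  -- `t`
  obtain ⟨t, ht⟩ : ∃ t : ℕ, t = ⌊y⌋₊ := ⟨_, rfl⟩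
  have ht1 : 1 ≤ t := by
    rw [ht]
    exact Nat.le_floor (by exact_mod_cast hy1)
  have hty : (t : ℝ) ≤ y := ht ▸ Nat.floor_le hy0.le
  have hyt : y < t + 1 := ht ▸ Nat.lt_floor_add_one _
  -- `κ`
  obtain ⟨κ, hκ⟩ : ∃ κ : ℝ, κ = (2 : ℝ) ^ (C * k ^ 2) / n := ⟨_, rfl⟩
  have hκ0 : 0 < κ := by rw [hκ]; positivity
  have hCk : (C : ℝ) * (k : ℝ) ^ 2 ≤ X / 29 := by
    linarith only [hCk200, hX0]
  have h2Ck : (2 : ℝ) ^ (C * k ^ 2) ≤ y := by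
    rw [hy, ← Real.rpow_natCast]
    apply Real.rpow_le_rpow_of_exponent_le (by norm_num)
    push_cast
    exact hCk
  have hκy : κ * y ^ 28 ≤ 1 := by
    rw [hκ, div_mul_eq_mul_div, div_le_one hn0, hyn]
    calc (2 : ℝ) ^ (C * k ^ 2) * y ^ 28 ≤ y * y ^ 28 :=
          mul_le_mul_of_nonneg_right h2Ck (by positivity)
      _ = y ^ 29 := by ring
  have hκ1 : κ ≤ 1 := by
    have h1 : (1 : ℝ) ≤ y ^ 28 := one_le_pow₀ hy1
    have h2 : κ * 1 ≤ κ * y ^ 28 := mul_le_mul_of_nonneg_left h1 hκ0.le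
    linarith only [h2, hκy]
  have h2Ck24 : ((2 : ℝ) ^ (C * k ^ 2)) ^ 24 ≤ y ^ 5 := by
    rw [hy, ← pow_mul, ← Real.rpow_natCast, ← Real.rpow_natCast, ← Real.rpow_mul (by norm_num)]
    apply Real.rpow_le_rpow_of_exponent_le (by norm_num)
    push_cast
    linarith only [hCk200, hX0]
  have hpow : (2 ^ (C * k ^ 2) * t) ^ 24 ≤ n := by
    have h1 : ((2 : ℝ) ^ (C * k ^ 2) * t) ^ 24 ≤ n := by
      rw [mul_pow]
      calc ((2 : ℝ) ^ (C * k ^ 2)) ^ 24 * (t : ℝ) ^ 24 ≤ y ^ 5 * y ^ 24 :=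
            mul_le_mul h2Ck24 (pow_le_pow_left₀ (Nat.cast_nonneg t) hty 24) (by positivity)
              (by positivity)
        _ = y ^ 29 := by ring
        _ = n := hyn.symm
    exact_mod_cast h1
  have hd0 : (0 : ℝ) ≤ d := Nat.cast_nonneg d
  have hd1r : (1 : ℝ) ≤ d := by exact_mod_cast hd1
  have hdy : (d : ℝ) ≤ y ^ 5 := by
    have h1 : (d : ℝ) ^ 6 ≤ (y ^ 5) ^ 6 := by
      have h2 : (d : ℝ) ^ 6 ≤ n := by exact_mod_cast hd6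
      refine h2.trans ?_
      rw [hyn, ← pow_mul]
      exact pow_le_pow_right₀ hy1 (by norm_num)
    exact le_of_pow_le_pow_left₀ (by norm_num) (by positivity) h1
  -- the other parameters
  obtain ⟨x, hx⟩ : ∃ x : ℕ, x = ⌈X⌉₊ := ⟨_, rfl⟩
  have hxge : X ≤ x := hx ▸ Nat.le_ceil _
  have hxle : (x : ℝ) ≤ 2 * X := by
    have h1 : (x : ℝ) < X + 1 := hx ▸ Nat.ceil_lt_add_one hX0.le
    linarith only [h1, hX1]
  obtain ⟨M, L, N, K, η, p1, p2, p3, p4, p5, p6, p7, p8, p9, p10, p11, p12, p13⟩ :=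
    choice hε hε4 hX2 hnX hAy ht1 hty hxge hxle
  have hK0 : (0 : ℝ) ≤ K := Nat.cast_nonneg K
  have hL0 : (0 : ℝ) ≤ L := Nat.cast_nonneg L
  have hLn : L ≤ n := by
    have h1 : (L : ℝ) ≤ n := by
      rw [hyn]
      exact p6.trans (pow_le_pow_right₀ hy1 (by norm_num))
    exact_mod_cast h1
  -- the small numbers
  have hz1 : (L : ℝ) ^ 2 * κ ≤ ε / 1000 := by
    apply small_kap (a := 6) hκ0.le hε hε4 hy400 hyE hκy _ (by norm_num)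
    calc (L : ℝ) ^ 2 ≤ (y ^ 3) ^ 2 := pow_le_pow_left₀ hL0 p6 2
      _ = y ^ 6 := by ring
  have hw1 : d * ((L : ℝ) ^ 2 * κ) ≤ ε / 1000 := by
    rw [← mul_assoc]
    apply small_kap (a := 11) hκ0.le hε hε4 hy400 hyE hκy _ (by norm_num)
    calc d * (L : ℝ) ^ 2 ≤ y ^ 5 * (y ^ 3) ^ 2 :=
          mul_le_mul hdy (pow_le_pow_left₀ hL0 p6 2) (by positivity) (by positivity)
      _ = y ^ 11 := by ring
  have hz2 : 16 * (L : ℝ) * κ / ε ≤ ε / 1000 := by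
    have h1 : 16 * (L : ℝ) * κ / ε = (16 / ε * L) * κ := by ring
    rw [h1]
    apply small_kap (a := 4) hκ0.le hε hε4 hy400 hyE hκy _ (by norm_num)
    calc 16 / ε * (L : ℝ) ≤ y * y ^ 3 := mul_le_mul hye p6 hL0 hy0.le
      _ = y ^ 4 := by ring
  have hw2 : d * (16 * (L : ℝ) * κ / ε) ≤ ε / 1000 := by
    have h1 : d * (16 * (L : ℝ) * κ / ε) = (d * (16 / ε * L)) * κ := by ring
    rw [h1]
    apply small_kap (a := 9) hκ0.le hε hε4 hy400 hyE hκy _ (by norm_num)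
    calc d * (16 / ε * (L : ℝ)) ≤ y ^ 5 * (y * y ^ 3) :=
          mul_le_mul hdy (mul_le_mul hye p6 hL0 hy0.le) (by positivity) (by positivity)
      _ = y ^ 9 := by ring
  have hK2 : (((K ^ 2 : ℕ) : ℕ) : ℝ) ≤ y ^ 8 := by
    push_cast
    calc (K : ℝ) ^ 2 ≤ (y ^ 4) ^ 2 := pow_le_pow_left₀ hK0 p13 2
      _ = y ^ 8 := by ring
  have h4K : 4 * (((K ^ 2 : ℕ) : ℕ) : ℝ) ≤ y * y ^ 8 :=
    mul_le_mul (by linarith only [hy400]) hK2 (Nat.cast_nonneg _) hy0.le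
  have hz3 : 4 * d * (((K ^ 2 : ℕ) : ℕ) : ℝ) * κ ≤ ε / 1000 := by
    apply small_kap (a := 14) hκ0.le hε hε4 hy400 hyE hκy _ (by norm_num)
    calc 4 * d * (((K ^ 2 : ℕ) : ℕ) : ℝ) = d * (4 * (((K ^ 2 : ℕ) : ℕ) : ℝ)) := by ring
      _ ≤ y ^ 5 * (y * y ^ 8) := mul_le_mul hdy h4K (by positivity) (by positivity)
      _ = y ^ 14 := by ring
  have hw3 : 6 * d * (4 * d * (((K ^ 2 : ℕ) : ℕ) : ℝ) * κ) ≤ ε / 1000 := by
    have h1 : 6 * d * (4 * d * (((K ^ 2 : ℕ) : ℕ) : ℝ) * κ) =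
        (6 * d * (d * (4 * (((K ^ 2 : ℕ) : ℕ) : ℝ)))) * κ := by ring
    rw [h1]
    apply small_kap (a := 20) hκ0.le hε hε4 hy400 hyE hκy _ (by norm_num)
    have h6 : 6 * (d : ℝ) ≤ y * y ^ 5 :=
      mul_le_mul (by linarith only [hy400]) hdy hd0 hy0.le
    calc 6 * d * (d * (4 * (((K ^ 2 : ℕ) : ℕ) : ℝ))) ≤ (y * y ^ 5) * (y ^ 5 * (y * y ^ 8)) :=
          mul_le_mul h6 (mul_le_mul hdy h4K (by positivity) (by positivity)) (by positivity)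
            (by positivity)
      _ = y ^ 20 := by ring
  have hy23 : (n : ℝ) ^ (2 / 3 : ℝ) ≤ y ^ 20 := by
    rw [hnX, hy, ← Real.rpow_natCast, ← Real.rpow_mul (by norm_num),
      ← Real.rpow_mul (by norm_num)]
    apply Real.rpow_le_rpow_of_exponent_le (by norm_num)
    push_cast
    linarith only [hX0]
  have hz4 : (n : ℝ) ^ (2 / 3 : ℝ) * κ ≤ ε / 1000 :=
    small_kap (a := 20) hκ0.le hε hε4 hy400 hyE hκy hy23 (by norm_num)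
  have hw4 : d * ((n : ℝ) ^ (2 / 3 : ℝ) * κ) ≤ ε / 1000 := by
    rw [← mul_assoc]
    apply small_kap (a := 25) hκ0.le hε hε4 hy400 hyE hκy _ (by norm_num)
    calc d * (n : ℝ) ^ (2 / 3 : ℝ) ≤ y ^ 5 * y ^ 20 :=
          mul_le_mul hdy hy23 (by positivity) (by positivity)
      _ = y ^ 25 := by ring
  have hK2κ : (((K ^ 2 : ℕ) : ℕ) : ℝ) * κ ≤ ε / 128 := by
    have h1 : 0 ≤ (((K ^ 2 : ℕ) : ℕ) : ℝ) * κ := by positivity
    have h2 : 4 * d * (((K ^ 2 : ℕ) : ℕ) : ℝ) * κ = 4 * (d * ((((K ^ 2 : ℕ) : ℕ) : ℝ) * κ)) := by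
      ring
    have h3 : 1 * ((((K ^ 2 : ℕ) : ℕ) : ℝ) * κ) ≤ d * ((((K ^ 2 : ℕ) : ℕ) : ℝ) * κ) :=
      mul_le_mul_of_nonneg_right hd1r h1
    linarith only [h1, h2, h3, hz3, hε]
  have hK1 : 1 ≤ K := by
    have h1 : 1 ≤ 16 * N * t ^ 2 := Nat.one_le_iff_ne_zero.2 (by
      have : N ≠ 0 := by omega
      have : t ≠ 0 := by omega
      positivity)
    omega
  refine ⟨t, M, L, 2 * t + 2, N, K, η, κ, ((n : ℝ) ^ (6 * t))⁻¹, hκ, rfl, ht1, hpow, hκ1, p1, p2,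
    p3, p4, p5, hLn, p7, p8, p9, p10, p11, p12, hK1, hK2κ, ?_, fun s hs => ?_⟩
  · have h1 := last (s := 0) hε hyn hyE hy400 ht1 hty (by positivity)
    rw [zero_mul, zero_add] at h1
    refine h1.le.trans ?_
    calc (1 / 2 : ℝ) ^ (2 * t) ≤ (1 / 2) ^ 2 :=
          pow_le_pow_of_le_one (by norm_num) (by norm_num) (by omega)
      _ = 1 / 4 := by norm_num
  have hs2 : (s : ℝ) ≤ 2 ^ (t + 1) := by
    refine hs.le.trans ?_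
    rw [← Real.rpow_natCast (2 : ℝ) (t + 1)]
    apply Real.rpow_le_rpow_of_exponent_le (by norm_num)
    have h1 : (n : ℝ) ^ (1 / 30 : ℝ) ≤ y := by
      rw [hnX, ← Real.rpow_mul (by norm_num), hy]
      apply Real.rpow_le_rpow_of_exponent_le (by norm_num)
      linarith only [hX0]
    push_cast
    linarith only [h1, hyt]
  have hs0 : (0 : ℝ) ≤ s := Nat.cast_nonneg s
  have hlast : s * ((d + 1) * (((n : ℝ) ^ (2 * t)) ^ 2 *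
      (((n : ℝ) ^ (6 * t))⁻¹ + ((n : ℝ) ^ (6 * t))⁻¹))) ≤ ε / 64 := by
    have h1 : ((n : ℝ) ^ (2 * t)) ^ 2 * (((n : ℝ) ^ (6 * t))⁻¹ + ((n : ℝ) ^ (6 * t))⁻¹) =
        2 * ((n : ℝ)⁻¹ ^ 2) ^ t := by
      have h2 : (n : ℝ) ^ (6 * t) = ((n : ℝ) ^ (2 * t)) ^ 2 * (n : ℝ) ^ (2 * t) := by
        rw [← pow_mul, ← pow_add]
        congr 1
        ring
      have h3 : (n : ℝ) ^ (2 * t) ≠ 0 := by positivity
      rw [h2, ← pow_mul (n : ℝ)⁻¹ 2 t, inv_pow]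
      field_simp
      ring
    have hny : y ^ 7 ≤ n := by
      rw [hyn]
      exact pow_le_pow_right₀ hy1 (by norm_num)
    have hn1 : (1 : ℝ) ≤ n := (one_le_pow₀ hy1).trans hny
    have hni : (n : ℝ)⁻¹ ≤ 1 := inv_le_one_of_one_le₀ hn1
    have h4 : d * (n : ℝ)⁻¹ ≤ ε / 2000 := by
      have h5 : d * (2000 / ε) ≤ n := by
        have h6 : 2000 / ε ≤ y * y := by
          have h7 : 2000 / ε ≤ 400 * (64 / ε ^ 2) := by
            have h8 : 400 * (64 / ε ^ 2) = 25600 / ε ^ 2 := by ring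
            rw [h8, div_le_div_iff₀ hε (by positivity)]
            nlinarith only [hε, hε4]
          exact h7.trans (mul_le_mul hy400 hyE (by positivity) hy0.le)
        calc d * (2000 / ε) ≤ y ^ 5 * (y * y) := mul_le_mul hdy h6 (by positivity) (by positivity)
          _ = y ^ 7 := by ring
          _ ≤ n := hny
      rw [mul_inv_le_iff₀ hn0]
      rw [mul_div_assoc', div_le_iff₀ hε] at h5
      linarith only [h5]
    have h5 : (s : ℝ) * ((n : ℝ)⁻¹ ^ 2) ^ t ≤ 4 * (n : ℝ)⁻¹ := by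
      have h6 : (n : ℝ)⁻¹ ≤ 1 / 4 := by
        have h7 : 1 * (n : ℝ)⁻¹ ≤ d * (n : ℝ)⁻¹ :=
          mul_le_mul_of_nonneg_right hd1r (by positivity)
        linarith only [h7, h4, hε4]
      have h7 : (n : ℝ)⁻¹ ^ 2 ≤ (n : ℝ)⁻¹ := by
        rw [pow_two]
        exact mul_le_of_le_one_left (by positivity) hni
      calc (s : ℝ) * ((n : ℝ)⁻¹ ^ 2) ^ t ≤ 2 ^ (t + 1) * ((n : ℝ)⁻¹ ^ 2) ^ t :=
            mul_le_mul_of_nonneg_right hs2 (by positivity)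
        _ = 2 * (2 * (n : ℝ)⁻¹ ^ 2) ^ t := by rw [pow_succ, mul_pow]; ring
        _ ≤ 2 * (2 * (n : ℝ)⁻¹ ^ 2) ^ 1 := by
            apply mul_le_mul_of_nonneg_left _ (by norm_num)
            exact pow_le_pow_of_le_one (by positivity) (by linarith only [h6, h7]) ht1
        _ ≤ 4 * (n : ℝ)⁻¹ := by rw [pow_one]; linarith only [h7]
    rw [h1]
    have h6 : s * ((d + 1) * (2 * ((n : ℝ)⁻¹ ^ 2) ^ t)) =
        2 * (d + 1) * (s * ((n : ℝ)⁻¹ ^ 2) ^ t) := by ring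
    rw [h6]
    have h7 : 2 * ((d : ℝ) + 1) * (s * ((n : ℝ)⁻¹ ^ 2) ^ t) ≤ 2 * (d + 1) * (4 * (n : ℝ)⁻¹) :=
      mul_le_mul_of_nonneg_left h5 (by positivity)
    have h8 : 1 * (n : ℝ)⁻¹ ≤ d * (n : ℝ)⁻¹ := mul_le_mul_of_nonneg_right hd1r (by positivity)
    have h9 : 2 * ((d : ℝ) + 1) * (4 * (n : ℝ)⁻¹) = 8 * (d * (n : ℝ)⁻¹) + 8 * (1 * (n : ℝ)⁻¹) := by
      ring
    linarith only [h7, h8, h9, h4, hε]
  refine ⟨?_, hlast⟩
  have hn1 : 0 ≤ (L : ℝ) ^ 2 * κ := by positivity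
  have hn2 : 0 ≤ 16 * (L : ℝ) * κ / ε := by positivity
  have hn3 : 0 ≤ 4 * d * (((K ^ 2 : ℕ) : ℕ) : ℝ) * κ := by positivity
  have hn4 : 0 ≤ (n : ℝ) ^ (2 / 3 : ℝ) * κ := by positivity
  have e1 := small_pow hs2 hn1 hd0 (by linarith only [hz1, hε4]) hw1
  have e3 := small_pow (c := 6 * d) hs2 hn3 (by positivity) (by linarith only [hz3, hε4]) hw3
  have e2 : (s : ℝ) * (d * (16 * (L : ℝ) * κ / ε) ^ (2 * t + 2)) ≤ ε / 500 := by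
    refine le_trans ?_ (small_pow hs2 hn2 hd0 (by linarith only [hz2, hε4]) hw2)
    apply mul_le_mul_of_nonneg_left _ hs0
    apply mul_le_mul_of_nonneg_left _ hd0
    exact pow_le_pow_of_le_one hn2 (by linarith only [hz2, hε4]) (by omega)
  have e5 := small_pow hs2 hn4 hd0 (by linarith only [hz4, hε4]) hw4
  have e4 : (s : ℝ) * (d * (((L : ℝ) ^ 2 * κ) ^ (t + 1) + (16 * L * κ / ε) ^ (2 * t + 2) +
      ((n : ℝ) ^ (2 / 3 : ℝ) * κ) ^ (t + 1)) +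
      6 * d * (4 * d * (((K ^ 2 : ℕ) : ℕ) : ℝ) * κ) ^ (t + 1)) =
      s * (d * ((L : ℝ) ^ 2 * κ) ^ (t + 1)) + s * (d * (16 * L * κ / ε) ^ (2 * t + 2)) +
        s * (d * ((n : ℝ) ^ (2 / 3 : ℝ) * κ) ^ (t + 1)) +
        s * (6 * d * (4 * d * (((K ^ 2 : ℕ) : ℕ) : ℝ) * κ) ^ (t + 1)) := by ring
  rw [e4]
  linarith only [e1, e2, e3, e5, hε]

end Pool.Agent.Lib.MP_cff830_lc.ZR
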