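import Pool.Agent.Lib.MP_cff830_lc.ZR.Defs
import Pool.Agent.Lib.MP_cff830_lc.MR.Basic

/-!
# Finite probability distributions
-/

set_option autoImplicit false

namespace Pool.Agent.Lib.MP_cff830_lc.ZR

open Finset MR

theorem prob_nonneg {ι : Type} [Fintype ι] {p : ι → ℝ} (hp : ∀ i, 0 ≤ p i) (A : ι → Prop) :
    0 ≤ prob p A := by
  classical
  unfold prob
  refine sum_nonneg fun i _ => ?_
  split_ifs
  · exact hp i
  · exact le_rfl

theorem prob_mono {ι : Type} [Fintype ι] {p : ι → ℝ} (hp : ∀ i, 0 ≤ p i) {A B : ι → Prop}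
    (h : ∀ i, A i → B i) : prob p A ≤ prob p B := by
  classical
  unfold prob
  refine sum_le_sum fun i _ => ?_
  by_cases hA : A i
  · rw [if_pos hA, if_pos (h i hA)]
  · rw [if_neg hA]
    split_ifs
    · exact hp i
    · exact le_rfl

theorem prob_le_one {ι : Type} [Fintype ι] {p : ι → ℝ} (hp : IsDist p) (A : ι → Prop) :
    prob p A ≤ 1 := by
  classical
  rw [← hp.2]
  unfold prob
  refine sum_le_sum fun i _ => ?_
  split_ifs
  · exact le_rfl
  · exact hp.1 i

/-- Both of two events. -/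
theorem prob_and {ι : Type} [Fintype ι] {p : ι → ℝ} (hp : IsDist p) (A B : ι → Prop) :
    prob p A + prob p B ≤ 1 + prob p fun i => A i ∧ B i := by
  classical
  rw [← hp.2]
  unfold prob
  rw [← sum_add_distrib, ← sum_add_distrib]
  refine sum_le_sum fun i _ => ?_
  have h := hp.1 i
  by_cases hA : A i <;> by_cases hB : B i <;> simp [hA, hB, h]

/-- Exchange of two averages. -/
theorem prob_swap {ι κ : Type} [Fintype ι] [Fintype κ] (p : ι → ℝ) (q : κ → ℝ)
    (A : ι → κ → Prop) : ∑ i, p i * prob q (A i) = ∑ j, q j * prob p fun i => A i j := by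
  classical
  unfold prob
  simp only [mul_sum]
  rw [sum_comm]
  refine sum_congr rfl fun j _ => sum_congr rfl fun i _ => ?_
  by_cases h : A i j
  · rw [if_pos h, if_pos h, mul_comm]
  · rw [if_neg h, if_neg h, mul_zero, mul_zero]

/-- The minimax principle: if every member of the first family is bad on average over the second
one, then some member of the second one is bad on average over the first one. -/
theorem minimax {ι κ : Type} [Fintype ι] [Fintype κ] {p : ι → ℝ} {q : κ → ℝ} (hp : IsDist p)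
    (hq : IsDist q) (A : ι → κ → Prop) (e : ℝ) (h : ∀ i, prob q (A i) ≤ e) :
    ∃ j, prob p (fun i => A i j) ≤ e := by
  classical
  by_contra hcon
  push Not at hcon
  have h1 : ∑ i, p i * prob q (A i) ≤ e := by
    calc ∑ i, p i * prob q (A i) ≤ ∑ i, p i * e :=
          sum_le_sum fun i _ => mul_le_mul_of_nonneg_left (h i) (hp.1 i)
      _ = e := by rw [← sum_mul, hp.2, one_mul]
  rw [prob_swap] at h1
  have h2 : ∑ j, q j * (prob p (fun i => A i j) - e) ≤ 0 := by
    have h3 : ∑ j, q j * (prob p (fun i => A i j) - e) =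
        ∑ j, q j * prob p (fun i => A i j) - e := by
      simp only [mul_sub, sum_sub_distrib]
      rw [← sum_mul, hq.2, one_mul]
    rw [h3]
    linarith
  have h4 : ∀ j ∈ (univ : Finset κ), 0 ≤ q j * (prob p (fun i => A i j) - e) := fun j _ =>
    mul_nonneg (hq.1 j) (by linarith [hcon j])
  have h5 : ∀ j, q j = 0 := by
    intro j
    have h6 := (sum_eq_zero_iff_of_nonneg h4).1 (le_antisymm h2 (sum_nonneg h4)) j (mem_univ j)
    rcases mul_eq_zero.1 h6 with h7 | h7
    · exact h7
    · exact absurd h7 (by linarith [hcon j])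
  have h6 := hq.2
  simp only [h5, sum_const_zero] at h6
  exact zero_ne_one h6

/-- Independent tests, conditioned on two events. -/
theorem pair_dist {n : ℕ} {Ω : Type} [Fintype Ω] [Nonempty Ω] {ρ : ℝ} (h0 : 0 ≤ ρ) (h1 : ρ ≤ 1)
    (A : Ω → Prop) (B : Finset (Fin n) → Prop) (hA : 1 / 2 ≤ prP A) (hB : 3 / 4 ≤ prN ρ B) :
    ∃ (Ω₁ : Type) (_ : Fintype Ω₁) (P₁ : Ω₁ → ℝ) (x : Ω₁ → Ω) (y : Ω₁ → Finset (Fin n)),
      IsDist P₁ ∧ (∀ z, A (x z) ∧ B (y z)) ∧
      ∀ (C : Ω → Prop) (D : Finset (Fin n) → Prop),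
        prob P₁ (fun z => C (x z) ∨ D (y z)) ≤ 4 * (prP C + prN ρ D) := by
  classical
  set q : Ω × Finset (Fin n) → ℝ := fun z => bern ρ z.2 / Fintype.card Ω with hq
  have hc : (0 : ℝ) < Fintype.card Ω := by exact_mod_cast Fintype.card_pos
  have hq0 : ∀ z, 0 ≤ q z := fun z => div_nonneg (bern_nonneg h0 h1 _) hc.le
  -- product events
  have hprod : ∀ (C : Ω → Prop) (D : Finset (Fin n) → Prop),
      ∑ z, (if C z.1 ∧ D z.2 then q z else 0) = prP C * prN ρ D := by
    intro C D
    rw [Fintype.sum_prod_type, prP_eq, prN, div_mul_eq_mul_div, mul_comm, ← nsmul_eq_mul',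
      ← Finset.sum_const, ← Finset.sum_filter_add_sum_filter_not univ C]
    have e1 : ∑ ω ∈ univ.filter (fun ω => ¬ C ω), ∑ I : Finset (Fin n),
        (if C ω ∧ D I then q (ω, I) else 0) = 0 := by
      refine sum_eq_zero fun ω hω => sum_eq_zero fun I _ => if_neg fun h => ?_
      exact (mem_filter.1 hω).2 h.1
    rw [e1, add_zero, Finset.sum_div]
    refine sum_congr rfl fun ω hω => ?_
    rw [Finset.sum_div]
    refine sum_congr rfl fun I _ => ?_
    have hCω := (mem_filter.1 hω).2
    by_cases hD : D I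
    · rw [if_pos ⟨hCω, hD⟩, if_pos hD]
    · rw [if_neg fun h => hD h.2, if_neg hD, zero_div]
  have hZ := hprod A B
  set Z : ℝ := ∑ z, (if A z.1 ∧ B z.2 then q z else 0) with hZd
  have hZ4 : 1 / 4 ≤ Z := by
    rw [hZ]
    calc (1 / 4 : ℝ) ≤ 1 / 2 * (3 / 4) := by norm_num
      _ ≤ prP A * prN ρ B := mul_le_mul hA hB (by norm_num) (prP_nonneg A)
  have hZ0 : 0 < Z := by linarith
  have hsub : ∀ f : Ω × Finset (Fin n) → ℝ,
      ∑ z : {z : Ω × Finset (Fin n) // A z.1 ∧ B z.2}, f z =
        ∑ z, (if A z.1 ∧ B z.2 then f z else 0) := by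
    intro f
    rw [← Finset.sum_filter, Finset.sum_subtype (univ.filter fun z : Ω × Finset (Fin n) =>
      A z.1 ∧ B z.2) (fun z => ⟨fun h => (mem_filter.1 h).2, fun h => mem_filter.2
        ⟨mem_univ _, h⟩⟩) f]
  refine ⟨{z : Ω × Finset (Fin n) // A z.1 ∧ B z.2}, inferInstance, fun z => q z / Z,
    fun z => z.1.1, fun z => z.1.2, ⟨fun z => div_nonneg (hq0 _) hZ0.le, ?_⟩,
    fun z => z.2, fun C D => ?_⟩
  · rw [← Finset.sum_div, hsub q, div_self hZ0.ne']
  · have e1 : prob (fun z : {z : Ω × Finset (Fin n) // A z.1 ∧ B z.2} => q z / Z)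
        (fun z => C z.1.1 ∨ D z.1.2) =
        (∑ z : {z : Ω × Finset (Fin n) // A z.1 ∧ B z.2},
          if C z.1.1 ∨ D z.1.2 then q z else 0) / Z := by
      unfold prob
      rw [Finset.sum_div]
      refine sum_congr rfl fun z _ => ?_
      by_cases h : C z.1.1 ∨ D z.1.2
      · rw [if_pos h, if_pos h]
      · rw [if_neg h, if_neg h, zero_div]
    rw [e1, hsub fun z => if C z.1 ∨ D z.2 then q z else 0]
    have e2 : (∑ z : Ω × Finset (Fin n), if A z.1 ∧ B z.2 then
        (if C z.1 ∨ D z.2 then q z else 0) else 0) ≤ prP C + prN ρ D := by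
      have e3 : prP C = ∑ z : Ω × Finset (Fin n), (if C z.1 then q z else 0) := by
        have h := hprod C fun _ => True
        rw [prN_true, mul_one] at h
        rw [← h]
        refine sum_congr rfl fun z _ => ?_
        by_cases hC : C z.1 <;> simp [hC]
      have e4 : prN ρ D = ∑ z : Ω × Finset (Fin n), (if D z.2 then q z else 0) := by
        have h := hprod (fun _ => True) D
        rw [prP_true, one_mul] at h
        rw [← h]
        refine sum_congr rfl fun z _ => ?_
        by_cases hD : D z.2 <;> simp [hD]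
      rw [e3, e4, ← sum_add_distrib]
      refine sum_le_sum fun z _ => ?_
      have h2 := hq0 z
      by_cases hAB : A z.1 ∧ B z.2
      · rw [if_pos hAB]
        by_cases hC : C z.1 <;> by_cases hD : D z.2 <;> simp [hC, hD, h2]
      · rw [if_neg hAB]
        by_cases hC : C z.1 <;> by_cases hD : D z.2 <;> simp [hC, hD, h2]
    have h3 : 0 ≤ prP C + prN ρ D := add_nonneg (prP_nonneg C) (prN_nonneg h0 h1 D)
    rw [div_le_iff₀ hZ0]
    refine e2.trans ?_
    nlinarith
end Pool.Agent.Lib.MP_cff830_lc.ZR
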