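import Pool.Agent.Lib.MP_cff830_lc.ZR.Gates
import Pool.Agent.Lib.MP_cff830_lc.ZR.Leaf
import Pool.Agent.Lib.MP_cff830_lc.ZR.Num
import Pool.Agent.Lib.MP_cff830_lc.ZR.Prob
import Pool.Agent.Lib.MP_cff830_lc.MR.MainY

/-!
# Monotone circuits fail on random tests
-/

set_option autoImplicit false

namespace Pool.Agent.Lib.MP_cff830_lc.ZR

open Finset MR

/-- Monotone circuits of size less than `2 ^ (n ^ (1 / 30))` do not separate random positive tests
from random negative tests. -/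
def StAvg : Prop := ∀ ε : ℝ, 0 < ε → ∃ C : ℕ, ∀ k l d n : ℕ, 2 ≤ k → 1 ≤ d → d ^ 6 ≤ n →
  2 ^ (C * k ^ 2) ≤ n → l * 2 ^ (C * k ^ 2) ≤ n →
  ∃ (Ω : Type) (_ : Fintype Ω) (P : Ω → ℝ) (X X' : Ω → SimpleGraph (Fin n)), IsDist P ∧
    (∀ ω, (1 - ε) * (n : ℝ) ≤ minCover (X ω) (fun _ => 1) ∧
      minCover (X' ω) (fun _ => 1) ≤ (1 / 2 + ε) * (n : ℝ)) ∧
    ∀ (s : ℕ) (F : Fin s → SimpleGraph (Fin n) → ℝ), IsMono (IsInput k l) d F → ∀ o : Fin s,
      (s : ℝ) < (2 : ℝ) ^ ((n : ℝ) ^ (1 / 30 : ℝ)) →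
        prob P (fun ω => F o (X' ω) < F o (X ω)) ≤ ε

open MainYAux in
theorem stAvg (hPos : StPosZ) (hUp : StUp) (hUpL : StUpL) (hRel : StRel) (hLow : StLowX)
    (hBern : StBern) (hHoef : StHoef) (hSm : StSmall) (hDi : StDich) (hClos : StClos)
    (hSpread : StSpread) : StAvg := by
  classical
  intro ε hε
  set e : ℝ := min ε (1 / 4) with he
  have he0 : 0 < e := lt_min hε (by norm_num)
  have he1 : e ≤ 1 / 4 := min_le_right _ _
  have he2 : e ≤ ε := min_le_left _ _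
  obtain ⟨C, hC⟩ := hPos (e / 8) (by positivity)
  obtain ⟨C', hc⟩ := numZ e C he0 he1
  refine ⟨max C C', fun k l d n hk hd1 hd6 hn hln => ?_⟩
  have hn' : 2 ^ (C' * k ^ 2) ≤ n := by
    refine le_trans (Nat.pow_le_pow_right (by norm_num) ?_) hn
    exact Nat.mul_le_mul_right _ (le_max_right _ _)
  have hln' : l * 2 ^ (C * k ^ 2) ≤ n := by
    refine le_trans (Nat.mul_le_mul_left _ (Nat.pow_le_pow_right (by norm_num) ?_)) hln
    exact Nat.mul_le_mul_right _ (le_max_left _ _)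
  obtain ⟨t, M, L, r, N, K, η, κ, δ, hκ, hδ, ht, hCn, hκ1, hη0, hη1, hη2, hM, hML, hL, hL2, hδ1,
    hδ2, hN, hδ3, hK, hK1, hK2, hex, hs⟩ := hc k n d hk hn' hd1 hd6
  have hn1 : 1 ≤ n := le_trans (Nat.one_le_pow _ _ (by positivity)) hCn
  have hnR : (0 : ℝ) < n := by exact_mod_cast hn1
  obtain ⟨Ω, iΩ, iN, H, hsp, h3c, hsol, hloc, hcov⟩ := hC k l n t (by omega) ht hCn hln'
  rw [← hκ] at hsp
  have hκ0 : 0 ≤ κ := by rw [hκ]; positivity
  have hδ0 : 0 ≤ δ := by rw [hδ]; positivity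
  have hmin : min (1 / 2 + e / 8) (1 : ℝ) = 1 / 2 + e / 8 := min_eq_left (by linarith)
  rw [hmin] at hloc
  set ρ : ℝ := 1 / 2 - e / 2 with hρ
  have hρ3 : 0 < ρ := by rw [hρ]; linarith
  have hρ0 : 0 ≤ ρ := hρ3.le
  have hρ1 : ρ ≤ 1 / 2 := by rw [hρ]; linarith
  have hρ2 : ρ ≤ 1 := by linarith
  -- covers of the positive tests
  have hA : 1 / 2 ≤ prP fun ω => (1 - e) * (n : ℝ) ≤ minCover (H ω) fun _ => 1 := by
    refine hcov.trans (prP_mono fun ω hω => ?_)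
    obtain ⟨-, -, -, -, -, -, -, ⟨U, hU1, hU2⟩, -⟩ :=
      hRel n (H ω) (fun _ => 1) fun _ => zero_le_one
    rw [← hU2, wt_one]
    refine le_trans ?_ (hω U hU1)
    exact mul_le_mul_of_nonneg_right (by linarith) hnR.le
  -- covers of the negative tests
  have hB : 3 / 4 ≤ prN ρ fun I : Finset (Fin n) => (minCover (negG I) fun _ => 1) ≤ (1 / 2 + e) * (n : ℝ) := by
    have h2 := (hHoef n ρ (e / 2) (1 / n) (fun _ => 1) univ hρ0 hρ2 (by positivity)
      (by linarith) (by positivity) (fun _ => zero_le_one) (fun v _ => by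
        rw [wt_one, card_univ, Fintype.card_fin]
        field_simp
        exact le_rfl)).2
    have h4 : (e / 2) ^ 2 / (4 * (1 / (n : ℝ))) = (e / 2) ^ 2 * n / 4 := by
      field_simp
    rw [h4] at h2
    have h3 : prN ρ (fun _ : Finset (Fin n) => True) ≤
        prN ρ (fun I : Finset (Fin n) => (minCover (negG I) fun _ => 1) ≤
          (1 / 2 + e) * (n : ℝ)) +
        Real.exp (-((e / 2) ^ 2 * n / 4)) := by
      refine le_trans (prN_mono hρ0 hρ2 ?_) ((prN_or hρ0 hρ2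
        (fun I : Finset (Fin n) => (minCover (negG I) fun _ => 1) ≤ (1 / 2 + e) * (n : ℝ)) fun I =>
        (1 - ρ + e / 2) * wt (fun _ => (1 : ℝ)) (univ : Finset (Fin n)) <
          wt (fun _ => (1 : ℝ)) (univ \ I)).trans (add_le_add le_rfl h2))
      intro I _
      by_cases h5 : (minCover (negG I) fun _ => 1) ≤ (1 / 2 + e) * (n : ℝ)
      · exact Or.inl h5
      · right
        obtain ⟨-, -, -, -, -, -, h6, -⟩ := hRel n (negG I) (fun _ => 1) fun _ => zero_le_one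
        have h7 := h6 _ (cover_negG I)
        have h8 : (univ \ I : Finset (Fin n)) = Iᶜ := by
          ext v
          simp
        rw [h8, wt_one, wt_one] at *
        rw [card_univ, Fintype.card_fin]
        have h9 : (1 - ρ + e / 2) * (n : ℝ) ≤ (1 / 2 + e) * n :=
          mul_le_mul_of_nonneg_right (by rw [hρ]; linarith) hnR.le
        linarith
    rw [prN_true] at h3
    linarith
  obtain ⟨Ω₁, i1, P₁, x, y, hP₁, hxy, hpr⟩ := pair_dist hρ0 hρ2 _ _ hA hB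
  refine ⟨Ω₁, i1, P₁, fun z => H (x z), fun z => negG (y z), hP₁, fun z => ⟨?_, ?_⟩, ?_⟩
  · refine le_trans ?_ (hxy z).1
    exact mul_le_mul_of_nonneg_right (by linarith) hnR.le
  · refine (hxy z).2.trans ?_
    exact mul_le_mul_of_nonneg_right (by linarith) hnR.le
  intro s F hF o hso
  obtain ⟨hs1, hs2⟩ := hs s hso
  have hK2' : ((K ^ 2 : ℕ) : ℝ) * κ ≤ 1 / 2 := by linarith
  obtain ⟨P, Q, hP, hQ, hsig⟩ := gatesZ hClos n t (K ^ 2) s d ρ δ δ κ
    (((L : ℝ) ^ 2 * κ) ^ (t + 1) + (16 * L * κ / e) ^ r +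
      ((n : ℝ) ^ (2 / 3 : ℝ) * κ) ^ (t + 1)) Ω H (IsInput k l) F hρ0 hρ2
    (Nat.one_le_pow _ _ hK1) hd1 hδ0 hδ0 hκ0 hK2'
    (by positivity) hsp
    (fun g hg J i => by
      rw [← pow_mul]
      exact jumpR hSpread hρ3 hρ1 hN hδ3 hK hg J i)
    (fun R hR => leafAll hUp hUpL hRel hLow hBern hHoef hSm hDi n k l t M L r e η κ δ Ω H hk he0
      he1 hη0 hη1 hη2 hκ0 hM hML hL hL2 hδ1 hδ2 hsp h3c hsol hloc R hR) hF
  obtain ⟨g, hcl, hgP, hgQ⟩ := hsig o
  have hJ := jump_small (t := t) H hκ0 hsp hK2' (g := g) (fun i => by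
      have := jumpR hSpread hρ3 hρ1 hN hδ3 hK hcl ∅ i
      rw [← pow_mul]
      convert this)
  set J : Ω → Prop := fun ω => ∃ E ∈ (rj t g ∅).filter fun E => E.Nonempty, In E (H ω) with hJd
  have hfin := hpr (fun ω => P ω ∨ J ω) Q
  have h1 : prob P₁ (fun z => F o (negG (y z)) < F o (H (x z))) ≤
      prob P₁ (fun z => (P (x z) ∨ J (x z)) ∨ Q (y z)) := by
    refine prob_mono hP₁.1 fun z hz => ?_
    by_contra hcon
    simp only [not_or] at hcon
    obtain ⟨⟨h2, h3⟩, h4⟩ := hcon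
    obtain ⟨E, hEt, hEH, hEF⟩ := hgP (x z) h2
    obtain ⟨E', hE', hEE', hF'⟩ := exists_rj (U := ∅) E.card E le_rfl hEt (empty_subset _) hEF
    have h5 : E' = ∅ := by
      by_contra hne
      exact h3 ⟨E', mem_filter.2 ⟨hE', nonempty_iff_ne_empty.2 hne⟩, hEH.mono hEE'⟩
    rw [h5] at hF'
    have h6 := hgQ (y z) h4 ∅ (GatesAux.empty_mem_terms n t) (fun e he => absurd he (notMem_empty e))
    exact absurd hz (not_lt.2 (hF'.trans h6))
  have h2 := prP_or P J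
  have h5 : s * ((d + 1) * (((terms n t).card : ℝ) ^ 2 * (δ + δ))) ≤
      s * ((d + 1) * (((n : ℝ) ^ (2 * t)) ^ 2 * (δ + δ))) := by
    have h6 : ((terms n t).card : ℝ) ≤ (n : ℝ) ^ (2 * t) := by exact_mod_cast hClos.2 n t hn1
    have h7 : ((terms n t).card : ℝ) ^ 2 ≤ ((n : ℝ) ^ (2 * t)) ^ 2 :=
      pow_le_pow_left₀ (by positivity) h6 2
    refine mul_le_mul_of_nonneg_left (mul_le_mul_of_nonneg_left
      (mul_le_mul_of_nonneg_right h7 (by linarith)) (by positivity)) (by positivity)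
  show prob P₁ (fun z => F o (negG (y z)) < F o (H (x z))) ≤ ε
  linarith

end Pool.Agent.Lib.MP_cff830_lc.ZR
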