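import Pool.Agent.Lib.MP_cff830_lc.MR.Defs

/-!
# Circuits over relaxations of vertex cover: the definitions of the statement
-/

set_option autoImplicit false

namespace Pool.Agent.Lib.MP_cff830_lc.ZR

open Finset MR

/-- The relaxations that the monotone circuits may use, for given weights `w`: `R` is the value of
the standard linear programme, or any function between the value of the linear programme with the
edge and triangle constraints and the larger one of the values of level `k` of the Sherali-Adams SDP
hierarchy and of level `l` of the local LP hierarchy. -/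
def IsBound {n : ℕ} (k l : ℕ) (w : Fin n → ℝ) (R : SimpleGraph (Fin n) → ℝ) : Prop :=
  (∀ G, R G = edgeLP G w) ∨
    ∀ G, triangleLP G w ≤ R G ∧ R G ≤ max (sdpValue G k w) (localLP G l w)

/-- Nondecreasing functions of the subgraph induced on some set `S` of at most `r ^ (1 / 3)`
vertices: `g G ≤ g G'` whenever all edges of `G` inside `S` are edges of `G'`. -/
def IsLocalFn {n : ℕ} (r : ℕ) (g : SimpleGraph (Fin n) → ℝ) : Prop :=
  ∃ S : Finset (Fin n), S.card ^ 3 ≤ r ∧
    ∀ G G' : SimpleGraph (Fin n), (∀ u ∈ S, ∀ v ∈ S, G.Adj u v → G'.Adj u v) → g G ≤ g G'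

/-- The inputs of the monotone circuits: relaxations, for some nonnegative weights, and nondecreasing
functions of small induced subgraphs (for instance whether two given vertices are adjacent). -/
def IsInput {n : ℕ} (k l : ℕ) (g : SimpleGraph (Fin n) → ℝ) : Prop :=
  (∃ w : Fin n → ℝ, (∀ v, 0 ≤ w v) ∧ IsBound k l w g) ∨ IsLocalFn n g

/-- The inputs of the circuits with NOT gates: the value, for some nonnegative weights, of the
standard linear programme, of a level `3, ..., l` of the local LP hierarchy or of a level
`3, ..., k` of the Sherali-Adams SDP hierarchy, and nondecreasing functions of small induced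
subgraphs. -/
def IsValue {n : ℕ} (k l r : ℕ) (g : SimpleGraph (Fin n) → ℝ) : Prop :=
  (∃ w : Fin n → ℝ, (∀ v, 0 ≤ w v) ∧ ((∀ G, g G = edgeLP G w) ∨
    ∃ j, 3 ≤ j ∧ ((j ≤ l ∧ ∀ G, g G = localLP G j w) ∨ j ≤ k ∧ ∀ G, g G = sdpValue G j w))) ∨
  IsLocalFn r g

/-- What gate number `i` may use: an input (a function with the property `P`) or the output of a
gate with smaller number. -/
def IsWire {n s : ℕ} (P : (SimpleGraph (Fin n) → ℝ) → Prop)
    (F : Fin s → SimpleGraph (Fin n) → ℝ) (i : Fin s) (g : SimpleGraph (Fin n) → ℝ) : Prop :=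
  P g ∨ ∃ j, j < i ∧ g = F j

/-- `F 0, ..., F (s-1)` are the functions computed by the gates of a monotone real circuit whose
input is a graph with the vertices `0, ..., n-1`: every gate is an arbitrary nondecreasing function
`φ` of `d` real numbers. -/
def IsMono {n s : ℕ} (P : (SimpleGraph (Fin n) → ℝ) → Prop) (d : ℕ)
    (F : Fin s → SimpleGraph (Fin n) → ℝ) : Prop :=
  ∀ i, ∃ (φ : (Fin d → ℝ) → ℝ) (g : Fin d → SimpleGraph (Fin n) → ℝ),
    Monotone φ ∧ (∀ a, IsWire P F i (g a)) ∧ F i = fun G => φ fun a => g a G

/-- The same with NOT gates: the gates outside `N` are arbitrary nondecreasing functions of `d` real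
numbers, the gates in `N` arbitrary nonincreasing functions of `d` real numbers (for instance NOT
gates, with the values `0` and `1`), and the outputs of the gates in `N` form at most `m` different
vectors (at most `2 ^ T` for `T` NOT gates). -/
def IsNot {n s : ℕ} (P : (SimpleGraph (Fin n) → ℝ) → Prop) (d m : ℕ) (N : Finset (Fin s))
    (F : Fin s → SimpleGraph (Fin n) → ℝ) : Prop :=
  (Set.range fun (G : SimpleGraph (Fin n)) (i : N) => F i G).ncard ≤ m ∧
    ∀ i, ∃ (φ : (Fin d → ℝ) → ℝ) (g : Fin d → SimpleGraph (Fin n) → ℝ),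
      (i ∉ N → Monotone φ) ∧ (i ∈ N → Antitone φ) ∧ (∀ a, IsWire P F i (g a)) ∧
        F i = fun G => φ fun a => g a G

/-- `p` is a probability distribution on the finite type `ι`. -/
def IsDist {ι : Type} [Fintype ι] (p : ι → ℝ) : Prop := (∀ i, 0 ≤ p i) ∧ ∑ i, p i = 1

open Classical in
/-- The probability of `A i`, if `i` is chosen with the probabilities `p`. -/
noncomputable def prob {ι : Type} [Fintype ι] (p : ι → ℝ) (A : ι → Prop) : ℝ :=
  ∑ i, if A i then p i else 0

end Pool.Agent.Lib.MP_cff830_lc.ZR
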