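import Pool.Agent.Lib.MP_cff830_lc.ZR.Defs
import Pool.Agent.Lib.MP_cff830_lc.NR.Elim

/-!
# Elimination of the NOT gates, on average over the blocks
-/

set_option autoImplicit false

namespace Pool.Agent.Lib.MP_cff830_lc.ZR

open Finset MR MR.NR

/-! ### Levels -/

theorem local_level {V : Type} [Fintype V] (G : SimpleGraph V) {j l : ℕ} (h : j ≤ l)
    (w : V → ℝ) (hw : ∀ v, 0 ≤ w v) : localLP G j w ≤ localLP G l w := by
  classical
  exact val_mono (P := LocallyFeasible G j) (Q := LocallyFeasible G l)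
    (fun x hx => ⟨hx.1, fun S hS => hx.2 S (hS.trans h)⟩) (fun _ hx => hx.1)
    ⟨_, RelAux.feasible_cover _ l Finset.univ (RelAux.cover_univ _)⟩ w hw

/-- The levels of the two hierarchies are admissible. -/
theorem bound_local {n : ℕ} (k l j : ℕ) (w : Fin n → ℝ) (hw : ∀ v, 0 ≤ w v) (hj : 3 ≤ j)
    (hjl : j ≤ l) : IsBound k l w fun G => localLP G j w :=
  Or.inr fun G => ⟨RelAux.triangle_le_local G j w hj hw,
    (local_level G hjl w hw).trans (le_max_right _ _)⟩

theorem bound_sdp {n : ℕ} (k l j : ℕ) (w : Fin n → ℝ) (hw : ∀ v, 0 ≤ w v) (hj : 3 ≤ j)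
    (hjk : j ≤ k) : IsBound k l w fun G => sdpValue G j w :=
  Or.inr fun G => ⟨(RelAux.triangle_le_local G j w hj hw).trans (RelAux.local_le_sdp G j w hw),
    (RelAux.sdp_mono G w hjk hw).trans (le_max_left _ _)⟩

/-! ### Squeezing -/

theorem value_mono {n k l r : ℕ} {g : SimpleGraph (Fin n) → ℝ} (hg : IsValue k l r g)
    {G G' : SimpleGraph (Fin n)} (h : G ≤ G') : g G ≤ g G' := by
  rcases hg with ⟨w, hw, h1 | ⟨j, -, ⟨-, h1⟩ | ⟨-, h1⟩⟩⟩ | ⟨S, -, h1⟩
  · rw [h1, h1]
    exact edge_mono h w hw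
  · rw [h1, h1]
    exact local_mono h j w hw
  · rw [h1, h1]
    exact NR.sdp_mono h j w hw
  · exact h1 G G' fun u _ v _ huv => h huv

/-- If the gates in `N` have the same values at both ends of an interval of graphs, they are
constant on it. -/
theorem squeeze {n s d m : ℕ} {P : (SimpleGraph (Fin n) → ℝ) → Prop}
    (hP : ∀ g, P g → ∀ G G' : SimpleGraph (Fin n), G ≤ G' → g G ≤ g G') {N : Finset (Fin s)}
    {F : Fin s → SimpleGraph (Fin n) → ℝ}
    (hF : IsNot P d m N F) {G₁ G₂ G₃ : SimpleGraph (Fin n)} (h12 : G₁ ≤ G₂)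
    (h23 : G₂ ≤ G₃) (hN : ∀ i ∈ N, F i G₁ = F i G₃) :
    ∀ (l : ℕ) (i : Fin s), (i : ℕ) = l →
      (F i G₁ ≤ F i G₂ ∧ F i G₂ ≤ F i G₃) ∧ (i ∈ N → F i G₂ = F i G₁) := by
  intro l
  induction l using Nat.strong_induction_on with
  | _ l ih =>
    intro i hil
    have hw : ∀ g, IsWire P F i g → g G₁ ≤ g G₂ ∧ g G₂ ≤ g G₃ := by
      rintro g (hg | ⟨j, hj, rfl⟩)
      · exact ⟨hP g hg _ _ h12, hP g hg _ _ h23⟩
      · have hj' : (j : ℕ) < i := hj
        exact (ih j (by omega) j rfl).1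
    obtain ⟨φ, g, hφ, hψ, hg, hFi⟩ := hF.2 i
    by_cases hi : i ∈ N
    · have h1 := hN i hi
      have h2 : F i G₂ ≤ F i G₁ := by
        rw [hFi]
        exact hψ hi fun a => (hw _ (hg a)).1
      have h3 : F i G₃ ≤ F i G₂ := by
        rw [hFi]
        exact hψ hi fun a => (hw _ (hg a)).2
      have h4 : F i G₂ = F i G₁ := le_antisymm h2 (h1.le.trans h3)
      refine ⟨⟨h4.ge, ?_⟩, fun _ => h4⟩
      rw [h4]
      exact h1.le
    · refine ⟨?_, fun h3 => absurd h3 hi⟩
      rw [hFi]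
      exact ⟨hφ hi fun a => (hw _ (hg a)).1, hφ hi fun a => (hw _ (hg a)).2⟩

open Classical in
/-- Most blocks survive: the vector of the outputs of the gates in `N` changes in at most `m`
blocks. -/
theorem card_unstable {n s d m q b : ℕ} {P : (SimpleGraph (Fin n) → ℝ) → Prop}
    (hP : ∀ g, P g → ∀ G G' : SimpleGraph (Fin n), G ≤ G' → g G ≤ g G') {N : Finset (Fin s)}
    {F : Fin s → SimpleGraph (Fin n) → ℝ} (hF : IsNot P d m N F) :
    (univ.filter fun j : Fin b =>
      ¬ ∀ i ∈ N, F i (chain n q j) = F i (chain n q (j + 1))).card ≤ m := by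
  set U : Finset (Fin b) := univ.filter fun j : Fin b =>
      ¬ ∀ i ∈ N, F i (chain n q j) = F i (chain n q (j + 1)) with hU
  set f : Fin b → (N → ℝ) := fun j i => F i (chain n q (j + 1)) with hf
  have h1 : Set.InjOn f U := by
    have key : ∀ a c : Fin b, a < c → c ∈ U → f a = f c → False := by
      intro a c hac hc hfac
      have hac' : (a : ℕ) < c := hac
      refine (mem_filter.1 hc).2 fun i hi => ?_
      exact (squeeze hP hF (G₁ := chain n q (a + 1)) (G₂ := chain n q c)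
        (G₃ := chain n q (c + 1)) (chain_le (by omega)) (chain_le (Nat.le_succ _))
        (fun i hi => congrFun hfac ⟨i, hi⟩) i i rfl).2 hi ▸ congrFun hfac ⟨i, hi⟩
    intro a ha c hc hfac
    rcases lt_trichotomy a c with h | h | h
    · exact (key a c h hc hfac).elim
    · exact h
    · exact (key c a h ha hfac.symm).elim
  have h2 : f '' U ⊆ Set.range fun (G : SimpleGraph (Fin n)) (i : N) => F i G := by
    rintro _ ⟨j, -, rfl⟩
    exact ⟨_, rfl⟩
  have h3 := Set.ncard_le_ncard h2 (Set.finite_range _)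
  rw [Set.ncard_image_of_injOn h1, Set.ncard_coe_finset] at h3
  exact h3.trans hF.1

/-! ### The remaining circuit -/

theorem leaf_const {q k l : ℕ} (c : ℝ) : IsInput k l (fun _ : SimpleGraph (Fin q) => c) :=
  Or.inr ⟨∅, by simp, fun _ _ _ => le_rfl⟩

theorem wire_put {n s k l q j : ℕ} {F : Fin s → SimpleGraph (Fin n) → ℝ}
    (h : (j + 1) * q ≤ n) (i : Fin s) {g : SimpleGraph (Fin n) → ℝ}
    (hg : IsWire (IsValue k l q) F i g) :
    ∃ (c : ℝ) (g' : SimpleGraph (Fin q) → ℝ),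
      IsWire (IsInput k l) (fun i X => F i (put h X)) i g' ∧ ∀ X, g (put h X) = c + g' X := by
  classical
  have he : ∀ u v, (chain n q j).Adj u v → u ∉ Set.range (blk n q j h) := chain_blk h
  rcases hg with (⟨w, hw, h1⟩ | ⟨S, hS, h1⟩) | ⟨a, ha, rfl⟩
  · have hw' : ∀ a, 0 ≤ (fun a => w (blk n q j h a)) a := fun a => hw _
    rcases h1 with h1 | ⟨d, hd, ⟨hdl, h1⟩ | ⟨hdk, h1⟩⟩
    · refine ⟨edgeLP (chain n q j) w, fun X => edgeLP X fun a => w (blk n q j h a),
        Or.inl (Or.inl ⟨_, hw', Or.inl fun _ => rfl⟩), fun X => ?_⟩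
      rw [h1]
      exact edge_add _ _ he X w hw
    · refine ⟨localLP (chain n q j) d w, fun X => localLP X d fun a => w (blk n q j h a),
        Or.inl (Or.inl ⟨_, hw', bound_local k l d _ hw' hd hdl⟩), fun X => ?_⟩
      rw [h1]
      exact local_add _ _ he X d w hw
    · refine ⟨sdpValue (chain n q j) d w, fun X => sdpValue X d fun a => w (blk n q j h a),
        Or.inl (Or.inl ⟨_, hw', bound_sdp k l d _ hw' hd hdk⟩), fun X => ?_⟩
      rw [h1]
      convert sdp_add _ _ he X d w hw using 2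
      rfl
  · refine ⟨0, fun X => g (put h X), Or.inl (Or.inr ⟨Finset.univ.filter fun a =>
      blk n q j h a ∈ S, ?_, fun X X' hX => ?_⟩), fun X => (zero_add _).symm⟩
    · refine le_trans (Nat.pow_le_pow_left ?_ 3) hS
      refine Finset.card_le_card_of_injOn (blk n q j h) ?_ (blk n q j h).injective.injOn
      intro a ha
      exact (Finset.mem_filter.1 ha).2
    · refine h1 _ _ fun u hu v hv huv => ?_
      rcases (adj_iff _ _ X u v).1 huv with h2 | ⟨a, b, hab, rfl, rfl⟩
      · exact (adj_iff _ _ X' u v).2 (Or.inl h2)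
      · exact (adj_iff _ _ X' _ _).2 (Or.inr ⟨a, b, hX a
          (Finset.mem_filter.2 ⟨Finset.mem_univ _, hu⟩) b
          (Finset.mem_filter.2 ⟨Finset.mem_univ _, hv⟩) hab, rfl, rfl⟩)
  · exact ⟨0, fun X => F a (put h X), Or.inr ⟨a, ha, rfl⟩, fun X => (zero_add _).symm⟩

theorem circuit_put {n s k l d m q j : ℕ} {N : Finset (Fin s)}
    {F : Fin s → SimpleGraph (Fin n) → ℝ} (hF : IsNot (IsValue k l q) d m N F)
    (h : (j + 1) * q ≤ n) (hN : ∀ i ∈ N, F i (chain n q j) = F i (chain n q (j + 1))) :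
    IsMono (IsInput k l) d fun (i : Fin s) (X : SimpleGraph (Fin q)) => F i (put h X) := by
  intro i
  obtain ⟨φ, g, hφ, -, hg, hFi⟩ := hF.2 i
  by_cases hi : i ∈ N
  · refine ⟨fun _ => F i (chain n q j), fun _ _ => 0, fun _ _ _ => le_rfl,
      fun _ => Or.inl (leaf_const 0), ?_⟩
    funext X
    exact (squeeze (fun g hg G G' => value_mono hg) hF (le_put h X) (put_le h X) hN i i rfl).2 hi
  · choose c g' h1 h2 using fun a => wire_put h i (hg a)
    refine ⟨fun x => φ fun a => c a + x a, g', fun x x' hx => hφ hi fun a => ?_, h1, ?_⟩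
    · exact add_le_add le_rfl (hx a)
    · funext X
      show F i (put h X) = φ fun a => c a + g' a X
      rw [hFi]
      exact congrArg φ (funext fun a => h2 a X)

end Pool.Agent.Lib.MP_cff830_lc.ZR
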