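import Pool.Agent.Lib.MP_cff830_lc.MR.JumpX

/-!
# Closed functions have few jumps above a given term
-/

set_option autoImplicit false

namespace Pool.Agent.Lib.MP_cff830_lc.ZR

open Finset MR

open Classical in
/-- The jumps above `J`: the terms that contain `J` and whose value is larger than the values of all
their proper subsets that contain `J`. -/
noncomputable def rj {n : ℕ} (t : ℕ) (g : Finset (Sym2 (Fin n)) → ℝ) (J : Finset (Sym2 (Fin n))) :
    Finset (Finset (Sym2 (Fin n))) :=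
  (terms n t).filter fun E => J ⊆ E ∧ ∀ E' : Finset (Sym2 (Fin n)), J ⊆ E' → E' ⊂ E → g E' < g E

theorem mem_rj {n t : ℕ} {g : Finset (Sym2 (Fin n)) → ℝ} {J E : Finset (Sym2 (Fin n))} :
    E ∈ rj t g J ↔ E ∈ terms n t ∧ J ⊆ E ∧ ∀ E', J ⊆ E' → E' ⊂ E → g E' < g E := by
  classical
  unfold rj
  rw [mem_filter]

/-- A term of value at least `c` that contains `U` contains such a jump above `U`. -/
theorem exists_rj {n t : ℕ} {g : Finset (Sym2 (Fin n)) → ℝ} {c : ℝ} {U : Finset (Sym2 (Fin n))} :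
    ∀ (d : ℕ) (E : Finset (Sym2 (Fin n))), E.card ≤ d → E ∈ terms n t → U ⊆ E → c ≤ g E →
      ∃ E' ∈ rj t g U, E' ⊆ E ∧ c ≤ g E' := by
  classical
  intro d
  induction d with
  | zero =>
    intro E hd hE hU hc
    have h0 : E = ∅ := card_eq_zero.1 (by omega)
    refine ⟨E, mem_rj.2 ⟨hE, hU, fun E' _ h => ?_⟩, Subset.rfl, hc⟩
    rw [h0] at h
    exact absurd h (not_ssubset_empty E')
  | succ d ih =>
    intro E hd hE hU hc
    by_cases h : ∀ E', U ⊆ E' → E' ⊂ E → g E' < g E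
    · exact ⟨E, mem_rj.2 ⟨hE, hU, h⟩, Subset.rfl, hc⟩
    · push Not at h
      obtain ⟨E', h1, h2, h3⟩ := h
      have h4 := card_lt_card h2
      obtain ⟨E'', h5, h6, h7⟩ := ih E' (by omega) (terms_subset hE h2.1) h1 (hc.trans h3)
      exact ⟨E'', h5, h6.trans h2.1, h7⟩

open Classical in
open JumpXAux in
/-- Closed functions have few jumps above `J`. -/
theorem jumpR (h : StSpread) {n t N K : ℕ} {ρ δ : ℝ} {g : Finset (Sym2 (Fin n)) → ℝ}
    (hρ0 : 0 < ρ) (hρ : ρ ≤ 1 / 2) (hN : 1 ≤ N) (hδ : (1 / 2 : ℝ) ^ N ≤ δ)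
    (hK : 16 * N * t ^ 2 ≤ K) (hg : Closed ρ δ t g) (J : Finset (Sym2 (Fin n))) (s : ℕ) :
    ((rj t g J).filter fun E => (E \ J).card = s).card ≤ K ^ (2 * s) := by
  have hmem : ∀ E, E ∈ rj t g J ↔ E ∈ terms n t ∧ J ⊆ E ∧ ∀ E', J ⊆ E' → E' ⊂ E → g E' < g E :=
    fun E => mem_rj
  have hterm : ∀ E ∈ rj t g J, (∀ e ∈ E, ¬ e.IsDiag) ∧ E.card ≤ t := fun E hE =>
    mem_terms.1 ((hmem E).1 hE).1
  set Φ := (rj t g J).filter fun E => (E \ J).card = s with hΦ
  have hΦm : ∀ E, E ∈ Φ ↔ E ∈ rj t g J ∧ J ⊆ E ∧ (E \ J).card = s := by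
    intro E
    rw [hΦ, mem_filter]
    exact ⟨fun h => ⟨h.1, ((hmem E).1 h.1).2.1, h.2⟩, fun h => ⟨h.1, h.2.2⟩⟩
  by_contra hcon
  push Not at hcon
  -- coordinates
  have hcoord : ∀ E : Finset (Sym2 (Fin n)), ∃ f : Fin s × Bool → Fin n, E ∈ Φ →
      (∀ i, s(f (i, false), f (i, true)) ∈ E \ J) ∧
      ∀ e ∈ E \ J, ∃ i, e = s(f (i, false), f (i, true)) := by
    intro E
    by_cases hE : E ∈ Φ
    · obtain ⟨f, hf⟩ := exists_coord (E \ J) ((hΦm E).1 hE).2.2
      exact ⟨f, fun _ => hf⟩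
    · by_cases hn : Nonempty (Fin n)
      · exact ⟨fun _ => hn.some, fun h => absurd h hE⟩
      · have hs : s = 0 := by
          obtain ⟨E', hE'⟩ := card_pos.1 (lt_of_le_of_lt (Nat.zero_le _) hcon)
          have h1 := ((hΦm E').1 hE').2.2
          rw [← h1, card_eq_zero, eq_empty_iff_forall_notMem]
          intro e
          induction e with
          | _ a b => exact fun _ => hn ⟨a⟩
        subst hs
        exact ⟨fun c => c.1.elim0, fun h => absurd h hE⟩
  choose f hf using hcoord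
  have hinj : ∀ E ∈ Φ, ∀ E' ∈ Φ, f E = f E' → E = E' := by
    have h1 : ∀ E ∈ Φ, ∀ E' ∈ Φ, f E = f E' → E ⊆ E' := by
      intro E hE E' hE' hEE e he
      by_cases heJ : e ∈ J
      · exact ((hΦm E').1 hE').2.1 heJ
      · obtain ⟨i, hi⟩ := (hf E hE).2 e (mem_sdiff.2 ⟨he, heJ⟩)
        rw [hi, hEE]
        exact (mem_sdiff.1 ((hf E' hE').1 i)).1
    exact fun E hE E' hE' hEE => Subset.antisymm (h1 E hE E' hE' hEE) (h1 E' hE' E hE hEE.symm)
  have hcC : Fintype.card (Fin s × Bool) = 2 * s := by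
    rw [Fintype.card_prod, Fintype.card_fin, Fintype.card_bool, mul_comm]
  obtain ⟨Z, a, Ψ, hZ, hΨ, hΨΦ, hΨa, hspread⟩ := exists_spread (K := K) Φ f hinj
    (by rw [hcC]; exact hcon)
  have hst : s ≤ t := by
    obtain ⟨E, hE⟩ := hΨ
    have h1 := (hΦm E).1 (hΨΦ hE)
    rw [← h1.2.2]
    exact (card_le_card sdiff_subset).trans (hterm E h1.1).2
  obtain ⟨M, hM, hMmin⟩ := exists_min_image Ψ g hΨ
  -- the smaller term
  set full : Finset (Fin s) := univ.filter fun i => (i, false) ∈ Z ∧ (i, true) ∈ Z with hfull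
  set E₀ : Finset (Sym2 (Fin n)) := J ∪ full.image fun i => s(a (i, false), a (i, true)) with hE₀
  have hsub : E₀ ⊆ M := by
    intro e he
    rcases mem_union.1 he with he | he
    · exact ((hΦm M).1 (hΨΦ hM)).2.1 he
    · obtain ⟨i, hi, rfl⟩ := mem_image.1 he
      rw [hfull, mem_filter] at hi
      rw [← hΨa M hM _ hi.2.1, ← hΨa M hM _ hi.2.2]
      exact (mem_sdiff.1 ((hf M (hΨΦ hM)).1 i)).1
  have hfc : full.card < s := by
    obtain ⟨c, hc⟩ : ∃ c, c ∉ Z := by
      by_contra hcon'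
      push Not at hcon'
      exact hZ (eq_univ_iff_forall.2 hcon')
    have h1 : full ⊂ univ := by
      refine (Finset.ssubset_univ_iff).2 fun h2 => ?_
      have h3 : c.1 ∈ full := by
        rw [h2]
        exact mem_univ _
      rw [hfull, mem_filter] at h3
      rcases c with ⟨i, b⟩
      cases b
      · exact hc h3.2.1
      · exact hc h3.2.2
    have h2 := card_lt_card h1
    rwa [card_univ, Fintype.card_fin] at h2
  have hne : E₀ ≠ M := by
    intro h1
    have h2 : M \ J ⊆ full.image fun i => s(a (i, false), a (i, true)) := by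
      intro e he
      rw [← h1, mem_sdiff, hE₀, mem_union] at he
      rcases he.1 with h3 | h3
      · exact absurd h3 he.2
      · exact h3
    have h3 := (card_le_card h2).trans card_image_le
    rw [((hΦm M).1 (hΨΦ hM)).2.2] at h3
    omega
  have hssub : E₀ ⊂ M := (Finset.ssubset_iff_subset_ne).2 ⟨hsub, hne⟩
  have hMj := (hΦm M).1 (hΨΦ hM)
  have hE₀t : E₀ ∈ terms n t := by
    have h1 := hterm M hMj.1
    exact mem_terms.2 ⟨fun e he => h1.1 e (hsub he), (card_le_card hsub).trans h1.2⟩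
  have h1ρ : ρ ≤ 1 := by linarith
  have hprob : prN ρ (fun I => In E₀ (negG I) ∧
      ∀ K' ∈ terms n t, In K' (negG I) → g K' < g M) ≤ δ := by
    refine (prN_mono hρ0.le h1ρ (B := fun I => ∀ E ∈ Ψ, ¬ Disjoint (Zᶜ.image (f E)) I) ?_).trans
      ((h n N (2 * t) K ρ (Finset (Sym2 (Fin n))) Ψ (fun E => Zᶜ.image (f E)) hρ0 hρ hN ?_ hΨ ?_
        ?_).trans hδ)
    · rintro I ⟨hI1, hI2⟩ E hE hdis
      have hEl := (hΦm E).1 (hΨΦ hE)
      refine absurd (hI2 E ((hmem E).1 hEl.1).1 fun e he => ?_) (not_lt.2 (hMmin E hE))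
      by_cases heJ : e ∈ J
      · exact hI1 e (mem_union_left _ heJ)
      obtain ⟨i, hi⟩ := (hf E (hΨΦ hE)).2 e (mem_sdiff.2 ⟨he, heJ⟩)
      by_cases hin : i ∈ full
      · refine hI1 e (mem_union_right _ (mem_image.2 ⟨i, hin, ?_⟩))
        rw [hfull, mem_filter] at hin
        rw [hi, hΨa E hE _ hin.2.1, hΨa E hE _ hin.2.2]
      · have hor : f E (i, false) ∉ I ∨ f E (i, true) ∉ I := by
          by_contra hcon'
          push Not at hcon'
          refine hin ?_
          rw [hfull, mem_filter]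
          refine ⟨mem_univ _, ?_, ?_⟩
          · by_contra h5
            exact (disjoint_left.1 hdis (mem_image.2 ⟨_, mem_compl.2 h5, rfl⟩)) hcon'.1
          · by_contra h5
            exact (disjoint_left.1 hdis (mem_image.2 ⟨_, mem_compl.2 h5, rfl⟩)) hcon'.2
        have hd := (hterm E hEl.1).1 e he
        rw [hi] at hd ⊢
        rw [SimpleGraph.mem_edgeSet, negG_adj]
        exact ⟨fun hvy => hd (Sym2.mk_isDiag_iff.2 hvy), hor⟩
    · calc 4 * N * (2 * t) ^ 2 = 16 * N * t ^ 2 := by ring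
        _ ≤ K := hK
    · intro E hE
      refine card_image_le.trans ((card_le_univ _).trans ?_)
      rw [hcC]
      omega
    · intro S
      refine (hspread S).trans (Nat.mul_le_mul_right _ (Nat.pow_le_pow_left ?_ _))
      rw [hcC]
      omega
  have h1 : g M ≤ g E₀ := hg E₀ hE₀t M ((hmem M).1 hMj.1).1 hprob
  have h2 : g E₀ < g M := ((hmem M).1 hMj.1).2.2 E₀ subset_union_left hssub
  exact absurd h2 (not_lt.2 h1)

end Pool.Agent.Lib.MP_cff830_lc.ZR
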