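import Pool.Agent.Lib.MP_cff830_lc.ZR.Defs
import Pool.Agent.Lib.MP_cff830_lc.ZR.JumpR
import Pool.Agent.Lib.MP_cff830_lc.MR.GatesY

/-!
# Approximation of circuits with gates of large fan-in over arbitrary inputs
-/

set_option autoImplicit false

namespace Pool.Agent.Lib.MP_cff830_lc.ZR

open Finset MR

/-! ### Unions of jumps -/

open Classical in
/-- The terms that can be reached by jumps of the first `i` functions, each one above the previous
term. -/
noncomputable def reach {n : ℕ} (t : ℕ) (g : ℕ → Finset (Sym2 (Fin n)) → ℝ) :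
    ℕ → Finset (Finset (Sym2 (Fin n)))
  | 0 => {∅}
  | i + 1 => (reach t g i).biUnion fun U => rj t (g i) U

theorem sum_biUnion_le' {α β : Type} [DecidableEq α] [DecidableEq β] (s : Finset α)
    (f : α → Finset β) (w : β → ℝ) (hw : ∀ b, 0 ≤ w b) :
    ∑ b ∈ s.biUnion f, w b ≤ ∑ a ∈ s, ∑ b ∈ f a, w b := by
  induction s using Finset.induction_on with
  | empty => simp
  | insert a s ha ih =>
    rw [biUnion_insert, sum_insert ha]
    have h := sum_union_inter (s₁ := f a) (s₂ := s.biUnion f) (f := w)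
    have h1 : 0 ≤ ∑ b ∈ f a ∩ s.biUnion f, w b := sum_nonneg fun b _ => hw b
    linarith

open Classical in
/-- The weight of the jumps above `U`. -/
theorem rj_sum {n t B : ℕ} {z : ℝ} (hz : 0 ≤ z) (hx : B * z ≤ 1 / 2)
    {g : Finset (Sym2 (Fin n)) → ℝ} {U : Finset (Sym2 (Fin n))}
    (hB : ∀ i, ((rj t g U).filter fun E => (E \ U).card = i).card ≤ B ^ i) :
    ∑ E ∈ rj t g U, z ^ E.card ≤ z ^ U.card * (1 + 2 * (B * z)) := by
  have h0 : 0 ≤ (B : ℝ) * z := mul_nonneg (Nat.cast_nonneg _) hz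
  have hmaps : ∀ E ∈ rj t g U, (E \ U).card ∈ range (t + 1) := by
    intro E hE
    rw [mem_range]
    have h1 := (mem_terms.1 (mem_rj.1 hE).1).2
    have h2 := card_le_card (sdiff_subset (s := E) (t := U))
    omega
  rw [← sum_fiberwise_of_maps_to hmaps]
  have h3 : ∀ j ∈ range (t + 1), ∑ E ∈ (rj t g U).filter (fun E => (E \ U).card = j),
      z ^ E.card ≤ z ^ U.card * (B * z) ^ j := by
    intro j _
    have h4 : ∀ E ∈ (rj t g U).filter (fun E => (E \ U).card = j), z ^ E.card =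
        z ^ U.card * z ^ j := by
      intro E hE
      obtain ⟨h5, h6⟩ := mem_filter.1 hE
      rw [← pow_add, ← h6]
      congr 1
      have h7 := card_sdiff_add_card_eq_card (mem_rj.1 h5).2.1
      omega
    rw [sum_congr rfl h4, sum_const, nsmul_eq_mul, mul_pow]
    have h5 : (((rj t g U).filter fun E => (E \ U).card = j).card : ℝ) ≤ (B : ℝ) ^ j := by
      exact_mod_cast hB j
    calc (((rj t g U).filter fun E => (E \ U).card = j).card : ℝ) * (z ^ U.card * z ^ j)
        ≤ (B : ℝ) ^ j * (z ^ U.card * z ^ j) := mul_le_mul_of_nonneg_right h5 (by positivity)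
      _ = z ^ U.card * ((B : ℝ) ^ j * z ^ j) := by ring
  refine (sum_le_sum h3).trans ?_
  rw [← mul_sum]
  refine mul_le_mul_of_nonneg_left ?_ (by positivity)
  have h4 := GatesXAux.geom_tail h0 hx t 1
  rw [sum_range_succ'] at h4 ⊢
  simp only [pow_zero, pow_one, Nat.le_add_left, if_true, Nat.not_ofNat_le_one] at h4 ⊢
  have h5 : (if 1 ≤ 0 then (1 : ℝ) else 0) = 0 := if_neg (by norm_num)
  rw [h5] at h4
  linarith

open Classical in
theorem reach_sum {n t B d : ℕ} {z : ℝ} (hz : 0 ≤ z) (hx : B * z ≤ 1 / 2)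
    {g : ℕ → Finset (Sym2 (Fin n)) → ℝ}
    (hB : ∀ j < d, ∀ (U : Finset (Sym2 (Fin n))) (i : ℕ),
      ((rj t (g j) U).filter fun E => (E \ U).card = i).card ≤ B ^ i) :
    ∀ i, i ≤ d → ∑ E ∈ reach t g i, z ^ E.card ≤ (1 + 2 * (B * z)) ^ i := by
  have h0 : 0 ≤ (B : ℝ) * z := mul_nonneg (Nat.cast_nonneg _) hz
  intro i
  induction i with
  | zero =>
    intro _
    unfold reach
    simp
  | succ i ih =>
    intro hi
    unfold reach
    refine (sum_biUnion_le' _ _ _ fun E => by positivity).trans ?_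
    have h1 : ∀ U ∈ reach t g i, ∑ E ∈ rj t (g i) U, z ^ E.card ≤
        z ^ U.card * (1 + 2 * (B * z)) := fun U _ => rj_sum hz hx (hB i (by omega) U)
    refine (sum_le_sum h1).trans ?_
    rw [← sum_mul, pow_succ]
    exact mul_le_mul_of_nonneg_right (ih (by omega)) (by linarith)

open Classical in
/-- The bad event at a gate: the test contains a reachable term and a jump of the next function whose
union is too large. -/
noncomputable def badUnion {n : ℕ} (t d : ℕ) (g : ℕ → Finset (Sym2 (Fin n)) → ℝ) :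
    Finset (Finset (Sym2 (Fin n))) :=
  (range d).biUnion fun i => (reach t g i).biUnion fun U =>
    ((jump t (g i)).filter fun K => t + 1 ≤ (U ∪ K).card).image fun K => U ∪ K

open Classical in
theorem mem_badUnion {n t d : ℕ} {g : ℕ → Finset (Sym2 (Fin n)) → ℝ}
    {W : Finset (Sym2 (Fin n))} : W ∈ badUnion t d g ↔ ∃ i < d, ∃ U ∈ reach t g i,
      ∃ K ∈ jump t (g i), t + 1 ≤ (U ∪ K).card ∧ U ∪ K = W := by
  unfold badUnion
  simp only [mem_biUnion, mem_range, mem_image, mem_filter]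
  constructor
  · rintro ⟨i, hi, U, hU, K, ⟨hK, h1⟩, h2⟩
    exact ⟨i, hi, U, hU, K, hK, h1, h2⟩
  · rintro ⟨i, hi, U, hU, K, hK, h1, h2⟩
    exact ⟨i, hi, U, hU, K, ⟨hK, h1⟩, h2⟩

theorem reach_terms {n t : ℕ} {g : ℕ → Finset (Sym2 (Fin n)) → ℝ} :
    ∀ i, ∀ U ∈ reach t g i, U ∈ terms n t := by
  classical
  intro i
  cases i with
  | zero =>
    intro U hU
    unfold reach at hU
    rw [mem_singleton.1 hU]
    exact GatesAux.empty_mem_terms n t
  | succ i =>
    intro U hU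
    unfold reach at hU
    obtain ⟨V, -, hV⟩ := mem_biUnion.1 hU
    exact (mem_rj.1 hV).1

open Classical in
/-- Terms for several functions at once. -/
theorem merge {n t d : ℕ} {g : ℕ → Finset (Sym2 (Fin n)) → ℝ} {G : SimpleGraph (Fin n)}
    {c : ℕ → ℝ} (hg : ∀ i < d, MonoFn t (g i))
    (hE : ∀ i < d, ∃ E ∈ terms n t, In E G ∧ c i ≤ g i E)
    (hbad : ∀ W ∈ badUnion t d g, ¬ In W G) :
    ∀ i, i ≤ d → ∃ U ∈ reach t g i, In U G ∧ ∀ j < i, c j ≤ g j U := by
  intro i
  induction i with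
  | zero =>
    intro _
    refine ⟨∅, ?_, fun e he => absurd he (notMem_empty e), fun j hj => absurd hj (by omega)⟩
    unfold reach
    exact mem_singleton_self _
  | succ i ih =>
    intro hi
    obtain ⟨U, hU, hUG, hUc⟩ := ih (by omega)
    obtain ⟨E, hEt, hEG, hEc⟩ := hE i (by omega)
    obtain ⟨K, hK, hKE, hKc⟩ := GatesAux.exists_jump E.card E le_rfl hEt hEc
    have hUt := reach_terms i U hU
    have hKt := (GatesAux.mem_jump.1 hK).1
    have hin : In (U ∪ K) G := by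
      intro e he
      rcases mem_union.1 he with he | he
      · exact hUG e he
      · exact hEG e (hKE he)
    have hcard : (U ∪ K).card ≤ t := by
      by_contra hlt
      exact hbad (U ∪ K) (mem_badUnion.2 ⟨i, by omega, U, hU, K, hK, by omega, rfl⟩) hin
    have hterm : U ∪ K ∈ terms n t := by
      rw [mem_terms]
      refine ⟨fun e he => ?_, hcard⟩
      rcases mem_union.1 he with he | he
      · exact (mem_terms.1 hUt).1 e he
      · exact (mem_terms.1 hKt).1 e he
    obtain ⟨E', hE', hE'U, hE'c⟩ := exists_rj (U := U) (U ∪ K).card (U ∪ K) le_rfl hterm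
      subset_union_left (hKc.trans (hg i (by omega) K hKt _ hterm subset_union_right))
    refine ⟨E', ?_, hin.mono hE'U, fun j hj => ?_⟩
    · unfold reach
      exact mem_biUnion.2 ⟨U, hU, hE'⟩
    · rcases Nat.lt_succ_iff_lt_or_eq.1 hj with h | h
      · exact (hUc j h).trans (hg j (by omega) U hUt E' (mem_rj.1 hE').1 (mem_rj.1 hE').2.1)
      · rw [h]
        exact hE'c

open Classical in
/-- The positive error at a gate. -/
theorem bad_error {n t B d : ℕ} {κ : ℝ} {Ω : Type} [Fintype Ω] [Nonempty Ω]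
    (H : Ω → SimpleGraph (Fin n)) (hκ0 : 0 ≤ κ) (hB1 : 1 ≤ B) (hd1 : 1 ≤ d)
    (hH : ∀ E : Finset (Sym2 (Fin n)), prP (fun ω => In E (H ω)) ≤ κ ^ E.card)
    (hx : B * κ ≤ 1 / 2) {g : ℕ → Finset (Sym2 (Fin n)) → ℝ}
    (hB : ∀ j < d, ∀ (U : Finset (Sym2 (Fin n))) (i : ℕ),
      ((rj t (g j) U).filter fun E => (E \ U).card = i).card ≤ B ^ i) :
    prP (fun ω => ∃ W ∈ badUnion t d g, In W (H ω)) ≤ 6 * d * (4 * d * B * κ) ^ (t + 1) := by
  have hBr : (1 : ℝ) ≤ B := by exact_mod_cast hB1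
  have hdr : (1 : ℝ) ≤ d := by exact_mod_cast hd1
  have hB0 : (0 : ℝ) < B := by linarith
  have hd0 : (0 : ℝ) < d := by linarith
  set z : ℝ := 1 / (2 * d * B) with hz
  have hz0 : 0 ≤ z := by rw [hz]; positivity
  have hBz : (B : ℝ) * z = 1 / (2 * d) := by
    rw [hz]
    field_simp
  have hBz2 : (B : ℝ) * z ≤ 1 / 2 := by
    rw [hBz, div_le_div_iff₀ (by positivity) (by norm_num)]
    linarith
  have hpow : ∀ i, i ≤ d → (1 + 2 * (B * z)) ^ i ≤ 3 := by
    intro i hi
    have h1 : 1 + 2 * (B * z) = 1 + 1 / d := by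
      rw [hBz]
      field_simp
    rw [h1]
    have h2 : (1 : ℝ) ≤ 1 + 1 / d := by
      have : 0 ≤ 1 / (d : ℝ) := by positivity
      linarith
    refine (pow_le_pow_right₀ h2 hi).trans ?_
    have h3 : 1 + 1 / (d : ℝ) ≤ Real.exp (1 / d) := by
      have := Real.add_one_le_exp (1 / (d : ℝ))
      linarith
    calc (1 + 1 / (d : ℝ)) ^ d ≤ Real.exp (1 / d) ^ d :=
          pow_le_pow_left₀ (by linarith) h3 d
      _ = Real.exp 1 := by
          rw [← Real.exp_nat_mul]
          congr 1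
          field_simp
      _ ≤ 3 := by
          have := Real.exp_one_lt_d9
          linarith
  have hjump : ∀ j < d, ∀ (J : Finset (Sym2 (Fin n))) (i : ℕ),
      ((jump t (g j)).filter fun E => J ⊆ E ∧ (E \ J).card = i).card ≤ B ^ i := by
    intro j hj J i
    refine (card_le_card fun E hE => ?_).trans (hB j hj J i)
    obtain ⟨h1, h2, h3⟩ := mem_filter.1 hE
    obtain ⟨h4, h5⟩ := GatesAux.mem_jump.1 h1
    exact mem_filter.2 ⟨mem_rj.2 ⟨h4, h2, fun E' _ h6 => h5 E' h6⟩, h3⟩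
  -- the union bound
  have h1 : prP (fun ω => ∃ W ∈ badUnion t d g, In W (H ω)) ≤
      ∑ i ∈ range d, ∑ U ∈ reach t g i, ∑ K ∈ jump t (g i),
        (if t + 1 ≤ (U ∪ K).card then κ ^ (U ∪ K).card else 0) := by
    refine (prP_exists _ _).trans ?_
    refine (sum_le_sum fun W _ => hH W).trans ?_
    unfold badUnion
    refine (sum_biUnion_le' _ _ _ fun W => by positivity).trans (sum_le_sum fun i _ => ?_)
    refine (sum_biUnion_le' _ _ _ fun W => by positivity).trans (sum_le_sum fun U _ => ?_)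
    rw [← sum_filter]
    have h2 := sum_biUnion_le' ((jump t (g i)).filter fun K => t + 1 ≤ (U ∪ K).card)
      (fun K => {U ∪ K}) (fun W => κ ^ W.card) fun W => by positivity
    have h3 : ((jump t (g i)).filter fun K => t + 1 ≤ (U ∪ K).card).biUnion (fun K => {U ∪ K}) =
        ((jump t (g i)).filter fun K => t + 1 ≤ (U ∪ K).card).image fun K => U ∪ K := by
      ext W
      simp only [mem_biUnion, mem_singleton, mem_image]
      constructor
      · rintro ⟨K, hK, rfl⟩
        exact ⟨K, hK, rfl⟩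
      · rintro ⟨K, hK, rfl⟩
        exact ⟨K, hK, rfl⟩
    rw [h3] at h2
    refine h2.trans (le_of_eq (sum_congr rfl fun K _ => ?_))
    rw [sum_singleton]
  refine h1.trans ?_
  have h2 : ∀ i ∈ range d, ∑ U ∈ reach t g i, ∑ K ∈ jump t (g i),
      (if t + 1 ≤ (U ∪ K).card then κ ^ (U ∪ K).card else 0) ≤
        6 * (4 * d * B * κ) ^ (t + 1) := by
    intro i hi
    rw [mem_range] at hi
    have h3 : ∀ U ∈ reach t g i, ∑ K ∈ jump t (g i),
        (if t + 1 ≤ (U ∪ K).card then κ ^ (U ∪ K).card else 0) ≤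
          2 * (4 * d * B * κ) ^ (t + 1) * z ^ U.card := by
      intro U hU
      have hUt := (mem_terms.1 (reach_terms i U hU)).2
      refine (GatesXAux.inner hκ0 (hjump i hi) hx U hUt).trans ?_
      have h4 : (4 * d * B * κ) ^ (t + 1) * z ^ U.card =
          (4 * d * B * κ) ^ (t + 1 - U.card) * (2 * κ) ^ U.card := by
        have h5 : t + 1 = (t + 1 - U.card) + U.card := by omega
        conv_lhs => rw [h5, pow_add, mul_assoc, ← mul_pow]
        congr 2
        rw [hz]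
        field_simp
        ring
      have h6 : (B * κ) ^ (t + 1 - U.card) ≤ (4 * d * B * κ) ^ (t + 1 - U.card) := by
        refine pow_le_pow_left₀ (by positivity) ?_ _
        have h7 : 0 ≤ (B : ℝ) * κ := by positivity
        have h8 : 4 * (d : ℝ) * B * κ = 4 * d * (B * κ) := by ring
        rw [h8]
        nlinarith
      calc (2 : ℝ) ^ U.card * (κ ^ U.card * (2 * (B * κ) ^ (t + 1 - U.card)))
          = 2 * ((B * κ) ^ (t + 1 - U.card) * (2 * κ) ^ U.card) := by rw [mul_pow]; ring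
        _ ≤ 2 * ((4 * d * B * κ) ^ (t + 1 - U.card) * (2 * κ) ^ U.card) := by
            refine mul_le_mul_of_nonneg_left ?_ (by norm_num)
            exact mul_le_mul_of_nonneg_right h6 (by positivity)
        _ = 2 * (4 * d * B * κ) ^ (t + 1) * z ^ U.card := by rw [← h4]; ring
    refine (sum_le_sum h3).trans ?_
    rw [← mul_sum]
    have h5 := (reach_sum hz0 hBz2 hB i hi.le).trans (hpow i hi.le)
    have h6 : (0 : ℝ) ≤ 2 * (4 * d * B * κ) ^ (t + 1) := by positivity
    calc 2 * (4 * (d : ℝ) * B * κ) ^ (t + 1) * ∑ U ∈ reach t g i, z ^ U.card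
        ≤ 2 * (4 * (d : ℝ) * B * κ) ^ (t + 1) * 3 := mul_le_mul_of_nonneg_left h5 h6
      _ = 6 * (4 * d * B * κ) ^ (t + 1) := by ring
  refine (sum_le_sum h2).trans ?_
  rw [sum_const, card_range, nsmul_eq_mul]
  apply le_of_eq
  ring

/-! ### Circuits -/

open GatesAux in
/-- Approximation of circuits; the approximators are closed. -/
theorem gatesZ (hC : StClos) (n t B s d : ℕ) (ρ δ δ₁ κ a : ℝ) (Ω : Type) [Fintype Ω] [Nonempty Ω]
    (H : Ω → SimpleGraph (Fin n)) (L : (SimpleGraph (Fin n) → ℝ) → Prop)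
    (F : Fin s → SimpleGraph (Fin n) → ℝ) (h0 : 0 ≤ ρ) (h1 : ρ ≤ 1) (hB1 : 1 ≤ B) (hd1 : 1 ≤ d)
    (hδ : 0 ≤ δ) (hδ₁ : 0 ≤ δ₁) (hκ0 : 0 ≤ κ) (hx : B * κ ≤ 1 / 2) (ha : 0 ≤ a)
    (hH : ∀ E : Finset (Sym2 (Fin n)), prP (fun ω => In E (H ω)) ≤ κ ^ E.card)
    (hm : ∀ g : Finset (Sym2 (Fin n)) → ℝ, Closed ρ δ t g →
      ∀ (J : Finset (Sym2 (Fin n))) (i : ℕ),
        (open Classical in (rj t g J).filter fun E => (E \ J).card = i).card ≤ B ^ i)
    (hT : ∀ R : SimpleGraph (Fin n) → ℝ, L R →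
      prP (fun ω => ∀ E ∈ terms n t, In E (H ω) →
        δ₁ < prN ρ fun I => In E (negG I) ∧ R (negG I) < R (H ω)) ≤ a)
    (hF : IsMono L d F) :
    ∃ (P : Ω → Prop) (Q : Finset (Fin n) → Prop),
      prP P ≤ s * (d * a + 6 * d * (4 * d * B * κ) ^ (t + 1)) ∧
      prN ρ Q ≤ s * ((d + 1) * (((terms n t).card : ℝ) ^ 2 * (δ + δ₁))) ∧
      ∀ o : Fin s, ∃ g : Finset (Sym2 (Fin n)) → ℝ, Closed ρ δ t g ∧
        (∀ ω, ¬ P ω → ∃ E ∈ terms n t, In E (H ω) ∧ F o (H ω) ≤ g E) ∧
        ∀ I, ¬ Q I → ∀ E ∈ terms n t, In E (negG I) → g E ≤ F o (negG I) := by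
  classical
  set Tc : ℝ := ((terms n t).card : ℝ) with hTc
  have hTc1 : 1 ≤ Tc := by
    rw [hTc]
    exact_mod_cast card_pos.2 ⟨∅, empty_mem_terms n t⟩
  have hTT : Tc ≤ Tc ^ 2 := by nlinarith
  have hT2 : 0 ≤ Tc ^ 2 := by positivity
  have hmk : 0 ≤ 6 * (d : ℝ) * (4 * d * B * κ) ^ (t + 1) := by positivity
  have hm' : ∀ g : Finset (Sym2 (Fin n)) → ℝ, Closed ρ δ t g →
      ∀ (J : Finset (Sym2 (Fin n))) (i : ℕ),
        ((rj t g J).filter fun E => (E \ J).card = i).card ≤ B ^ i := by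
    intro g hg J i
    convert hm g hg J i
  suffices key : ∀ i : ℕ, i ≤ s → ∃ (P : Ω → Prop) (Q : Finset (Fin n) → Prop),
      prP P ≤ i * (d * a + 6 * d * (4 * d * B * κ) ^ (t + 1)) ∧
      prN ρ Q ≤ i * ((d + 1) * (Tc ^ 2 * (δ + δ₁))) ∧
      ∀ j : Fin s, (j : ℕ) < i → ∃ g : Finset (Sym2 (Fin n)) → ℝ, MonoFn t g ∧
        Closed ρ δ t g ∧ Approx t H P Q (F j) g by
    obtain ⟨P, Q, hP, hQ, hall⟩ := key s le_rfl
    refine ⟨P, Q, hP, hQ, fun o => ?_⟩
    obtain ⟨g, _, hcl, hg⟩ := hall o o.2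
    exact ⟨g, hcl, hg.1, hg.2⟩
  intro i
  induction i with
  | zero =>
    intro _
    refine ⟨fun _ => False, fun _ => False, ?_, ?_, fun j hj => absurd hj (Nat.not_lt_zero _)⟩
    · rw [prP_false]
      simp
    · rw [prN_false]
      simp
  | succ i ih =>
    intro hi
    obtain ⟨P, Q, hP, hQ, hall⟩ := ih (by omega)
    -- the signals
    have hsig : ∀ f : SimpleGraph (Fin n) → ℝ, IsWire L F ⟨i, by omega⟩ f →
        ∃ (P' : Ω → Prop) (Q' : Finset (Fin n) → Prop) (g : Finset (Sym2 (Fin n)) → ℝ),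
          prP P' ≤ a ∧ prN ρ Q' ≤ Tc ^ 2 * (δ + δ₁) ∧ MonoFn t g ∧ Closed ρ δ t g ∧
          Approx t H (fun ω => P ω ∨ P' ω) (fun I => Q I ∨ Q' I) f g := by
      rintro f (hleaf | ⟨j, hj, rfl⟩)
      · obtain ⟨g, Q₀, hg, hQ₀, hap⟩ := rel_leaf (t := t) h0 h1 hδ₁ H f
        obtain ⟨Q₁, g', hg', hcl, hQ₁, hap'⟩ := close_step hC h0 h1 hδ H hg hap
        refine ⟨_, fun I => Q₀ I ∨ Q₁ I, g', hT f hleaf, ?_, hg', hcl, ?_, ?_⟩
        · refine (prN_or h0 h1 _ _).trans ?_
          nlinarith [mul_le_mul_of_nonneg_right hTT hδ₁]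
        · intro ω hω
          exact hap'.1 ω fun h => hω (Or.inr h)
        · intro I hI
          exact hap'.2 I fun h => hI (Or.inr h)
      · obtain ⟨g, hg, hcl, hap⟩ := hall j hj
        refine ⟨fun _ => False, fun _ => False, g, ?_, ?_, hg, hcl, ?_, ?_⟩
        · rw [prP_false]
          exact ha
        · rw [prN_false]
          positivity
        · intro ω hω
          exact hap.1 ω fun h => hω (Or.inl h)
        · intro I hI
          exact hap.2 I fun h => hI (Or.inl h)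
    obtain ⟨φ, f, hφ, hf, hFi⟩ := hF ⟨i, by omega⟩
    choose P' Q' g hP' hQ' hg hcg hap using fun b => hsig (f b) (hf b)
    -- the gate
    set gN : ℕ → Finset (Sym2 (Fin n)) → ℝ := fun b => if h : b < d then g ⟨b, h⟩ else fun _ => 0
      with hgN
    have hgNb : ∀ b : Fin d, gN b = g b := by
      intro b
      rw [hgN]
      simp
    have hgNc : ∀ b < d, Closed ρ δ t (gN b) := by
      intro b hb
      have := hgNb ⟨b, hb⟩
      rw [show gN b = g ⟨b, hb⟩ from this]
      exact hcg _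
    have hgNm : ∀ b < d, MonoFn t (gN b) := by
      intro b hb
      have := hgNb ⟨b, hb⟩
      rw [show gN b = g ⟨b, hb⟩ from this]
      exact hg _
    set PE : Ω → Prop := fun ω => ∃ W ∈ badUnion t d gN, In W (H ω) with hPE
    have hPEle : prP PE ≤ 6 * d * (4 * d * B * κ) ^ (t + 1) :=
      bad_error H hκ0 hB1 hd1 hH hx fun b hb => hm' _ (hgNc b hb)
    have hgm : MonoFn t fun E => φ fun b => g b E := by
      intro E hE E' hE' hs
      exact hφ fun b => hg b E hE E' hE' hs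
    have hap2 : Approx t H (fun ω => (P ω ∨ ∃ b ∈ (univ : Finset (Fin d)), P' b ω) ∨ PE ω)
        (fun I => Q I ∨ ∃ b ∈ (univ : Finset (Fin d)), Q' b I) (F ⟨i, by omega⟩)
        fun E => φ fun b => g b E := by
      refine ⟨fun ω hω => ?_, fun I hI E hE hEG => ?_⟩
      · simp only [not_or] at hω
        obtain ⟨⟨hω0, hω1⟩, hω3⟩ := hω
        have hE : ∀ b < d, ∃ E ∈ terms n t, In E (H ω) ∧
            (fun b => if h : b < d then f ⟨b, h⟩ (H ω) else 0) b ≤ gN b E := by
          intro b hb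
          obtain ⟨E, h2, h3, h4⟩ := (hap ⟨b, hb⟩).1 ω (by
            simp only [not_or]
            exact ⟨hω0, fun h => hω1 ⟨_, mem_univ _, h⟩⟩)
          refine ⟨E, h2, h3, ?_⟩
          simp only [hb, dif_pos]
          rw [show gN b = g ⟨b, hb⟩ from hgNb ⟨b, hb⟩]
          exact h4
        obtain ⟨U, hU, hUG, hUc⟩ := merge hgNm hE (fun W hW hin => hω3 ⟨W, hW, hin⟩) d le_rfl
        refine ⟨U, reach_terms d U hU, hUG, ?_⟩
        rw [hFi]
        refine hφ fun b => ?_
        have h2 := hUc b b.2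
        simp only [b.2, dif_pos] at h2
        rw [hgNb] at h2
        exact h2
      · simp only [not_or] at hI
        obtain ⟨hI0, hI1⟩ := hI
        rw [hFi]
        refine hφ fun b => (hap b).2 I ?_ E hE hEG
        simp only [not_or]
        exact ⟨hI0, fun h => hI1 ⟨_, mem_univ _, h⟩⟩
    obtain ⟨Q₃, g', hg', hcl, hQ₃, hap'⟩ := close_step hC h0 h1 hδ H hgm hap2
    refine ⟨fun ω => (P ω ∨ ∃ b ∈ (univ : Finset (Fin d)), P' b ω) ∨ PE ω,
      fun I => (Q I ∨ ∃ b ∈ (univ : Finset (Fin d)), Q' b I) ∨ Q₃ I, ?_, ?_, fun j hj => ?_⟩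
    · have e1 := prP_or (fun ω => P ω ∨ ∃ b ∈ (univ : Finset (Fin d)), P' b ω) PE
      have e2 := prP_or P fun ω => ∃ b ∈ (univ : Finset (Fin d)), P' b ω
      have e3 : prP (fun ω => ∃ b ∈ (univ : Finset (Fin d)), P' b ω) ≤ d * a := by
        refine (prP_exists _ _).trans ((sum_le_sum fun b _ => hP' b).trans (le_of_eq ?_))
        rw [sum_const, card_univ, Fintype.card_fin, nsmul_eq_mul]
      push_cast
      linarith
    · have e1 := prN_or h0 h1 (fun I => Q I ∨ ∃ b ∈ (univ : Finset (Fin d)), Q' b I) Q₃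
      have e2 := prN_or h0 h1 Q fun I => ∃ b ∈ (univ : Finset (Fin d)), Q' b I
      have e3 : prN ρ (fun I => ∃ b ∈ (univ : Finset (Fin d)), Q' b I) ≤
          d * (Tc ^ 2 * (δ + δ₁)) := by
        refine (prN_exists h0 h1 _ _).trans ((sum_le_sum fun b _ => hQ' b).trans (le_of_eq ?_))
        rw [sum_const, card_univ, Fintype.card_fin, nsmul_eq_mul]
      have e4 := mul_nonneg hT2 hδ₁
      push_cast
      nlinarith
    · rcases Nat.lt_succ_iff_lt_or_eq.1 hj with h | h
      · obtain ⟨g, hg, hcl', hapj⟩ := hall j h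
        refine ⟨g, hg, hcl', fun ω hω => ?_, fun I hI => ?_⟩
        · exact hapj.1 ω fun h => hω (Or.inl (Or.inl h))
        · exact hapj.2 I fun h => hI (Or.inl (Or.inl h))
      · have hji : j = ⟨i, by omega⟩ := Fin.ext h
        rw [hji]
        exact ⟨g', hg', hcl, hap'⟩

open GatesAux in
open Classical in
/-- Few positive tests contain a nonempty jump. -/
theorem jump_small {n t B : ℕ} {κ : ℝ} {Ω : Type} [Fintype Ω] [Nonempty Ω]
    (H : Ω → SimpleGraph (Fin n)) (hκ0 : 0 ≤ κ)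
    (hH : ∀ E : Finset (Sym2 (Fin n)), prP (fun ω => In E (H ω)) ≤ κ ^ E.card)
    (hx : B * κ ≤ 1 / 2) {g : Finset (Sym2 (Fin n)) → ℝ}
    (hB : ∀ i : ℕ, ((rj t g ∅).filter fun E => (E \ ∅).card = i).card ≤ B ^ i) :
    prP (fun ω => ∃ E ∈ (rj t g ∅).filter fun E => E.Nonempty, In E (H ω)) ≤ 2 * (B * κ) := by
  have h0 : 0 ≤ (B : ℝ) * κ := mul_nonneg (Nat.cast_nonneg _) hκ0
  refine (prP_exists _ _).trans ?_
  refine (sum_le_sum fun E _ => hH E).trans ?_
  have hs := rj_sum hκ0 hx hB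
  rw [card_empty, pow_zero, one_mul] at hs
  have hemp : ∅ ∈ rj t g ∅ := mem_rj.2 ⟨empty_mem_terms n t, Subset.rfl, fun E' _ h =>
    absurd h (not_ssubset_empty E')⟩
  rw [← add_sum_erase _ _ hemp, card_empty, pow_zero] at hs
  have h1 : (rj t g ∅).filter (fun E => E.Nonempty) = (rj t g ∅).erase ∅ := by
    ext E
    rw [mem_filter, mem_erase, nonempty_iff_ne_empty]
    tauto
  rw [h1]
  linarith

end Pool.Agent.Lib.MP_cff830_lc.ZR
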