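import Pool.Agent.Lib.MP_cff830_lc.ZR.Avg
import Pool.Agent.Lib.MP_cff830_lc.ZR.Elim
import Pool.Agent.Lib.MP_cff830_lc.NR.Main

/-!
# Randomised circuits, without and with NOT gates
-/

set_option autoImplicit false

namespace Pool.Agent.Lib.MP_cff830_lc.ZR

open Finset MR MR.NR

theorem cover_nonneg' {V : Type} [Fintype V] (G : SimpleGraph V) :
    0 ≤ minCover G fun _ => 1 := cover_nonneg G _ fun _ => zero_le_one

/-- Randomised monotone circuits. -/
theorem stRand (hAvg : StAvg) : ∀ ε : ℝ, 0 < ε → ∃ C : ℕ, ∀ k l d n : ℕ, 2 ≤ k → 1 ≤ l →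
    l * 2 ^ (C * k ^ 2) ≤ n → 1 ≤ d → d ^ 6 ≤ n →
    ∀ (ι : Type) [Fintype ι] (p : ι → ℝ) (s : ℕ) (F : ι → Fin s → SimpleGraph (Fin n) → ℝ)
      (o : ι → Fin s), IsDist p → (∀ i, IsMono (IsInput k l) d (F i)) →
      ((∀ G, 1 / 2 + ε ≤ prob p fun i => minCover G (fun _ => 1) ≤ F i (o i) G ∧
          F i (o i) G ≤ (2 - ε) * minCover G fun _ => 1) ∨
        ∀ G G', (1 - ε) * (n : ℝ) ≤ minCover G (fun _ => 1) →
          minCover G' (fun _ => 1) ≤ (1 / 2 + ε) * (n : ℝ) →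
            ε ≤ prob p fun i => F i (o i) G' < F i (o i) G) →
        (2 : ℝ) ^ ((n : ℝ) ^ (1 / 30 : ℝ)) ≤ (s : ℝ) := by
  intro ε hε
  set e : ℝ := min (ε / 8) (1 / 4) with he
  have he0 : 0 < e := lt_min (by positivity) (by norm_num)
  have he1 : e ≤ 1 / 4 := min_le_right _ _
  have he3 : e ≤ ε / 8 := min_le_left _ _
  obtain ⟨C, hC⟩ := hAvg e he0
  refine ⟨C, fun k l d n hk hl hn hd1 hd6 ι _ p s F o hp hF hor => ?_⟩
  have hn0 : 2 ^ (C * k ^ 2) ≤ n := le_trans (Nat.le_mul_of_pos_left _ (by omega)) hn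
  have hn1 : 1 ≤ n := le_trans (Nat.one_le_pow _ _ (by positivity)) hn0
  have hnR : (0 : ℝ) < n := by exact_mod_cast hn1
  obtain ⟨Ω, _, P, X, X', hP, hX, hav⟩ := hC k l d n hk hd1 hd6 hn0 hn
  by_contra hcon
  push Not at hcon
  obtain ⟨ω, hω⟩ := minimax hp hP (fun i ω => F i (o i) (X' ω) < F i (o i) (X ω)) e
    fun i => hav s (F i) (hF i) (o i) hcon
  obtain ⟨h1, h2⟩ := hX ω
  rcases hor with h | h
  · have h3 := prob_and hp (fun i => minCover (X ω) (fun _ => 1) ≤ F i (o i) (X ω) ∧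
          F i (o i) (X ω) ≤ (2 - ε) * minCover (X ω) fun _ => 1)
        fun i => minCover (X' ω) (fun _ => 1) ≤ F i (o i) (X' ω) ∧
          F i (o i) (X' ω) ≤ (2 - ε) * minCover (X' ω) fun _ => 1
    have h4 := h (X ω)
    have h5 := h (X' ω)
    have h6 : prob p (fun i => (minCover (X ω) (fun _ => 1) ≤ F i (o i) (X ω) ∧
          F i (o i) (X ω) ≤ (2 - ε) * minCover (X ω) fun _ => 1) ∧
        minCover (X' ω) (fun _ => 1) ≤ F i (o i) (X' ω) ∧
          F i (o i) (X' ω) ≤ (2 - ε) * minCover (X' ω) fun _ => 1) ≤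
        prob p fun i => F i (o i) (X' ω) < F i (o i) (X ω) := by
      refine prob_mono hp.1 ?_
      rintro i ⟨⟨h7, -⟩, -, h8⟩
      have h9 : (2 - ε) * (minCover (X' ω) fun _ => 1) ≤ (1 - 2 * e) * n := by
        rcases le_total 0 (2 - ε) with h5 | h5
        · refine (mul_le_mul_of_nonneg_left h2 h5).trans ?_
          rw [← mul_assoc]
          refine mul_le_mul_of_nonneg_right ?_ hnR.le
          nlinarith
        · refine (mul_nonpos_of_nonpos_of_nonneg h5 (cover_nonneg' _)).trans ?_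
          exact mul_nonneg (by linarith) hnR.le
      have h10 : (1 - 2 * e) * (n : ℝ) < (1 - e) * n :=
        mul_lt_mul_of_pos_right (by linarith) hnR
      show F i (o i) (X' ω) < F i (o i) (X ω)
      linarith
    linarith
  · have h3 := h (X ω) (X' ω) (le_trans
      (mul_le_mul_of_nonneg_right (by linarith) hnR.le) h1)
      (h2.trans (mul_le_mul_of_nonneg_right (by linarith) hnR.le))
    linarith

/-- Randomised circuits with NOT gates. -/
theorem stNot (hAvg : StAvg) : ∀ ε : ℝ, 0 < ε → ∃ C : ℕ, ∀ k l d m q n : ℕ, 2 ≤ k → 1 ≤ l →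
    1 ≤ m → l * 2 ^ (C * k ^ 2) ≤ q → 1 ≤ d → d ^ 6 ≤ q → C * m * q ≤ n →
    ∃ w : Fin n → ℕ, (∀ v, 1 ≤ w v ∧ w v ≤ C ^ m) ∧
      ∀ (ι : Type) [Fintype ι] (p : ι → ℝ) (s : ℕ) (N : ι → Finset (Fin s))
        (F : ι → Fin s → SimpleGraph (Fin n) → ℝ) (o : ι → Fin s), IsDist p →
        (∀ i, IsNot (IsValue k l q) d m (N i) (F i)) →
        (∀ G, 1 / 2 + ε ≤ prob p fun i => minCover G (fun v => (w v : ℝ)) ≤ F i (o i) G ∧
          F i (o i) G ≤ (2 - ε) * minCover G fun v => (w v : ℝ)) →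
          (2 : ℝ) ^ ((q : ℝ) ^ (1 / 30 : ℝ)) ≤ (s : ℝ) := by
  classical
  intro ε hε
  set ε₁ : ℝ := min ε 1 with hε₁
  have hε₁0 : 0 < ε₁ := lt_min hε one_pos
  have hε₁1 : ε₁ ≤ 1 := min_le_right _ _
  have hε₁ε : ε₁ ≤ ε := min_le_left _ _
  obtain ⟨C₀, hC₀⟩ := hAvg (ε₁ / 16) (by positivity)
  obtain ⟨M₀, hM₀⟩ := exists_nat_ge (16 / ε₁)
  set M := M₀ + 2 with hM
  refine ⟨max C₀ (M ^ M), ?_⟩
  intro k l d m q n hk hl hm hlq hd1 hd6 hn
  have hMM : M ≤ M ^ M := Nat.le_self_pow (by omega) M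
  have hlq' : l * 2 ^ (C₀ * k ^ 2) ≤ q := by
    refine le_trans (Nat.mul_le_mul_left _ (Nat.pow_le_pow_right (by norm_num) ?_)) hlq
    exact Nat.mul_le_mul_right _ (le_max_left _ _)
  have hq' : 2 ^ (C₀ * k ^ 2) ≤ q := le_trans (Nat.le_mul_of_pos_left _ (by omega)) hlq'
  have hqpos : 0 < q := lt_of_lt_of_le (by positivity) hq'
  set b := M * m with hb
  have hb0 : 0 < b := Nat.mul_pos (by omega) (by omega)
  have hbq : b * q ≤ n := by
    refine le_trans (Nat.mul_le_mul_right q (Nat.mul_le_mul_right m ?_)) hn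
    exact hMM.trans (le_max_right _ _)
  refine ⟨wq n q b M, fun v => ⟨Nat.one_le_pow _ _ (by omega), ?_⟩, ?_⟩
  · unfold wq
    refine (Nat.pow_le_pow_right (by omega) (min_le_right _ _)).trans ?_
    rw [hb, pow_mul]
    exact Nat.pow_le_pow_left (le_max_right _ _) m
  intro ι _ p s N F o hp hF ho
  by_contra hcon
  push Not at hcon
  obtain ⟨Ω, _, P, X, X', hP, hX, hav⟩ := hC₀ k l d q hk hd1 hd6 hq' hlq'
  have hj : ∀ j : Fin b, ((j : ℕ) + 1) * q ≤ n := fun j =>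
    (Nat.mul_le_mul_right q (by have := j.2; omega)).trans hbq
  have hbR : (0 : ℝ) < b := by exact_mod_cast hb0
  have hMr : 16 / ε₁ ≤ (M : ℝ) - 1 := by
    rw [hM]
    push_cast
    linarith
  have hM1 : (0 : ℝ) < (M : ℝ) - 1 := lt_of_lt_of_le (by positivity) hMr
  -- the distribution
  have hQ : IsDist fun z : Fin b × Ω => P z.2 / b := by
    refine ⟨fun z => div_nonneg (hP.1 _) hbR.le, ?_⟩
    rw [Fintype.sum_prod_type]
    simp only [← Finset.sum_div, hP.2, sum_const, card_univ, Fintype.card_fin, nsmul_eq_mul]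
    field_simp
  have key : ∀ i, prob (fun z : Fin b × Ω => P z.2 / b)
      (fun z => F i (o i) (put (hj z.1) (X' z.2)) < F i (o i) (put (hj z.1) (X z.2))) ≤
        ε₁ / 8 := by
    intro i
    have h1 : prob (fun z : Fin b × Ω => P z.2 / b)
        (fun z => F i (o i) (put (hj z.1) (X' z.2)) < F i (o i) (put (hj z.1) (X z.2))) =
        (∑ j : Fin b, prob P fun ω =>
          F i (o i) (put (hj j) (X' ω)) < F i (o i) (put (hj j) (X ω))) / b := by
      unfold prob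
      rw [Fintype.sum_prod_type, Finset.sum_div]
      refine sum_congr rfl fun j _ => ?_
      rw [Finset.sum_div]
      refine sum_congr rfl fun ω _ => ?_
      by_cases h : F i (o i) (put (hj j) (X' ω)) < F i (o i) (put (hj j) (X ω))
      · rw [if_pos h, if_pos h]
      · rw [if_neg h, if_neg h, zero_div]
    rw [h1]
    have h2 : ∀ j : Fin b, (prob P fun ω =>
        F i (o i) (put (hj j) (X' ω)) < F i (o i) (put (hj j) (X ω))) ≤
        (if ¬ ∀ a ∈ N i, F i a (chain n q j) = F i a (chain n q (j + 1)) then 1 else 0) +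
          ε₁ / 16 := by
      intro j
      by_cases hst : ∀ a ∈ N i, F i a (chain n q j) = F i a (chain n q (j + 1))
      · rw [if_neg (not_not.2 hst), zero_add]
        exact hav s _ (circuit_put (hF i) (hj j) hst) (o i) hcon
      · rw [if_pos hst]
        have := prob_le_one hP fun ω =>
          F i (o i) (put (hj j) (X' ω)) < F i (o i) (put (hj j) (X ω))
        linarith
    have h3 := sum_le_sum fun j (_ : j ∈ (univ : Finset (Fin b))) => h2 j
    rw [sum_add_distrib, sum_const, card_univ, Fintype.card_fin, nsmul_eq_mul, sum_boole] at h3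
    have h4 : (((univ.filter fun j : Fin b =>
        ¬ ∀ a ∈ N i, F i a (chain n q j) = F i a (chain n q (j + 1))).card : ℕ) : ℝ) ≤ m := by
      exact_mod_cast card_unstable (fun g hg G G' => value_mono hg) (hF i)
    have h5 : (m : ℝ) ≤ b * (ε₁ / 16) := by
      rw [hb]
      push_cast
      have h6 : (1 : ℝ) ≤ M * (ε₁ / 16) := by
        have h7 : 16 / ε₁ ≤ M := by linarith
        rw [div_le_iff₀ hε₁0] at h7
        linarith
      calc (m : ℝ) = 1 * m := (one_mul _).symm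
        _ ≤ M * (ε₁ / 16) * m := mul_le_mul_of_nonneg_right h6 (Nat.cast_nonneg _)
        _ = M * m * (ε₁ / 16) := by ring
    rw [div_le_iff₀ hbR]
    linarith
  obtain ⟨⟨j, ω⟩, hjω⟩ := minimax hp hQ (fun i (z : Fin b × Ω) =>
    F i (o i) (put (hj z.1) (X' z.2)) < F i (o i) (put (hj z.1) (X z.2))) (ε₁ / 8) key
  have hjω' : prob p (fun i =>
    F i (o i) (put (hj j) (X' ω)) < F i (o i) (put (hj j) (X ω))) ≤ ε₁ / 8 := hjω
  obtain ⟨hX1, hX2⟩ := hX ω
  have hMj : (0 : ℝ) < (M : ℝ) ^ (j : ℕ) := by positivity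
  have hq0 : (0 : ℝ) < q := by exact_mod_cast hqpos
  have hgeo : (∑ c ∈ Finset.range j, (M : ℝ) ^ c) ≤ (M : ℝ) ^ (j : ℕ) * (ε₁ / 16) := by
    have h1 : (∑ c ∈ Finset.range j, (M : ℝ) ^ c) * ((M : ℝ) - 1) = (M : ℝ) ^ (j : ℕ) - 1 :=
      geom_sum_mul _ _
    have h2 : (∑ c ∈ Finset.range j, (M : ℝ) ^ c) * (16 / ε₁) ≤ (M : ℝ) ^ (j : ℕ) := by
      refine (mul_le_mul_of_nonneg_left hMr (Finset.sum_nonneg fun c _ => by positivity)).trans ?_
      rw [h1]
      linarith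
    have h3 : (∑ c ∈ Finset.range j, (M : ℝ) ^ c) =
        (∑ c ∈ Finset.range j, (M : ℝ) ^ c) * (16 / ε₁) * (ε₁ / 16) := by
      field_simp
    rw [h3]
    exact mul_le_mul_of_nonneg_right h2 (by positivity)
  have h1 := cover_lower (M := M) (hj j) j.2 (X ω)
  have h2 := cover_upper (M := M) (hj j) j.2 hqpos (X' ω)
  have h5 : 0 ≤ minCover (put (hj j) (X' ω)) fun v => (wq n q b M v : ℝ) :=
    cover_nonneg _ _ fun _ => Nat.cast_nonneg _
  have h7 : (minCover (put (hj j) (X' ω)) fun v => (wq n q b M v : ℝ)) ≤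
      (M : ℝ) ^ (j : ℕ) * (q * (1 / 2 + ε₁ / 16 + ε₁ / 16)) := by
    refine h2.trans ?_
    have e1 : (M : ℝ) ^ (j : ℕ) * minCover (X' ω) (fun _ => 1) ≤
        (M : ℝ) ^ (j : ℕ) * ((1 / 2 + ε₁ / 16) * q) := mul_le_mul_of_nonneg_left hX2 hMj.le
    have e2 : (q : ℝ) * ∑ c ∈ Finset.range j, (M : ℝ) ^ c ≤
        q * ((M : ℝ) ^ (j : ℕ) * (ε₁ / 16)) := mul_le_mul_of_nonneg_left hgeo hq0.le
    linarith
  have h9 : (2 - ε₁) * (1 / 2 + ε₁ / 16 + ε₁ / 16) < 1 - ε₁ / 16 := by nlinarith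
  have h10 : (2 - ε₁) * ((M : ℝ) ^ (j : ℕ) * (q * (1 / 2 + ε₁ / 16 + ε₁ / 16))) =
      (M : ℝ) ^ (j : ℕ) * (((2 - ε₁) * (1 / 2 + ε₁ / 16 + ε₁ / 16)) * q) := by ring
  have hboth := prob_and hp
    (fun i => minCover (put (hj j) (X ω)) (fun v => (wq n q b M v : ℝ)) ≤
        F i (o i) (put (hj j) (X ω)) ∧ F i (o i) (put (hj j) (X ω)) ≤
          (2 - ε) * minCover (put (hj j) (X ω)) fun v => (wq n q b M v : ℝ))
    fun i => minCover (put (hj j) (X' ω)) (fun v => (wq n q b M v : ℝ)) ≤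
        F i (o i) (put (hj j) (X' ω)) ∧ F i (o i) (put (hj j) (X' ω)) ≤
          (2 - ε) * minCover (put (hj j) (X' ω)) fun v => (wq n q b M v : ℝ)
  have hG := ho (put (hj j) (X ω))
  have hG' := ho (put (hj j) (X' ω))
  have hlt : prob p (fun i => (minCover (put (hj j) (X ω)) (fun v => (wq n q b M v : ℝ)) ≤
        F i (o i) (put (hj j) (X ω)) ∧ F i (o i) (put (hj j) (X ω)) ≤
          (2 - ε) * minCover (put (hj j) (X ω)) fun v => (wq n q b M v : ℝ)) ∧
      minCover (put (hj j) (X' ω)) (fun v => (wq n q b M v : ℝ)) ≤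
        F i (o i) (put (hj j) (X' ω)) ∧ F i (o i) (put (hj j) (X' ω)) ≤
          (2 - ε) * minCover (put (hj j) (X' ω)) fun v => (wq n q b M v : ℝ)) ≤
      prob p fun i => F i (o i) (put (hj j) (X' ω)) < F i (o i) (put (hj j) (X ω)) := by
    refine prob_mono hp.1 ?_
    rintro i ⟨⟨h3, -⟩, -, h4⟩
    have h6 : F i (o i) (put (hj j) (X' ω)) ≤
        (2 - ε₁) * minCover (put (hj j) (X' ω)) fun v => (wq n q b M v : ℝ) :=
      h4.trans (mul_le_mul_of_nonneg_right (by linarith) h5)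
    have h8 : (M : ℝ) ^ (j : ℕ) * ((1 - ε₁ / 16) * q) ≤ F i (o i) (put (hj j) (X ω)) :=
      (mul_le_mul_of_nonneg_left hX1 hMj.le).trans (h1.trans h3)
    refine lt_of_lt_of_le (lt_of_le_of_lt (h6.trans
      (mul_le_mul_of_nonneg_left h7 (by linarith))) ?_) h8
    rw [h10]
    exact mul_lt_mul_of_pos_left (mul_lt_mul_of_pos_right h9 hq0) hMj
  linarith

end Pool.Agent.Lib.MP_cff830_lc.ZR
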